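import Pool.Agent.S5N.Basic

/-! # Moduli interpretation of `X(b3)` and `X(s3)`: algebra (helper34)

PROOF of `isB3_of_root`. Suppose `j ≠ 0`, so `A ≠ 0`. `3 X^2 + A ≠ 0`: otherwise `h` reads
`12 X (B - 2 X^3) = 0`; `X = 0` gives `A = 0` and `B = 2 X^3`, `A = -3 X^2` give
`4 A^3 + 27 B^2 = 0`. Put `x = -9 (X^2 + 3 A) / (3 X^2 + A)`. `X^2 + 3 A ≠ 0`: otherwise
`12 B X = -8 A^2`, so `A (4 A^3 + 27 B^2) = 0`. `x + 27 = 72 X^2 / (3 X^2 + A)`,
`x + 3 = -24 A / (3 X^2 + A)`, and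
`(X^2 + 3 A) (3 X^2 + A)^3 = 16 X^2 (4 A^3 + 27 B^2)` by `16 * 27 B^2 X^2 = 3 (12 B X)^2` and
`12 B X = A^2 - 6 A X^2 - 3 X^4`.
PROOF of `isS3_of_pair`. Suppose `j ≠ 0`, so `A ≠ 0`, hence `v ≠ 0` by `h2`. Put
`r = 3 (A - v) / (A + 3 v)`. `A + 3 v ≠ 0`: otherwise `h2` reads `3 v (u^2 - 4 v) = 0`. `A - v ≠ 0`:
otherwise `h2` gives `4 v = -3 u^2`, `A = v`, `4 B = -u^3`, and so `4 A^3 + 27 B^2 = 0`.
`r + 1 = 4 A / (A + 3 v)`, `r - 3 = -12 v / (A + 3 v)`, so the claim is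
`j = (3 (r + 1) (r - 3) / r)^3 = (-48 A v / ((A - v) (A + 3 v)))^3`, i.e. (using
`6912 A^3 = j (4 A^3 + 27 B^2)`) `(A - v)^3 (A + 3 v)^3 = -16 v^3 (4 A^3 + 27 B^2)`, which follows
from `16 B^2 = u^2 (2 v - u^2 - 2 A)^2` and `3 v u^2 = 3 v^2 - 6 A v - A^2`. -/

namespace Pool.Agent.S5N

open Pool.Agent.S5M

variable {F : Type*} [Field F] [CharZero F]

omit [CharZero F] in
private lemma j_zero_of_A {A B j : F} (hj : JRel A B j) (hA : A = 0) : j = 0 := by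
  obtain ⟨h1, h2⟩ := hj
  rw [hA] at h1 h2
  have h3 : j * (4 * 0 ^ 3 + 27 * B ^ 2) = 0 := by rw [h2]; ring
  rcases mul_eq_zero.mp h3 with h4 | h4
  · exact h4
  · exact absurd h4 h1

theorem isB3_of_root {A B X j : F} (hj : JRel A B j)
    (h : 3 * X ^ 4 + 6 * A * X ^ 2 + 12 * B * X - A ^ 2 = 0) : j = 0 ∨ IsB3 j := by
  by_cases hA : A = 0
  · exact Or.inl (j_zero_of_A hj hA)
  right
  obtain ⟨hd, hjj⟩ := hj
  have hT : 3 * X ^ 2 + A ≠ 0 := by
    intro hT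
    have hA' : A = -3 * X ^ 2 := by linear_combination hT
    have h1 : (12 : F) * (X * (B - 2 * X ^ 3)) = 0 := by
      rw [hA'] at h
      linear_combination h
    have h12 : (12 : F) ≠ 0 := by norm_num
    rcases mul_eq_zero.mp h1 with h2 | h2
    · exact h12 h2
    rcases mul_eq_zero.mp h2 with h3 | h3
    · apply hA
      rw [hA', h3]
      ring
    · apply hd
      have hB : B = 2 * X ^ 3 := by linear_combination h3
      rw [hA', hB]
      ring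
  have hS : X ^ 2 + 3 * A ≠ 0 := by
    intro hS
    have hX : X ^ 2 = -3 * A := by linear_combination hS
    have h1 : 12 * B * X = -8 * A ^ 2 := by
      linear_combination h - (3 * X ^ 2 - 9 * A + 6 * A) * hX
    have h2 : (16 : F) * (A * (4 * A ^ 3 + 27 * B ^ 2)) = 0 := by
      linear_combination (-(12 * B * X) + 8 * A ^ 2) * h1 + 144 * B ^ 2 * hX
    have h16 : (16 : F) ≠ 0 := by norm_num
    rcases mul_eq_zero.mp h2 with h3 | h3
    · exact h16 h3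
    rcases mul_eq_zero.mp h3 with h4 | h4
    · exact hA h4
    · exact hd h4
  have key : (X ^ 2 + 3 * A) * (3 * X ^ 2 + A) ^ 3 = 16 * X ^ 2 * (4 * A ^ 3 + 27 * B ^ 2) := by
    linear_combination (3 * (3 * X ^ 4 + 6 * A * X ^ 2 - A ^ 2) - 3 * (12 * B * X)) * h
  refine ⟨-9 * (X ^ 2 + 3 * A) / (3 * X ^ 2 + A), ?_, ?_⟩
  · refine div_ne_zero (mul_ne_zero ?_ hS) hT
    norm_num
  · have e1 : -9 * (X ^ 2 + 3 * A) / (3 * X ^ 2 + A) + 27 = 72 * X ^ 2 / (3 * X ^ 2 + A) := by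
      rw [div_add' _ _ _ hT]
      congr 1
      ring
    have e2 : -9 * (X ^ 2 + 3 * A) / (3 * X ^ 2 + A) + 3 = -24 * A / (3 * X ^ 2 + A) := by
      rw [div_add' _ _ _ hT]
      congr 1
      ring
    rw [e1, e2, div_pow, div_mul_div_comm, ← mul_div_assoc, div_eq_div_iff hT
      (mul_ne_zero hT (pow_ne_zero 3 hT))]
    linear_combination -9 * j * (3 * X ^ 2 + A) * key - 144 * X ^ 2 * (3 * X ^ 2 + A) * hjj

theorem isS3_of_pair {A B u v j : F} (hj : JRel A B j) (hne : u ^ 2 - 4 * v ≠ 0)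
    (h1 : 4 * B = 2 * u * v - u ^ 3 - 2 * A * u)
    (h2 : A ^ 2 + 6 * A * v + 3 * u ^ 2 * v - 3 * v ^ 2 = 0) : j = 0 ∨ IsS3 j := by
  by_cases hA : A = 0
  · exact Or.inl (j_zero_of_A hj hA)
  right
  obtain ⟨hd, hjj⟩ := hj
  have h16 : (16 : F) ≠ 0 := by norm_num
  have hv : v ≠ 0 := by
    intro hv
    rw [hv] at h2
    apply hA
    have : A ^ 2 = 0 := by linear_combination h2
    exact pow_eq_zero_iff (by norm_num) |>.mp this
  have hT : A + 3 * v ≠ 0 := by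
    intro hT
    have hA' : A = -3 * v := by linear_combination hT
    rw [hA'] at h2
    have h3 : (3 : F) * v * (u ^ 2 - 4 * v) = 0 := by linear_combination h2
    rcases mul_eq_zero.mp h3 with h4 | h4
    · rcases mul_eq_zero.mp h4 with h5 | h5
      · exact (by norm_num : (3 : F) ≠ 0) h5
      · exact hv h5
    · exact hne h4
  have hS : A - v ≠ 0 := by
    intro hS
    have hA' : A = v := by linear_combination hS
    rw [hA'] at h1 h2 hd
    have h3 : v * (4 * v + 3 * u ^ 2) = 0 := by linear_combination h2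
    rcases mul_eq_zero.mp h3 with h4 | h4
    · exact hv h4
    · apply hd
      have h5 : (16 : F) * (4 * v ^ 3 + 27 * B ^ 2) = 0 := by
        linear_combination 27 * (4 * B - u ^ 3) * h1 +
          ((4 * v) ^ 2 - 4 * v * (3 * u ^ 2) + (3 * u ^ 2) ^ 2) * h4
      rcases mul_eq_zero.mp h5 with h6 | h6
      · exact absurd h6 h16
      · exact h6
  have key : (A - v) ^ 3 * (A + 3 * v) ^ 3 = -16 * v ^ 3 * (4 * A ^ 3 + 27 * B ^ 2) := by
    have hB : 16 * B ^ 2 = u ^ 2 * (2 * v - u ^ 2 - 2 * A) ^ 2 := by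
      linear_combination (4 * B + (2 * u * v - u ^ 3 - 2 * A * u)) * h1
    have hU : 3 * v * u ^ 2 = 3 * v ^ 2 - 6 * A * v - A ^ 2 := by linear_combination h2
    linear_combination 27 * v ^ 3 * hB +
      ((3 * v * u ^ 2) ^ 2 + (3 * v * u ^ 2) * (3 * v ^ 2 - 6 * A * v - A ^ 2) +
        (3 * v ^ 2 - 6 * A * v - A ^ 2) ^ 2 -
        2 * (6 * v ^ 2 - 6 * A * v) * (3 * v * u ^ 2 + (3 * v ^ 2 - 6 * A * v - A ^ 2)) +
        (6 * v ^ 2 - 6 * A * v) ^ 2) * hU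
  refine ⟨3 * (A - v) / (A + 3 * v), ?_, ?_⟩
  · exact div_ne_zero (mul_ne_zero (by norm_num) hS) hT
  · have e1 : 3 * (A - v) / (A + 3 * v) + 1 = 4 * A / (A + 3 * v) := by
      rw [div_add' _ _ _ hT]
      congr 1
      ring
    have e2 : 3 * (A - v) / (A + 3 * v) - 3 = -12 * v / (A + 3 * v) := by
      rw [div_sub' hT]
      congr 1
      ring
    have e3 : 3 * (4 * A / (A + 3 * v)) * (-12 * v / (A + 3 * v)) =
        -144 * A * v / ((A + 3 * v) * (A + 3 * v)) := by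
      field_simp
      ring
    rw [e1, e2, e3, div_pow, div_pow, ← mul_div_assoc,
      div_eq_div_iff (pow_ne_zero 3 hT) (pow_ne_zero 3 (mul_ne_zero hT hT))]
    linear_combination 27 * j * (A + 3 * v) ^ 3 * key - 432 * v ^ 3 * (A + 3 * v) ^ 3 * hjj

end Pool.Agent.S5N
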