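import Pool.Agent.S5N.Basic

/-! # Moduli interpretation of `X(b5)`: algebra (helper34)

PROOF of `root_of_rel`. `h = hfun A s p`, `m = s^2 - 4 p ≠ 0`, `h m = 4 A - 7 s^2 + 40 p`.
`h ≠ 0`: otherwise `4 A = 7 s^2 - 40 p` and 16 times the second relation is
`(89 s^2 - 500 p) (s^2 - 4 p) = 0`, so `p = 89 s^2/500`, `A = -3 s^2/100`, `B = -s^3/500` and
`4 A^3 + 27 B^2 = 0`. The other claim is a polynomial identity modulo the two relations
(`-48 A / m = h^2 + 10 h + 5`, `36 s^2 / m = (h + 11)^2 + 4`: both follow from the second relation,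
e.g. `36 s^2 m - (h m + 11 m)^2 - 4 m^2` is a multiple of it; then `B` from the first relation:
`4 B = s (s^2 - 6 p - 2 A)` and `s^2 - 6 p - 2 A = -(4 A / (3 (h^2 + 10 h + 5))) (h^2 + 4 h - 1)`).
PROOF of `rel_inj`. `q = h^2 + 10 h + 5 ≠ 0` (as `j ≠ 0`), `A ≠ 0`, `B ≠ 0`, `h^2 + 4 h - 1 ≠ 0` (as
`j ≠ 1728`). `m = -48 A / q`, `s^2 = ((h + 11)^2 + 4) m / 36`, `p = (s^2 - m)/4`, and
`s * (s^2 - 6 p - 2 A) = 4 B`, where the bracket depends only on `h` (see above) and is not 0.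
PROOF of `rel_of_root`. `q = h^2 + 10 h + 5 ≠ 0`, `h^2 + 4 h - 1 ≠ 0` (as `(h^2+10h+5)^3 - 1728 h =
(h^2 + 22 h + 125) (h^2 + 4 h - 1)^2`), `A ≠ 0`. Put `s = -3 B q / (A (h^2 + 4 h - 1))`,
`m = -48 A / q`, `p = (s^2 - m)/4`. Then `s^2 = -4 A (h^2 + 22 h + 125)/(3 q)` by the relation
between `j`, `A`, `B`, `h`; the rest is computation. -/

namespace Pool.Agent.S5N

open Pool.Agent.S5M

variable {K : Type*} [Field K] [CharZero K]

omit [CharZero K] in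
theorem Alg5.disc_eq {A B s p : K} (h : Rel5 A B s p) :
    16 * (4 * A ^ 3 + 27 * B ^ 2) = -((4 * A - 7 * s ^ 2 + 40 * p) * (s ^ 2 - 4 * p) ^ 2) := by
  obtain ⟨h1, h2, h3⟩ := h
  have hB : 16 * B ^ 2 = s ^ 2 * (s ^ 2 - 6 * p - 2 * A) ^ 2 := by
    have : (4 * B) ^ 2 = (s * (s ^ 2 - 6 * p - 2 * A)) ^ 2 := by rw [h1]; ring
    linear_combination this
  linear_combination 27 * hB + (64 * A - 20 * s ^ 2 + 128 * p) * h2

omit [CharZero K] in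
theorem Alg5.q_eq {A B s p h : K} (hr : Rel5 A B s p) (e : hfun A s p = h) :
    (s ^ 2 - 4 * p) * (h ^ 2 + 10 * h + 5) = -48 * A := by
  obtain ⟨h1, h2, h3⟩ := hr
  have hm : h * (s ^ 2 - 4 * p) = 4 * A - 7 * s ^ 2 + 40 * p := by
    rw [← e, hfun, div_mul_cancel₀ _ h3]
  apply mul_left_cancel₀ h3
  linear_combination 16 * h2 + (h * (s ^ 2 - 4 * p) + (4 * A - 7 * s ^ 2 + 40 * p) +
    10 * (s ^ 2 - 4 * p)) * hm

omit [CharZero K] in
theorem Alg5.s_eq {A B s p h : K} (hr : Rel5 A B s p) (e : hfun A s p = h) :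
    36 * s ^ 2 = ((h + 11) ^ 2 + 4) * (s ^ 2 - 4 * p) := by
  obtain ⟨h1, h2, h3⟩ := hr
  have hm : h * (s ^ 2 - 4 * p) = 4 * A - 7 * s ^ 2 + 40 * p := by
    rw [← e, hfun, div_mul_cancel₀ _ h3]
  apply mul_left_cancel₀ h3
  linear_combination -16 * h2 - (h * (s ^ 2 - 4 * p) + (4 * A - 7 * s ^ 2 + 40 * p) +
    22 * (s ^ 2 - 4 * p)) * hm

omit [CharZero K] in
theorem Alg5.w_eq {A B s p h : K} (hr : Rel5 A B s p) (e : hfun A s p = h) :
    36 * (s ^ 2 - 6 * p - 2 * A) = (h ^ 2 + 4 * h - 1) * (s ^ 2 - 4 * p) := by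
  obtain ⟨h1, h2, h3⟩ := hr
  have hm : h * (s ^ 2 - 4 * p) = 4 * A - 7 * s ^ 2 + 40 * p := by
    rw [← e, hfun, div_mul_cancel₀ _ h3]
  apply mul_left_cancel₀ h3
  linear_combination -16 * h2 - (h * (s ^ 2 - 4 * p) + (4 * A - 7 * s ^ 2 + 40 * p) +
    4 * (s ^ 2 - 4 * p)) * hm

theorem root_of_rel {A B s p j : K} (hj : JRel A B j) (h : Rel5 A B s p) :
    Root5 j (hfun A s p) := by
  have hd := Alg5.disc_eq h
  have hq := Alg5.q_eq h rfl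
  have h3 := h.2.2
  have hm : hfun A s p * (s ^ 2 - 4 * p) = 4 * A - 7 * s ^ 2 + 40 * p := by
    rw [hfun, div_mul_cancel₀ _ h3]
  obtain ⟨hj1, hj2⟩ := hj
  refine ⟨fun h0 => ?_, ?_⟩
  · apply hj1
    rw [h0, zero_mul] at hm
    rw [← hm, zero_mul, neg_zero] at hd
    have h16 : (16 : K) ≠ 0 := by norm_num
    exact (mul_eq_zero.mp hd).resolve_left h16
  · set t := hfun A s p with ht
    set m := s ^ 2 - 4 * p with hmd
    rw [← hm] at hd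
    have h3' : m ^ 3 ≠ 0 := pow_ne_zero 3 h3
    apply mul_left_cancel₀ h3'
    have e1 : m ^ 3 * (t ^ 2 + 10 * t + 5) ^ 3 = -110592 * A ^ 3 := by
      rw [← mul_pow, hq]; ring
    rw [e1]
    linear_combination j * hd - 16 * hj2

theorem rel_inj {A B s p s' p' j : K} (hj : JRel A B j) (h0 : j ≠ 0) (h1 : j ≠ 1728)
    (h : Rel5 A B s p) (h' : Rel5 A B s' p') (e : hfun A s p = hfun A s' p') :
    s = s' ∧ p = p' := by
  obtain ⟨t, ht⟩ : ∃ t, hfun A s p = t := ⟨_, rfl⟩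
  have ht' : hfun A s' p' = t := by rw [← e, ht]
  have hq := Alg5.q_eq h ht
  have hq' := Alg5.q_eq h' ht'
  have hs := Alg5.s_eq h ht
  have hs' := Alg5.s_eq h' ht'
  have hw := Alg5.w_eq h ht
  have hw' := Alg5.w_eq h' ht'
  have hB := h.1
  have hB' := h'.1
  have hr := root_of_rel hj h
  rw [ht] at hr
  obtain ⟨hr0, hr1⟩ := hr
  have hqn : t ^ 2 + 10 * t + 5 ≠ 0 := by
    intro hc
    rw [hc] at hr1
    exact mul_ne_zero h0 hr0 (by rw [hr1]; ring)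
  have hmm : s ^ 2 - 4 * p = s' ^ 2 - 4 * p' := by
    apply mul_right_cancel₀ hqn
    rw [hq, hq']
  have h36 : (36 : K) ≠ 0 := by norm_num
  have hxx : s ^ 2 = s' ^ 2 := by
    apply mul_left_cancel₀ h36
    rw [hs, hs', hmm]
  have hp : p = p' := by
    have h4 : (4 : K) ≠ 0 := by norm_num
    apply mul_left_cancel₀ h4
    linear_combination hxx - hmm
  refine ⟨?_, hp⟩
  have hww : s ^ 2 - 6 * p - 2 * A = s' ^ 2 - 6 * p' - 2 * A := by rw [hxx, hp]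
  have hW : s ^ 2 - 6 * p - 2 * A ≠ 0 := by
    intro hc
    have hB0 : 4 * B = 0 := by
      rw [hB]
      linear_combination s * hc
    have hB1 : B = 0 := by
      have h4 : (4 : K) ≠ 0 := by norm_num
      exact (mul_eq_zero.mp hB0).resolve_left h4
    obtain ⟨hj1, hj2⟩ := hj
    rw [hB1] at hj1 hj2
    have hA : A ^ 3 ≠ 0 := by
      intro hA
      apply hj1
      rw [hA]; ring
    apply h1
    apply mul_right_cancel₀ hA
    have h4 : (4 : K) ≠ 0 := by norm_num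
    apply mul_left_cancel₀ h4
    linear_combination hj2
  apply mul_right_cancel₀ hW
  have e1 : s * (s ^ 2 - 6 * p - 2 * A) = 4 * B := by rw [hB]; ring
  have e2 : s' * (s' ^ 2 - 6 * p' - 2 * A) = 4 * B := by rw [hB']; ring
  rw [e1, hww, e2]

theorem rel_of_root {A B j h : K} (hj : JRel A B j) (h0 : j ≠ 0) (h1 : j ≠ 1728)
    (hr : Root5 j h) : ∃ s p : K, Rel5 A B s p ∧ hfun A s p = h := by
  obtain ⟨hj1, hj2⟩ := hj
  obtain ⟨hr0, hr1⟩ := hr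
  have hqn : h ^ 2 + 10 * h + 5 ≠ 0 := by
    intro hc
    rw [hc] at hr1
    exact mul_ne_zero h0 hr0 (by rw [hr1]; ring)
  have hA : A ≠ 0 := by
    intro hA
    rw [hA] at hj1 hj2
    exact mul_ne_zero h0 hj1 (by rw [hj2]; ring)
  have hg : h ^ 2 + 4 * h - 1 ≠ 0 := by
    intro hc
    apply h1
    apply mul_right_cancel₀ hr0
    have : (h ^ 2 + 10 * h + 5) ^ 3 - 1728 * h =
        (h ^ 2 + 22 * h + 125) * (h ^ 2 + 4 * h - 1) ^ 2 := by ring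
    rw [hc] at this
    linear_combination hr1 + this
  obtain ⟨m, hm⟩ : ∃ m : K, m * (h ^ 2 + 10 * h + 5) = -48 * A :=
    ⟨-48 * A / (h ^ 2 + 10 * h + 5), div_mul_cancel₀ _ hqn⟩
  obtain ⟨s, hs⟩ : ∃ s : K, s * (A * (h ^ 2 + 4 * h - 1)) = -3 * B * (h ^ 2 + 10 * h + 5) :=
    ⟨-3 * B * (h ^ 2 + 10 * h + 5) / (A * (h ^ 2 + 4 * h - 1)),
      div_mul_cancel₀ _ (mul_ne_zero hA hg)⟩
  have hm0 : m ≠ 0 := by
    intro hc
    rw [hc, zero_mul] at hm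
    have h48 : (-48 : K) ≠ 0 := by norm_num
    exact mul_ne_zero h48 hA hm.symm
  -- the square of `s`
  have hkey : 27 * B ^ 2 * (h ^ 2 + 10 * h + 5) ^ 3 =
      -4 * A ^ 3 * ((h ^ 2 + 10 * h + 5) ^ 3 - 1728 * h) := by
    have e1 : (4 * A ^ 3 + 27 * B ^ 2) * (j * h) = 6912 * A ^ 3 * h := by
      linear_combination h * hj2
    rw [hr1] at e1
    linear_combination e1
  have hx : 36 * s ^ 2 = ((h + 11) ^ 2 + 4) * m := by
    have hne : A ^ 2 * (h ^ 2 + 4 * h - 1) ^ 2 * (h ^ 2 + 10 * h + 5) ≠ 0 :=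
      mul_ne_zero (mul_ne_zero (pow_ne_zero _ hA) (pow_ne_zero _ hg)) hqn
    apply mul_left_cancel₀ hne
    have e1 : (s * (A * (h ^ 2 + 4 * h - 1))) ^ 2 = 9 * B ^ 2 * (h ^ 2 + 10 * h + 5) ^ 2 := by
      rw [hs]; ring
    linear_combination 36 * (h ^ 2 + 10 * h + 5) * e1 + 12 * hkey -
      A ^ 2 * (h ^ 2 + 4 * h - 1) ^ 2 * ((h + 11) ^ 2 + 4) * hm
  obtain ⟨p, hp⟩ : ∃ p : K, s ^ 2 - 4 * p = m := ⟨(s ^ 2 - m) / 4, by ring⟩
  have hH : 4 * A - 7 * s ^ 2 + 40 * p = h * m := by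
    have h12 : (12 : K) ≠ 0 := by norm_num
    apply mul_left_cancel₀ h12
    linear_combination hx + hm - 120 * hp
  have hR2 : A ^ 2 + 2 * A * s ^ 2 - 2 * A * p - s ^ 4 + 5 * s ^ 2 * p + 5 * p ^ 2 = 0 := by
    have h16 : (16 : K) ≠ 0 := by norm_num
    apply mul_left_cancel₀ h16
    have e1 : 16 * (A ^ 2 + 2 * A * s ^ 2 - 2 * A * p - s ^ 4 + 5 * s ^ 2 * p + 5 * p ^ 2) =
        (4 * A - 7 * s ^ 2 + 40 * p) ^ 2 + 10 * (4 * A - 7 * s ^ 2 + 40 * p) * (s ^ 2 - 4 * p) +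
        5 * (s ^ 2 - 4 * p) ^ 2 + 48 * A * (s ^ 2 - 4 * p) := by ring
    rw [e1, hH, hp]
    linear_combination m * hm
  have hW : 36 * (s ^ 2 - 6 * p - 2 * A) = (h ^ 2 + 4 * h - 1) * m := by
    have e1 : 36 * (s ^ 2 - 4 * p) * (s ^ 2 - 6 * p - 2 * A) =
        (4 * A - 7 * s ^ 2 + 40 * p) ^ 2 + 4 * (4 * A - 7 * s ^ 2 + 40 * p) * (s ^ 2 - 4 * p) -
        (s ^ 2 - 4 * p) ^ 2 -
        16 * (A ^ 2 + 2 * A * s ^ 2 - 2 * A * p - s ^ 4 + 5 * s ^ 2 * p + 5 * p ^ 2) := by ring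
    rw [hR2, hH, hp] at e1
    apply mul_left_cancel₀ hm0
    linear_combination e1
  refine ⟨s, p, ⟨?_, hR2, by rw [hp]; exact hm0⟩, ?_⟩
  · have hne : A * (h ^ 2 + 10 * h + 5) ≠ 0 := mul_ne_zero hA hqn
    apply mul_left_cancel₀ hne
    have h36 : (36 : K) ≠ 0 := by norm_num
    apply mul_left_cancel₀ h36
    linear_combination -s * A * (h ^ 2 + 10 * h + 5) * hW -
      s * A * (h ^ 2 + 4 * h - 1) * hm + 48 * A * hs
  · rw [hfun, hH, hp, mul_div_assoc, div_self hm0, mul_one]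

end Pool.Agent.S5N
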