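import Pool.Agent.S5M.Covers

/-! # Moduli interpretation over fields containing the square root of 5: definitions (helper34) -/

namespace Pool.Agent.S5N

/-- `j` is the `j`-invariant of the curve `y ^ 2 = x ^ 3 + A * x + B` -/
def JRel {F : Type*} [Field F] (A B j : F) : Prop :=
  4 * A ^ 3 + 27 * B ^ 2 ≠ 0 ∧ j * (4 * A ^ 3 + 27 * B ^ 2) = 6912 * A ^ 3

/-- `X ^ 2 - s * X + p` is the kernel polynomial of a subgroup of order 5 of
`y ^ 2 = x ^ 3 + A * x + B` -/
def Rel5 {K : Type*} [Field K] (A B s p : K) : Prop :=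
  4 * B = s ^ 3 - 6 * p * s - 2 * A * s ∧
    A ^ 2 + 2 * A * s ^ 2 - 2 * A * p - s ^ 4 + 5 * s ^ 2 * p + 5 * p ^ 2 = 0 ∧ s ^ 2 - 4 * p ≠ 0

/-- the point of `X0(5)` -/
noncomputable def hfun {K : Type*} [Field K] (A s p : K) : K :=
  (4 * A - 7 * s ^ 2 + 40 * p) / (s ^ 2 - 4 * p)

/-- `h` is a point of `X0(5)` over `j` -/
def Root5 {K : Type*} [Field K] (j h : K) : Prop :=
  h ≠ 0 ∧ j * h = (h ^ 2 + 10 * h + 5) ^ 3

/-- the Vandermonde product of six elements -/
def vdm {K : Type*} [Field K] (a b c d e f : K) : K :=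
  (a - b) * (a - c) * (a - d) * (a - e) * (a - f) * (b - c) * (b - d) * (b - e) * (b - f) *
    (c - d) * (c - e) * (c - f) * (d - e) * (d - f) * (e - f)

end Pool.Agent.S5N
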