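import Mathlib

/-! # Complex conjugation on an algebraic closure of a real field containing √5 (helper34)

PROOF of `exists_conj5`: copy of `Pool/Agent/H42M/ModConj.lean` (`exists_conj`), keeping
`φ = algebraMap K ℂ`; for `z ^ 5 = 1` the complex number `w = φ z` has absolute value 1, so
`w * conj w = 1`, i.e. `z * c z = 1`.
PROOF of `conj_or`: let `ζ` be a primitive fifth root of unity in `K`
(`IsAlgClosed`: `HasEnoughRootsOfUnity`, or a root of `X^4 + X^3 + X^2 + X + 1`). Every `z` with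
`z ^ 5 = 1` is a power of `ζ`. `r = 1 + 2 (ζ + ζ^4)` satisfies `r ^ 2 = 5`, so `r = ± s` is fixed by
`σ`. `σ ζ = ζ ^ k` with `k = 1, 2, 3, 4`, and `ζ ^ k + ζ ^ (4 k) = ζ + ζ ^ 4` forces `k = 1` or
`k = 4`. If `k = 1` the first alternative holds. If `k = 4` then `σ z = z ^ 4` and
`c (σ z) = c (z ^ 4) = (c z) ^ 4 = z`: use `z * c z = 1`. -/

namespace Pool.Agent.S5N

theorem exists_conj5 {F K : Type*} [Field F] [Field K] [Algebra F K] [Normal F K]
    (φ₀ : F →+* ℝ) : ∃ (c : K ≃ₐ[F] K) (φ : K →+* ℂ), (∀ z, φ (c z) = (starRingEnd ℂ) (φ z)) ∧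
      (∀ z, c (c z) = z) ∧ (∀ z : K, z ^ 2 = -3 → c z = -z) ∧
      ∀ z : K, z ^ 5 = 1 → z * c z = 1 := by
  let iF : Algebra F ℂ := (Complex.ofRealHom.comp φ₀).toAlgebra
  have halg : Algebra.IsAlgebraic F K := Normal.toIsAlgebraic
  let ι : K →ₐ[F] ℂ := IsAlgClosed.lift
  let iK : Algebra K ℂ := ι.toRingHom.toAlgebra
  have htow : IsScalarTower F K ℂ := IsScalarTower.of_algebraMap_eq fun x => (ι.commutes x).symm
  let χ : ℂ ≃ₐ[F] ℂ := AlgEquiv.ofRingEquiv (f := (starRingAut : ℂ ≃+* ℂ)) (by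
    intro x
    change (starRingEnd ℂ) ((φ₀ x : ℝ) : ℂ) = ((φ₀ x : ℝ) : ℂ)
    exact Complex.conj_ofReal _)
  have hχ : ∀ z, χ z = (starRingEnd ℂ) z := fun z => rfl
  let c : K ≃ₐ[F] K := χ.restrictNormal K
  have hc : ∀ z : K, algebraMap K ℂ (c z) = (starRingEnd ℂ) (algebraMap K ℂ z) := fun z =>
    χ.restrictNormal_commutes K z
  refine ⟨c, algebraMap K ℂ, hc, fun z => ?_, fun z hz => ?_, fun z hz => ?_⟩
  · apply (algebraMap K ℂ).injective
    rw [hc, hc, Complex.conj_conj]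
  · apply (algebraMap K ℂ).injective
    rw [hc, map_neg]
    set w := algebraMap K ℂ z with hw
    have hw2 : w ^ 2 = -3 := by
      rw [hw, ← map_pow, hz, map_neg, map_ofNat]
    have hre : w.re = 0 := by
      have h1 := congrArg Complex.re hw2
      have h2 := congrArg Complex.im hw2
      simp only [pow_two, Complex.mul_re, Complex.mul_im, Complex.neg_re, Complex.neg_im,
        Complex.re_ofNat, Complex.im_ofNat] at h1 h2
      have h3 : w.re * w.im = 0 := by linarith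
      rcases mul_eq_zero.mp h3 with h3 | h3
      · exact h3
      · rw [h3] at h1
        nlinarith [mul_self_nonneg w.re]
    apply Complex.ext
    · simp [hre]
    · simp
  · apply (algebraMap K ℂ).injective
    rw [map_mul, hc, map_one]
    set w := algebraMap K ℂ z with hw
    have hw5 : w ^ 5 = 1 := by
      rw [hw, ← map_pow, hz, map_one]
    have hn : ‖w‖ = 1 := Complex.norm_eq_one_of_pow_eq_one hw5 (by norm_num)
    rw [Complex.mul_conj, Complex.normSq_eq_norm_sq, hn]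
    norm_num

theorem conj_or {F K : Type*} [Field F] [CharZero F] [Field K] [Algebra F K] [IsAlgClosed K]
    {s : F} (hs : s ^ 2 = 5) (c : K ≃ₐ[F] K) (hc : ∀ z : K, z ^ 5 = 1 → z * c z = 1)
    (σ : K ≃ₐ[F] K) :
    (∀ z : K, z ^ 5 = 1 → σ z = z) ∨ (∀ z : K, z ^ 5 = 1 → (c * σ) z = z) := by
  have hK : CharZero K := charZero_of_injective_algebraMap (algebraMap F K).injective
  obtain ⟨ζ, hζr⟩ := IsAlgClosed.exists_root (Polynomial.cyclotomic 5 K) (by
    rw [Polynomial.degree_cyclotomic]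
    decide)
  have hne : NeZero ((5 : ℕ) : K) := ⟨by norm_num⟩
  have hζ : IsPrimitiveRoot ζ 5 := (Polynomial.isRoot_cyclotomic_iff).mp hζr
  have h5 : ζ ^ 5 = 1 := hζ.pow_eq_one
  have h1 : ζ ≠ 1 := hζ.ne_one (by norm_num)
  have hsum : 1 + ζ + ζ ^ 2 + ζ ^ 3 + ζ ^ 4 = 0 := by
    apply (mul_eq_zero.mp _).resolve_left (sub_ne_zero.mpr h1)
    linear_combination h5
  have hr2 : (1 + 2 * (ζ + ζ ^ 4)) ^ 2 = 5 := by
    linear_combination 4 * hsum + (8 + 4 * ζ ^ 3) * h5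
  have hrσ : σ (1 + 2 * (ζ + ζ ^ 4)) = 1 + 2 * (ζ + ζ ^ 4) := by
    have h2 : (1 + 2 * (ζ + ζ ^ 4) - algebraMap F K s) * (1 + 2 * (ζ + ζ ^ 4) + algebraMap F K s) =
        0 := by
      have h3 : algebraMap F K s ^ 2 = 5 := by rw [← map_pow, hs, map_ofNat]
      linear_combination hr2 - h3
    rcases mul_eq_zero.mp h2 with h3 | h3
    · rw [sub_eq_zero.mp h3, AlgEquiv.commutes]
    · rw [eq_neg_of_add_eq_zero_left h3, map_neg, AlgEquiv.commutes]
  have hr0 : 1 + 2 * (ζ + ζ ^ 4) ≠ 0 := by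
    intro h0
    rw [h0] at hr2
    norm_num at hr2
  have hσ : σ ζ + (σ ζ) ^ 4 = ζ + ζ ^ 4 := by
    rw [map_add, map_one, map_mul, map_ofNat, map_add, map_pow] at hrσ
    have h2 : (2 : K) ≠ 0 := two_ne_zero
    apply mul_left_cancel₀ h2
    linear_combination hrσ
  have hσ5 : (σ ζ) ^ 5 = 1 := by rw [← map_pow, h5, map_one]
  obtain ⟨k, hk, hkζ⟩ := hζ.eq_pow_of_pow_eq_one hσ5
  have hcases : σ ζ = ζ ∨ σ ζ = ζ ^ 4 := by
    interval_cases k
    · exfalso
      rw [pow_zero] at hkζ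
      exact h1 (σ.injective (by rw [← hkζ, map_one]))
    · left
      rw [← hkζ, pow_one]
    · exfalso
      apply hr0
      rw [← hkζ] at hσ
      linear_combination hsum - hσ + ζ ^ 3 * h5
    · exfalso
      apply hr0
      rw [← hkζ] at hσ
      linear_combination hsum - hσ + (ζ ^ 7 + ζ ^ 2) * h5
    · right
      exact hkζ.symm
  rcases hcases with h | h
  · left
    intro z hz
    obtain ⟨i, -, rfl⟩ := hζ.eq_pow_of_pow_eq_one hz
    rw [map_pow, h]
  · right
    intro z hz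
    obtain ⟨i, -, rfl⟩ := hζ.eq_pow_of_pow_eq_one hz
    rw [AlgEquiv.mul_apply]
    have hz' : (σ (ζ ^ i)) ^ 5 = 1 := by rw [← map_pow, hz, map_one]
    have h2 := hc _ hz'
    have h3 : σ (ζ ^ i) * ζ ^ i = 1 := by
      rw [map_pow, h, ← mul_pow]
      have : ζ ^ 4 * ζ = 1 := by rw [← h5]; ring
      rw [this, one_pow]
    have h4 : σ (ζ ^ i) ≠ 0 := left_ne_zero_of_mul_eq_one h3
    exact mul_left_cancel₀ h4 (h2.trans h3.symm)

end Pool.Agent.S5N
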