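import Pool.Agent.S5N.Basic

/-! # Moduli interpretation of `X(s5)` (helper34)

Put `B = e^2 + 15 e + 45`, `D = e + 9`.
PROOF of `pair_rel`. With `q = h^2 + 10 h + 5`, `q' = h'^2 + 10 h' + 5`: `j h = q^3`, `j h' = q'^3`,
so `q^3 h' - q'^3 h = 0`, `q^3 - q'^3 = j (h - h')`. Divide by `h - h'`: with `e = h + h'`,
`f = h h'` this gives `j = ...` (a polynomial in `e`, `f`, first claim) and
`f (e^4 - 3 e^2 f + f^2 + 30 (e^3 - 2 e f) + 315 (e^2 - f) + 1300 e + 1575) = 125`, equivalently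
(second claim) `f (B + f)^2 = 5 (5 + D f)^2`.
PROOF of `pair_param`. `5 + D f ≠ 0`: otherwise `f = -B` (as `f ≠ 0`) and
`(e + 4) (e + 10)^2 = D B - 5 = 0`; `e = -4`: `f = -1`, `j = 1728` (from the formula for `j`);
`e = -10`: `f = 5`, `j = 0`. Put `c = 5 (B + f)/(5 + D f)`: `c ≠ 0`, `c^2 f = 125`, and
`c^3 - (a^2 + 5 a - 5) c^2 + 25 (a + 4) c - 125 = 0` with `a = e + 5` (as
`c (c^2 + 25 (a + 4)) = (a^2 + 5 a - 5) c^2 + 125`). `c ≠ -5`: otherwise `-25 (a + 5)^2 = 0`,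
`e = -10`, `f = 5`, `j = 0`. Put `t = (a c - 25)/(c + 5)`: `t^2 + 5 t + 5 = c` by the cubic,
`t (t^2 - 15) = e c`. Then the formula for `j` gives the last claim (insert `f = 125/c^2`,
`e = t (t^2 - 15)/c`, `c = t^2 + 5 t + 5`).
PROOF of `pair_real`. From `pair_param` (over the reals): `(h - h')^2 c^2 = e^2 c^2 - 4 f c^2 =
t^2 (t^2 - 15)^2 - 500 = (t^2 - 5)^2 (t^2 - 20) > 0`, so `t^2 > 20`, and `c^2 > 125/18`:
if `t > 0` then `c > 25`; if `t < -2 √5` then `c = (t + 5/2)^2 - 5/4 > 2.639`. So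
`f = 125/c^2 < 18`. -/

namespace Pool.Agent.S5N

open Pool.Agent.S5M

variable {K : Type*} [Field K] [CharZero K]

theorem pair_rel {j h h' e f : K} (hr : Root5 j h) (hr' : Root5 j h') (hne : h ≠ h')
    (he : e = h + h') (hf : f = h * h') :
    f ≠ 0 ∧ f * (e ^ 2 + 15 * e + 45 + f) ^ 2 = 5 * (5 + (e + 9) * f) ^ 2 ∧
    j = (e ^ 5 - 4 * e ^ 3 * f + 3 * e * f ^ 2) + 30 * (e ^ 4 - 3 * e ^ 2 * f + f ^ 2) +
      315 * (e ^ 3 - 2 * e * f) + 1300 * (e ^ 2 - f) + 1575 * e + 750 := by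
  obtain ⟨h0, hq⟩ := hr
  obtain ⟨h0', hq'⟩ := hr'
  subst he
  subst hf
  have hd : h - h' ≠ 0 := sub_ne_zero.2 hne
  refine ⟨mul_ne_zero h0 h0', ?_, ?_⟩
  · have key : (h - h') * (h * h' * ((h + h') ^ 2 + 15 * (h + h') + 45 + h * h') ^ 2 -
        5 * (5 + (h + h' + 9) * (h * h')) ^ 2) = 0 := by
      linear_combination (-h') * hq + h * hq'
    exact sub_eq_zero.1 ((mul_eq_zero.1 key).resolve_left hd)
  · have key : (h - h') * (j - (((h + h') ^ 5 - 4 * (h + h') ^ 3 * (h * h') +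
        3 * (h + h') * (h * h') ^ 2) + 30 * ((h + h') ^ 4 - 3 * (h + h') ^ 2 * (h * h') +
        (h * h') ^ 2) + 315 * ((h + h') ^ 3 - 2 * (h + h') * (h * h')) +
        1300 * ((h + h') ^ 2 - h * h') + 1575 * (h + h') + 750)) = 0 := by
      linear_combination hq - hq'
    exact sub_eq_zero.1 ((mul_eq_zero.1 key).resolve_left hd)

theorem pair_param {j e f : K} (h0 : j ≠ 0) (h1 : j ≠ 1728) (hf : f ≠ 0)
    (h : f * (e ^ 2 + 15 * e + 45 + f) ^ 2 = 5 * (5 + (e + 9) * f) ^ 2)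
    (hj : j = (e ^ 5 - 4 * e ^ 3 * f + 3 * e * f ^ 2) + 30 * (e ^ 4 - 3 * e ^ 2 * f + f ^ 2) +
      315 * (e ^ 3 - 2 * e * f) + 1300 * (e ^ 2 - f) + 1575 * e + 750) :
    ∃ t c : K, c = t ^ 2 + 5 * t + 5 ∧ c ≠ 0 ∧ c ^ 2 * f = 125 ∧ e * c = t * (t ^ 2 - 15) ∧
      j * c ^ 5 = ((t + 5) * (t ^ 2 - 5) * (t ^ 2 + 5 * t + 10)) ^ 3 := by
  have h5 : (5 : K) ≠ 0 := by norm_num
  have hD : 5 + (e + 9) * f ≠ 0 := by
    intro hz
    have hB : e ^ 2 + 15 * e + 45 + f = 0 := by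
      rw [hz] at h
      have h' : f * (e ^ 2 + 15 * e + 45 + f) ^ 2 = 0 := by rw [h]; ring
      exact pow_eq_zero_iff (two_ne_zero) |>.1 ((mul_eq_zero.1 h').resolve_left hf)
    have hfB : f = -(e ^ 2 + 15 * e + 45) := by linear_combination hB
    have hE : (e + 4) * (e + 10) ^ 2 = 0 := by
      rw [hfB] at hz
      linear_combination (-1 : K) * hz
    rcases mul_eq_zero.1 hE with h4 | h10
    · have he : e = -4 := by linear_combination h4
      apply h1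
      rw [hj, hfB, he]
      norm_num
    · have h10' : e + 10 = 0 := pow_eq_zero_iff (two_ne_zero) |>.1 h10
      have he : e = -10 := by linear_combination h10'
      apply h0
      rw [hj, hfB, he]
      norm_num
  have hB0 : e ^ 2 + 15 * e + 45 + f ≠ 0 := by
    intro hz
    rw [hz] at h
    have h' : (5 + (e + 9) * f) ^ 2 = 0 := by
      have : 5 * (5 + (e + 9) * f) ^ 2 = 0 := by rw [← h]; ring
      exact (mul_eq_zero.1 this).resolve_left h5
    exact hD (pow_eq_zero_iff (two_ne_zero) |>.1 h')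
  obtain ⟨c, hc⟩ : ∃ c : K, c * (5 + (e + 9) * f) = 5 * (e ^ 2 + 15 * e + 45 + f) :=
    ⟨5 * (e ^ 2 + 15 * e + 45 + f) / (5 + (e + 9) * f), div_mul_cancel₀ _ hD⟩
  have hc0 : c ≠ 0 := by
    intro hz
    rw [hz, zero_mul] at hc
    exact mul_ne_zero h5 hB0 hc.symm
  have hcf : c ^ 2 * f = 125 := by
    have hk : (c ^ 2 * f - 125) * (5 + (e + 9) * f) ^ 2 = 0 := by
      linear_combination f * (c * (5 + (e + 9) * f) + 5 * (e ^ 2 + 15 * e + 45 + f)) * hc + 25 * h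
    exact sub_eq_zero.1 ((mul_eq_zero.1 hk).resolve_right (pow_ne_zero 2 hD))
  have hcub : c ^ 3 - (e ^ 2 + 15 * e + 45) * c ^ 2 + 25 * (e + 9) * c - 125 = 0 := by
    have hk : 5 * (c ^ 3 - (e ^ 2 + 15 * e + 45) * c ^ 2 + 25 * (e + 9) * c - 125) = 0 := by
      linear_combination c ^ 2 * hc - ((e + 9) * c - 5) * hcf
    exact (mul_eq_zero.1 hk).resolve_left h5
  have hc5 : c + 5 ≠ 0 := by
    intro hz
    have hcm : c = -5 := by linear_combination hz
    rw [hcm] at hcub hcf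
    have he' : 25 * (e + 10) ^ 2 = 0 := by linear_combination (-1 : K) * hcub
    have he'' : (e + 10) ^ 2 = 0 := (mul_eq_zero.1 he').resolve_left (by norm_num)
    have h10' : e + 10 = 0 := pow_eq_zero_iff (two_ne_zero) |>.1 he''
    have he : e = -10 := by linear_combination h10'
    have hf5 : f = 5 := by
      have : 25 * (f - 5) = 0 := by linear_combination hcf
      exact sub_eq_zero.1 ((mul_eq_zero.1 this).resolve_left (by norm_num))
    apply h0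
    rw [hj, hf5, he]
    norm_num
  obtain ⟨t, ht⟩ : ∃ t : K, t * (c + 5) = (e + 5) * c - 25 :=
    ⟨((e + 5) * c - 25) / (c + 5), div_mul_cancel₀ _ hc5⟩
  have htc : c = t ^ 2 + 5 * t + 5 := by
    have hk : (c - (t ^ 2 + 5 * t + 5)) * (c + 5) ^ 2 = 0 := by
      linear_combination hcub - (t * (c + 5) + ((e + 5) * c - 25) + 5 * (c + 5)) * ht
    exact sub_eq_zero.1 ((mul_eq_zero.1 hk).resolve_right (pow_ne_zero 2 hc5))
  have hec : e * c = t * (t ^ 2 - 15) := by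
    have h1' : e * c = t * (c + 5) + 25 - 5 * c := by linear_combination (-1 : K) * ht
    rw [h1', htc]
    ring
  refine ⟨t, c, htc, hc0, hcf, hec, ?_⟩
  have hexp : j * c ^ 5 = ((e * c) ^ 5 - 4 * (e * c) ^ 3 * (c ^ 2 * f) +
      3 * (e * c) * (c ^ 2 * f) ^ 2) + 30 * ((e * c) ^ 4 - 3 * (e * c) ^ 2 * (c ^ 2 * f) +
      (c ^ 2 * f) ^ 2) * c + 315 * ((e * c) ^ 3 - 2 * (e * c) * (c ^ 2 * f)) * c ^ 2 +
      1300 * ((e * c) ^ 2 - c ^ 2 * f) * c ^ 3 + 1575 * (e * c) * c ^ 4 + 750 * c ^ 5 := by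
    rw [hj]
    ring
  rw [hexp, hec, hcf, htc]
  ring

theorem isS5_of_pair {F : Type*} [Field F] [CharZero F] [Algebra F K] {j e f : F} (h0 : j ≠ 0)
    (h1 : j ≠ 1728) {h h' : K} (hr : Root5 (algebraMap F K j) h)
    (hr' : Root5 (algebraMap F K j) h') (hne : h ≠ h') (he : algebraMap F K e = h + h')
    (hf : algebraMap F K f = h * h') : IsS5 j := by
  have hinj : Function.Injective (algebraMap F K) := (algebraMap F K).injective
  obtain ⟨hf0, hrel, hjr⟩ := pair_rel hr hr' hne he hf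
  have hf0' : f ≠ 0 := by
    intro hz
    apply hf0
    rw [hz, map_zero]
  have hrel' : f * (e ^ 2 + 15 * e + 45 + f) ^ 2 = 5 * (5 + (e + 9) * f) ^ 2 := by
    apply hinj
    simpa only [map_mul, map_add, map_pow, map_ofNat] using hrel
  have hjr' : j = (e ^ 5 - 4 * e ^ 3 * f + 3 * e * f ^ 2) + 30 * (e ^ 4 - 3 * e ^ 2 * f + f ^ 2) +
      315 * (e ^ 3 - 2 * e * f) + 1300 * (e ^ 2 - f) + 1575 * e + 750 := by
    apply hinj
    simpa only [map_mul, map_add, map_sub, map_pow, map_ofNat] using hjr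
  obtain ⟨t, c, hc, hc0, -, -, hj⟩ := pair_param h0 h1 hf0' hrel' hjr'
  subst hc
  exact ⟨t, hc0, hj⟩

theorem pair_real {j h h' : ℝ} (h0 : j ≠ 0) (h1 : j ≠ 1728) (hr : Root5 j h) (hr' : Root5 j h')
    (hne : h ≠ h') : h * h' < 18 := by
  obtain ⟨hf0, hrel, hjr⟩ := pair_rel hr hr' hne rfl rfl
  obtain ⟨t, c, hc, hc0, hcf, hec, -⟩ := pair_param h0 h1 hf0 hrel hjr
  have hpos : 0 < (h - h') ^ 2 * c ^ 2 :=
    mul_pos (sq_pos_iff.2 (sub_ne_zero.2 hne)) (sq_pos_iff.2 hc0)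
  have heq : (h - h') ^ 2 * c ^ 2 = (t ^ 2 - 5) ^ 2 * (t ^ 2 - 20) := by
    have h1' : (h - h') ^ 2 * c ^ 2 = ((h + h') * c) ^ 2 - 4 * (c ^ 2 * (h * h')) := by ring
    rw [h1', hec, hcf]
    ring
  have hT : 20 < t ^ 2 := by
    by_contra hcon
    push Not at hcon
    have : (t ^ 2 - 5) ^ 2 * (t ^ 2 - 20) ≤ 0 :=
      mul_nonpos_of_nonneg_of_nonpos (sq_nonneg _) (by linarith)
    linarith
  have hc2 : 125 / 18 < c ^ 2 := by
    rcases le_or_gt 0 t with ht | ht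
    · have hc20 : 20 < c := by rw [hc]; nlinarith
      nlinarith
    · have ht' : t < -(4472 / 1000) := by
        by_contra hcon
        push Not at hcon
        nlinarith
      have hcl : 2638 / 1000 < c := by rw [hc]; nlinarith
      nlinarith
  by_contra hcon
  push Not at hcon
  nlinarith [sq_nonneg c]

end Pool.Agent.S5N
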