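import Pool.Agent.S5N.Basic

/-! # The six points of `X0(5)` over a given `j` (helper34)

PROOF of `six_prod`. The monic polynomials `(X^2 + 10 X + 5)^3 - j X` and
`(X - a) (X - b) (X - c) (X - d) (X - e) (X - f)` have degree 6, so their difference has degree at
most 5, and it vanishes at the six distinct elements.
PROOF of `six_vieta`. `(x^2 + 10 x + 5)^3 - j x = x^6 + 30 x^5 + 315 x^4 + 1300 x^3 + 1575 x^2 +
(750 - j) x + 125`; take `six_prod` for `x = 0, 1, -1, 2, -2, 3` and solve the linear system for the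
coefficients (or compare coefficients of polynomials).
PROOF of `six_disc`. `D = vdm a b c d e f`, `S(x) = (x^2 + 10 x + 5)^3 - j x`,
`q(x) = x^2 + 10 x + 5`. Differentiating `six_prod`: `S'(a) = (a - b) (a - c) ⋯ (a - f)`, and
`a S'(a) = 5 q(a)^2 (a^2 + 4 a - 1)` as `j a = q(a)^3` (`S'(x) = 6 (x + 5) q(x)^2 - j`); the same for
`b, …, f`. The product over the six: left `a b c d e f * (-D^2) = -125 D^2`; right
`5^6 * (∏ q)^2 * ∏ (a^2 + 4 a - 1)`. By `six_prod` at `x = -5 + 2 r`, `x = -5 - 2 r` (the roots of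
`q`; here `r^2 = 5`, in `K`): `∏ q = j^2 * 5`. At `x = -2 ± r` (roots of `x^2 + 4 x - 1`), where
`S(x) = (1728 - j) x`: `∏ (a^2 + 4 a - 1) = -(1728 - j)^2`. So
`D^2 = 5^5 j^4 (1728 - j)^2`. -/

namespace Pool.Agent.S5N

variable {K : Type*} [Field K] [CharZero K]

open Polynomial in
private lemma six_poly {j a b c d e f : K} (ha : Root5 j a) (hb : Root5 j b) (hc : Root5 j c)
    (hd : Root5 j d) (he : Root5 j e) (hf : Root5 j f) (h : vdm a b c d e f ≠ 0) :
    ((X ^ 2 + 10 * X + 5) ^ 3 - C j * X : K[X]) =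
      (X - C a) * (X - C b) * (X - C c) * (X - C d) * (X - C e) * (X - C f) := by
  simp only [vdm, mul_ne_zero_iff, sub_ne_zero] at h
  obtain ⟨⟨⟨⟨⟨⟨⟨⟨⟨⟨⟨⟨⟨⟨hab, hac⟩, had⟩, hae⟩, haf⟩, hbc⟩, hbd⟩, hbe⟩, hbf⟩, hcd⟩, hce⟩, hcf⟩, hde⟩, hdf⟩, hef⟩ := h
  classical
  have hcard : ({a, b, c, d, e, f} : Finset K).card = 6 := by
    rw [Finset.card_insert_of_notMem, Finset.card_insert_of_notMem, Finset.card_insert_of_notMem,
      Finset.card_insert_of_notMem, Finset.card_insert_of_notMem, Finset.card_singleton] <;>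
    simp [*]
  have hP : ((X ^ 2 + 10 * X + 5) ^ 3 - C j * X : K[X]).Monic := by
    have : ((X ^ 2 + 10 * X + 5) ^ 3 - C j * X : K[X]) =
      X ^ 6 + (C 30 * X ^ 5 + C 315 * X ^ 4 + C 1300 * X ^ 3 + C 1575 * X ^ 2 + C (750 - j) * X + C 125) := by
      simp only [map_sub, map_ofNat]
      ring
    rw [this]
    apply monic_X_pow_add
    compute_degree!
  have hPd : ((X ^ 2 + 10 * X + 5) ^ 3 - C j * X : K[X]).natDegree = 6 := by
    have : ((X ^ 2 + 10 * X + 5) ^ 3 - C j * X : K[X]) =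
      X ^ 6 + (C 30 * X ^ 5 + C 315 * X ^ 4 + C 1300 * X ^ 3 + C 1575 * X ^ 2 + C (750 - j) * X + C 125) := by
      simp only [map_sub, map_ofNat]
      ring
    rw [this]
    compute_degree!
  have hQ : ((X - C a) * (X - C b) * (X - C c) * (X - C d) * (X - C e) * (X - C f)).Monic :=
    (((((monic_X_sub_C a).mul (monic_X_sub_C b)).mul (monic_X_sub_C c)).mul
      (monic_X_sub_C d)).mul (monic_X_sub_C e)).mul (monic_X_sub_C f)
  have hQd : ((X - C a) * (X - C b) * (X - C c) * (X - C d) * (X - C e) * (X - C f)).degree = 6 := by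
    simp only [degree_mul, degree_X_sub_C]
    norm_num
  have hPd' : ((X ^ 2 + 10 * X + 5) ^ 3 - C j * X : K[X]).degree = 6 := by
    rw [degree_eq_natDegree hP.ne_zero, hPd]
    rfl
  apply eq_of_degree_sub_lt_of_eval_finset_eq ({a, b, c, d, e, f} : Finset K)
  · rw [hcard, Nat.cast_ofNat, ← hPd']
    exact degree_sub_lt_left (hPd'.trans hQd.symm) hP.ne_zero
      (hP.leadingCoeff.trans hQ.leadingCoeff.symm)
  · intro y hy
    have key : ∀ z : K, Root5 j z → eval z ((X ^ 2 + 10 * X + 5) ^ 3 - C j * X : K[X]) = 0 := by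
      intro z hz
      simp only [eval_sub, eval_pow, eval_add, eval_mul, eval_X, eval_C, eval_ofNat]
      rw [hz.2, sub_self]
    simp only [Finset.mem_insert, Finset.mem_singleton] at hy
    rcases hy with rfl | rfl | rfl | rfl | rfl | rfl
    · rw [key _ ha]; simp
    · rw [key _ hb]; simp
    · rw [key _ hc]; simp
    · rw [key _ hd]; simp
    · rw [key _ he]; simp
    · rw [key _ hf]; simp

theorem six_prod {j a b c d e f : K} (ha : Root5 j a) (hb : Root5 j b) (hc : Root5 j c)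
    (hd : Root5 j d) (he : Root5 j e) (hf : Root5 j f) (h : vdm a b c d e f ≠ 0) (x : K) :
    (x ^ 2 + 10 * x + 5) ^ 3 - j * x =
      (x - a) * (x - b) * (x - c) * (x - d) * (x - e) * (x - f) := by
  have := congrArg (Polynomial.eval x) (six_poly ha hb hc hd he hf h)
  simpa using this

/-- relations between the elementary symmetric functions of `a b c` and of `d e f` -/
theorem six_vieta {j a b c d e f : K} (ha : Root5 j a) (hb : Root5 j b) (hc : Root5 j c)
    (hd : Root5 j d) (he : Root5 j e) (hf : Root5 j f) (h : vdm a b c d e f ≠ 0)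
    {α β γ α' β' γ' : K} (h1 : α = a + b + c) (h2 : β = a * b + a * c + b * c)
    (h3 : γ = a * b * c) (h4 : α' = d + e + f) (h5 : β' = d * e + d * f + e * f)
    (h6 : γ' = d * e * f) :
    α + α' = -30 ∧ β + β' + α * α' = 315 ∧ γ + γ' + α * β' + α' * β = -1300 ∧
      α * γ' + α' * γ + β * β' = 1575 ∧ β * γ' + β' * γ = j - 750 ∧ γ * γ' = 125 := by
  have key : ∀ x : K, (x ^ 2 + 10 * x + 5) ^ 3 - j * x =
      (x ^ 3 - α * x ^ 2 + β * x - γ) * (x ^ 3 - α' * x ^ 2 + β' * x - γ') := by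
    intro x
    rw [six_prod ha hb hc hd he hf h x, h1, h2, h3, h4, h5, h6]
    ring
  have k0 := key 0
  have k1 := key 1
  have k2 := key (-1)
  have k3 := key 2
  have k4 := key (-2)
  have k5 := key 3
  clear key
  refine ⟨?_, ?_, ?_, ?_, ?_, ?_⟩
  · linear_combination (-1/12 : K) * k0 + (1/12 : K) * k1 + (1/24 : K) * k2 + (-1/24 : K) * k3 +
      (-1/120 : K) * k4 + (1/120 : K) * k5
  · linear_combination (-1/4 : K) * k0 + (1/6 : K) * k1 + (1/6 : K) * k2 + (-1/24 : K) * k3 +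
      (-1/24 : K) * k4
  · linear_combination (5/12 : K) * k0 + (-7/12 : K) * k1 + (-1/24 : K) * k2 + (7/24 : K) * k3 +
      (-1/24 : K) * k4 + (-1/24 : K) * k5
  · linear_combination (5/4 : K) * k0 + (-2/3 : K) * k1 + (-2/3 : K) * k2 + (1/24 : K) * k3 +
      (1/24 : K) * k4
  · linear_combination (-1/3 : K) * k0 + (1 : K) * k1 + (-1/2 : K) * k2 + (-1/4 : K) * k3 +
      (1/20 : K) * k4 + (1/30 : K) * k5
  · linear_combination (-1 : K) * k0

open Polynomial in
private lemma six_der {j a b c d e f : K} (ha : Root5 j a) (hb : Root5 j b) (hc : Root5 j c)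
    (hd : Root5 j d) (he : Root5 j e) (hf : Root5 j f) (h : vdm a b c d e f ≠ 0) :
    a * ((a - b) * (a - c) * (a - d) * (a - e) * (a - f)) =
      5 * (a ^ 2 + 10 * a + 5) ^ 2 * (a ^ 2 + 4 * a - 1) ∧
    b * ((b - a) * (b - c) * (b - d) * (b - e) * (b - f)) =
      5 * (b ^ 2 + 10 * b + 5) ^ 2 * (b ^ 2 + 4 * b - 1) ∧
    c * ((c - a) * (c - b) * (c - d) * (c - e) * (c - f)) =
      5 * (c ^ 2 + 10 * c + 5) ^ 2 * (c ^ 2 + 4 * c - 1) ∧
    d * ((d - a) * (d - b) * (d - c) * (d - e) * (d - f)) =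
      5 * (d ^ 2 + 10 * d + 5) ^ 2 * (d ^ 2 + 4 * d - 1) ∧
    e * ((e - a) * (e - b) * (e - c) * (e - d) * (e - f)) =
      5 * (e ^ 2 + 10 * e + 5) ^ 2 * (e ^ 2 + 4 * e - 1) ∧
    f * ((f - a) * (f - b) * (f - c) * (f - d) * (f - e)) =
      5 * (f ^ 2 + 10 * f + 5) ^ 2 * (f ^ 2 + 4 * f - 1) := by
  have key : ∀ z : K, eval z (derivative ((X ^ 2 + 10 * X + 5) ^ 3 - C j * X : K[X])) =
      3 * (z ^ 2 + 10 * z + 5) ^ 2 * (2 * z + 10) - j := by
    intro z
    simp only [derivative_mul, derivative_sub, derivative_pow, derivative_add, derivative_X,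
      derivative_C, derivative_ofNat, eval_sub, eval_add, eval_mul, eval_pow, eval_X, eval_C,
      eval_ofNat, zero_mul, zero_add, add_zero, mul_one, Nat.cast_ofNat,
      Nat.reduceSub, pow_one]
  have hP := congrArg derivative (six_poly ha hb hc hd he hf h)
  refine ⟨?_, ?_, ?_, ?_, ?_, ?_⟩
  · have h1 := key a
    rw [hP] at h1
    simp only [derivative_mul, derivative_sub, derivative_X, derivative_C, eval_sub, eval_add,
      eval_mul, eval_X, eval_C, sub_self, mul_zero, zero_mul, zero_add, add_zero, sub_zero,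
      mul_one, one_mul] at h1
    linear_combination a * h1 - ha.2
  · have h1 := key b
    rw [hP] at h1
    simp only [derivative_mul, derivative_sub, derivative_X, derivative_C, eval_sub, eval_add,
      eval_mul, eval_X, eval_C, sub_self, mul_zero, zero_mul, zero_add, add_zero, sub_zero,
      mul_one, one_mul] at h1
    linear_combination b * h1 - hb.2
  · have h1 := key c
    rw [hP] at h1
    simp only [derivative_mul, derivative_sub, derivative_X, derivative_C, eval_sub, eval_add,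
      eval_mul, eval_X, eval_C, sub_self, mul_zero, zero_mul, zero_add, add_zero, sub_zero,
      mul_one, one_mul] at h1
    linear_combination c * h1 - hc.2
  · have h1 := key d
    rw [hP] at h1
    simp only [derivative_mul, derivative_sub, derivative_X, derivative_C, eval_sub, eval_add,
      eval_mul, eval_X, eval_C, sub_self, mul_zero, zero_mul, zero_add, add_zero, sub_zero,
      mul_one, one_mul] at h1
    linear_combination d * h1 - hd.2
  · have h1 := key e
    rw [hP] at h1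
    simp only [derivative_mul, derivative_sub, derivative_X, derivative_C, eval_sub, eval_add,
      eval_mul, eval_X, eval_C, sub_self, mul_zero, zero_mul, zero_add, add_zero, sub_zero,
      mul_one, one_mul] at h1
    linear_combination e * h1 - he.2
  · have h1 := key f
    rw [hP] at h1
    simp only [derivative_mul, derivative_sub, derivative_X, derivative_C, eval_sub, eval_add,
      eval_mul, eval_X, eval_C, sub_self, mul_zero, zero_mul, zero_add, add_zero, sub_zero,
      mul_one, one_mul] at h1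
    linear_combination f * h1 - hf.2

omit [CharZero K] in
private lemma six_sgn (x12 x13 x14 x15 x16 x23 x24 x25 x26 x34 x35 x36 x45 x46 x56 : K) :
    (x12 * x13 * x14 * x15 * x16) * (-x12 * x23 * x24 * x25 * x26) *
      (-x13 * -x23 * x34 * x35 * x36) * (-x14 * -x24 * -x34 * x45 * x46) *
      (-x15 * -x25 * -x35 * -x45 * x56) * (-x16 * -x26 * -x36 * -x46 * -x56) =
    -(x12 * x13 * x14 * x15 * x16 * x23 * x24 * x25 * x26 * x34 * x35 * x36 * x45 * x46 * x56) ^ 2 := by
  ring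

omit [CharZero K] in
private lemma six_sgn2 (a b c d e f : K) :
    ((a - b) * (a - c) * (a - d) * (a - e) * (a - f)) *
      ((b - a) * (b - c) * (b - d) * (b - e) * (b - f)) *
      ((c - a) * (c - b) * (c - d) * (c - e) * (c - f)) *
      ((d - a) * (d - b) * (d - c) * (d - e) * (d - f)) *
      ((e - a) * (e - b) * (e - c) * (e - d) * (e - f)) *
      ((f - a) * (f - b) * (f - c) * (f - d) * (f - e)) = -(vdm a b c d e f) ^ 2 := by
  have := six_sgn (a - b) (a - c) (a - d) (a - e) (a - f) (b - c) (b - d) (b - e) (b - f)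
    (c - d) (c - e) (c - f) (d - e) (d - f) (e - f)
  simp only [neg_sub] at this
  exact this

omit [CharZero K] in
private lemma six_pair (u1 u2 u3 u4 u5 u6 v1 v2 v3 v4 v5 v6 : K) :
    (u1 * u2 * u3 * u4 * u5 * u6) * (v1 * v2 * v3 * v4 * v5 * v6) =
      (u1 * v1) * (u2 * v2) * (u3 * v3) * (u4 * v4) * (u5 * v5) * (u6 * v6) := by
  ring

private lemma six_fin {a b c d e f Pa Pb Pc Pd Pe Pf qa qb qc qd qe qf wa wb wc wd we wf
    D j r : K} (hr : r ^ 2 = 5) (h125 : a * b * c * d * e * f = 125)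
    (da : a * Pa = 5 * qa ^ 2 * wa) (db : b * Pb = 5 * qb ^ 2 * wb)
    (dc : c * Pc = 5 * qc ^ 2 * wc) (dd : d * Pd = 5 * qd ^ 2 * wd)
    (de : e * Pe = 5 * qe ^ 2 * we) (df : f * Pf = 5 * qf ^ 2 * wf)
    (hsgn : Pa * Pb * Pc * Pd * Pe * Pf = -D ^ 2)
    (hq : qa * qb * qc * qd * qe * qf = 5 * j ^ 2)
    (hw : wa * wb * wc * wd * we * wf = -(1728 - j) ^ 2) :
    D ^ 2 = (25 * r * j ^ 2 * (j - 1728)) ^ 2 := by
  have hall : (a * Pa) * (b * Pb) * (c * Pc) * (d * Pd) * (e * Pe) * (f * Pf) =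
      (5 * qa ^ 2 * wa) * (5 * qb ^ 2 * wb) * (5 * qc ^ 2 * wc) * (5 * qd ^ 2 * wd) *
        (5 * qe ^ 2 * we) * (5 * qf ^ 2 * wf) := by
    rw [da, db, dc, dd, de, df]
  have hL : (a * Pa) * (b * Pb) * (c * Pc) * (d * Pd) * (e * Pe) * (f * Pf) =
      (a * b * c * d * e * f) * (Pa * Pb * Pc * Pd * Pe * Pf) := by ring
  have hR : (5 * qa ^ 2 * wa) * (5 * qb ^ 2 * wb) * (5 * qc ^ 2 * wc) * (5 * qd ^ 2 * wd) *
        (5 * qe ^ 2 * we) * (5 * qf ^ 2 * wf) =
      5 ^ 6 * (qa * qb * qc * qd * qe * qf) ^ 2 * (wa * wb * wc * wd * we * wf) := by ring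
  rw [hL, hR, h125, hsgn, hq, hw] at hall
  linear_combination (-1/125 : K) * hall - 625 * j ^ 4 * (j - 1728) ^ 2 * hr

theorem six_disc {j a b c d e f r : K} (hr : r ^ 2 = 5) (ha : Root5 j a) (hb : Root5 j b)
    (hc : Root5 j c) (hd : Root5 j d) (he : Root5 j e) (hf : Root5 j f)
    (h : vdm a b c d e f ≠ 0) :
    vdm a b c d e f = 25 * r * j ^ 2 * (j - 1728) ∨
      vdm a b c d e f = -(25 * r * j ^ 2 * (j - 1728)) := by
  have hS := six_prod ha hb hc hd he hf h
  obtain ⟨da, db, dc, dd, de, df⟩ := six_der ha hb hc hd he hf h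
  have h125 : a * b * c * d * e * f = 125 := by
    have := hS 0
    linear_combination -this
  -- product of `q`
  have hq : (a ^ 2 + 10 * a + 5) * (b ^ 2 + 10 * b + 5) * (c ^ 2 + 10 * c + 5) *
      (d ^ 2 + 10 * d + 5) * (e ^ 2 + 10 * e + 5) * (f ^ 2 + 10 * f + 5) = 5 * j ^ 2 := by
    have e1 := hS (-5 + 2 * r)
    have e2 := hS (-5 - 2 * r)
    have e1' : ((-5 + 2 * r) ^ 2 + 10 * (-5 + 2 * r) + 5) ^ 3 - j * (-5 + 2 * r) =
        - j * (-5 + 2 * r) := by
      have : (-5 + 2 * r) ^ 2 + 10 * (-5 + 2 * r) + 5 = 0 := by linear_combination 4 * hr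
      rw [this]; ring
    have e2' : ((-5 - 2 * r) ^ 2 + 10 * (-5 - 2 * r) + 5) ^ 3 - j * (-5 - 2 * r) =
        - j * (-5 - 2 * r) := by
      have : (-5 - 2 * r) ^ 2 + 10 * (-5 - 2 * r) + 5 = 0 := by linear_combination 4 * hr
      rw [this]; ring
    have hz : ∀ z : K, (-5 + 2 * r - z) * (-5 - 2 * r - z) = z ^ 2 + 10 * z + 5 := by
      intro z
      linear_combination (-4) * hr
    have e3 := six_pair (-5 + 2 * r - a) (-5 + 2 * r - b) (-5 + 2 * r - c) (-5 + 2 * r - d)
      (-5 + 2 * r - e) (-5 + 2 * r - f) (-5 - 2 * r - a) (-5 - 2 * r - b) (-5 - 2 * r - c)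
      (-5 - 2 * r - d) (-5 - 2 * r - e) (-5 - 2 * r - f)
    rw [hz, hz, hz, hz, hz, hz, ← e1, ← e2, e1', e2'] at e3
    rw [← e3]
    linear_combination (-4) * j ^ 2 * hr
  have hw : (a ^ 2 + 4 * a - 1) * (b ^ 2 + 4 * b - 1) * (c ^ 2 + 4 * c - 1) *
      (d ^ 2 + 4 * d - 1) * (e ^ 2 + 4 * e - 1) * (f ^ 2 + 4 * f - 1) = -(1728 - j) ^ 2 := by
    have e1 := hS (-2 + r)
    have e2 := hS (-2 - r)
    have e1' : ((-2 + r) ^ 2 + 10 * (-2 + r) + 5) ^ 3 - j * (-2 + r) =
        (1728 - j) * (-2 + r) := by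
      have : (-2 + r) ^ 2 + 10 * (-2 + r) + 5 = 6 * (r - 1) := by linear_combination hr
      rw [this]
      linear_combination (216 * r - 648) * hr
    have e2' : ((-2 - r) ^ 2 + 10 * (-2 - r) + 5) ^ 3 - j * (-2 - r) =
        (1728 - j) * (-2 - r) := by
      have : (-2 - r) ^ 2 + 10 * (-2 - r) + 5 = 6 * (-r - 1) := by linear_combination hr
      rw [this]
      linear_combination (-216 * r - 648) * hr
    have hz : ∀ z : K, (-2 + r - z) * (-2 - r - z) = z ^ 2 + 4 * z - 1 := by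
      intro z
      linear_combination (-1) * hr
    have e3 := six_pair (-2 + r - a) (-2 + r - b) (-2 + r - c) (-2 + r - d)
      (-2 + r - e) (-2 + r - f) (-2 - r - a) (-2 - r - b) (-2 - r - c)
      (-2 - r - d) (-2 - r - e) (-2 - r - f)
    rw [hz, hz, hz, hz, hz, hz, ← e1, ← e2, e1', e2'] at e3
    rw [← e3]
    linear_combination (-(1728 - j) ^ 2) * hr
  have hfin := six_fin hr h125 da db dc dd de df (six_sgn2 a b c d e f) hq hw
  exact sq_eq_sq_iff_eq_or_eq_neg.mp hfin

open Polynomial in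
/-- over an algebraically closed field there are six points -/
theorem exists_six [IsAlgClosed K] {j : K} (h0 : j ≠ 0) (h1 : j ≠ 1728) :
    ∃ a b c d e f : K, Root5 j a ∧ Root5 j b ∧ Root5 j c ∧ Root5 j d ∧ Root5 j e ∧ Root5 j f ∧
      vdm a b c d e f ≠ 0 := by
  classical
  set P : K[X] := (X ^ 2 + 10 * X + 5) ^ 3 - C j * X with hPdef
  have hPx : P = X ^ 6 + (C 30 * X ^ 5 + C 315 * X ^ 4 + C 1300 * X ^ 3 + C 1575 * X ^ 2 +
      C (750 - j) * X + C 125) := by
    simp only [hPdef, map_sub, map_ofNat]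
    ring
  have hP : P.Monic := by
    rw [hPx]
    apply monic_X_pow_add
    compute_degree!
  have hPd : P.natDegree = 6 := by
    rw [hPx]
    compute_degree!
  have hroot : ∀ z ∈ P.roots, Root5 j z := by
    intro z hz
    have hz' := isRoot_of_mem_roots hz
    have hz2 : (z ^ 2 + 10 * z + 5) ^ 3 - j * z = 0 := by
      have : eval z P = 0 := hz'
      simpa [hPdef] using this
    refine ⟨?_, (sub_eq_zero.mp hz2).symm⟩
    rintro rfl
    norm_num at hz2
  have hnd : P.roots.Nodup := by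
    rw [Multiset.nodup_iff_count_le_one]
    intro z
    rw [count_roots]
    by_contra hcon
    push Not at hcon
    obtain ⟨g2, g1⟩ := (one_lt_rootMultiplicity_iff_isRoot hP.ne_zero).mp hcon
    have hz := hroot z ((mem_roots hP.ne_zero).mpr g2)
    have hd : 3 * (z ^ 2 + 10 * z + 5) ^ 2 * (2 * z + 10) - j = 0 := by
      have hd : eval z (derivative P) = 0 := g1
      rw [hPdef] at hd
      simp only [derivative_mul, derivative_sub, derivative_pow, derivative_add, derivative_X,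
        derivative_C, derivative_ofNat, eval_sub, eval_add, eval_mul, eval_pow, eval_X, eval_C,
        eval_ofNat, zero_mul, zero_add, add_zero, mul_one, Nat.cast_ofNat,
        Nat.reduceSub, pow_one] at hd
      exact hd
    have h3 : (z ^ 2 + 10 * z + 5) ^ 2 * (z ^ 2 + 4 * z - 1) = 0 := by
      linear_combination (1/5 : K) * z * hd + (1/5 : K) * hz.2
    have hz0 := hz.1
    rcases mul_eq_zero.mp h3 with h4 | h4
    · have h5 : z ^ 2 + 10 * z + 5 = 0 := by
        simpa using h4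
      have h6 := hz.2
      rw [h5] at h6
      have : j * z = 0 := by rw [h6]; ring
      rcases mul_eq_zero.mp this with h7 | h7
      · exact h0 h7
      · exact hz0 h7
    · have h6 : (1728 - j) * z = 0 := by
        linear_combination (-1 : K) * hz.2 + (-1 : K) * (z ^ 4 + 26 * z ^ 3 + 212 * z ^ 2 + 478 * z - 125) * h4
      rcases mul_eq_zero.mp h6 with h7 | h7
      · exact h1 (sub_eq_zero.mp h7).symm
      · exact hz0 h7
  have hcard : P.roots.card = 6 := by
    rw [← hPd]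
    exact (splits_iff_card_roots.mp (IsAlgClosed.splits P))
  obtain ⟨l, hl⟩ : ∃ l : List K, (l : Multiset K) = P.roots := ⟨P.roots.toList, by simp⟩
  rw [← hl] at hcard hnd hroot
  rw [Multiset.coe_card] at hcard
  rw [Multiset.coe_nodup] at hnd
  match l, hcard, hnd, hroot with
  | [a, b, c, d, e, f], _, hnd, hroot =>
    refine ⟨a, b, c, d, e, f, hroot a (by simp), hroot b (by simp), hroot c (by simp),
      hroot d (by simp), hroot e (by simp), hroot f (by simp), ?_⟩
    simp only [List.nodup_cons, List.mem_cons, List.not_mem_nil, or_false, not_or,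
      not_false_eq_true, List.nodup_nil, and_true] at hnd
    obtain ⟨⟨hab, hac, had, hae, haf⟩, ⟨hbc, hbd, hbe, hbf⟩, ⟨hcd, hce, hcf⟩, ⟨hde, hdf⟩, hef⟩ := hnd
    simp only [vdm, mul_ne_zero_iff, sub_ne_zero]
    exact ⟨⟨⟨⟨⟨⟨⟨⟨⟨⟨⟨⟨⟨⟨hab, hac⟩, had⟩, hae⟩, haf⟩, hbc⟩, hbd⟩, hbe⟩, hbf⟩, hcd⟩, hce⟩, hcf⟩,
      hde⟩, hdf⟩, hef⟩

end Pool.Agent.S5N
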