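import Pool.Agent.S5N.Basic
import Pool.Agent.S5M.Emb

/-! # Moduli interpretation of `X(ns5)` over fields containing the square root of 5 (helper34)

PROOF. Write `α = -15 + a`, `α' = -15 - a`, `β = B + b`, `β' = B - b`, `γ = G + g`, `γ' = G - g`.
`k2`: `B = 45 + a^2/2`; `k3`: `G = 15 B + a b - 650 = 25 + 15 a^2/2 + a b`; `k4`:
`-30 G - 2 a g + B^2 - b^2 = 1575`; with `c = b + 15 a`: `G = 25 - 15 a^2/2 + a c` and
`2 a g = M` where `M = a^4/4 + 45 a^2 - 300 - c^2`. `a ≠ 0`: otherwise `b^2 = -300`, impossible in a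
real embedding. `k6`: `G^2 - g^2 = 125`, so `M^2 = 4 a^2 (G^2 - 125)`. Over `F` (with `s^2 = 5`),
(ring identity) `4 (M^2 - 4 a^2 (G^2 - 125)) = U V`, `U = 2 M + 2 s a G - a (P^3 - 15 P)`,
`P = a - s`, `V = 2 M - 2 s a G - a (Q^3 - 15 Q)`, `Q = a + s`. So `U = 0` or `V = 0`; `V` is `U` for
`-s`, so it suffices to treat `U = 0` for an arbitrary `s` with `s^2 = 5` (lemma). Then
`γ (s + 2) + γ' (s - 2) = 2 s G + 4 g = P^3 - 15 P` (divide by `a`) and `γ γ' = 125`,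
`(s + 2) (s - 2) = 1`, so `x = γ (s + 2)` satisfies `x^2 - (P^3 - 15 P) x + 125 = 0`.
`P^2 ≠ 5`: otherwise `P = -s`, `a = 0`, or `P = s`, `a = 2 s`; then `U = 0` reads
`(c - 10 s)^2 = 0`, `c = 10 s`, `b = -20 s`, `B = 55`, `G = -25`, `g = 10 s`, and
`j = 750 + β γ' + β' γ = 0`, contradiction. Put `y = (x + 5 P)/(P^2 - 5)`: `y^2 - P y + 5 = 0`,
`y^3 = (P^2 - 5) y - 5 P = x`, so `y ≠ 0`, `a = y + s + 5/y`, `γ = (s - 2) y^3`,
`γ' = 125/γ = 125 (s + 2)/y^3`, `G = (γ + γ')/2`, `b = (G - 25 - 15 a^2/2)/a`, and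
`j = 750 + β γ' + β' γ` becomes a rational function of `y` over `ℚ(s)`. Put `ρ = (5 + 3 s)/2`,
`u1 = (-1 + s)/2`, `u2 = (-1 - s)/2`. If `y = ρ` then `j = 8000`. Otherwise put
`u = (y u2 - ρ u1)/(y - ρ)`: `u^2 + u - 1 = (u - u1) (u - u2) ≠ 0` since
`u - u1 = y (u2 - u1)/(y - ρ)`, `u - u2 = ρ (u2 - u1)/(y - ρ)`, and
`j (u^2 + u - 1)^5 = (u + 1) (5 (2 u + 1) (2 u^2 - 3 u + 3))^3` (identity of rational functions of
`y` over `ℚ(s)`, checked numerically; to keep it small express it through `u`: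
`y = ρ (u - u1)/(u - u2)`, then with `C = u^2 + u - 1`: `a = s (4 u^2 - u + 1)/C`,
`β = ((170 u^4 + 140 u^3 - 45 u^2 - 190 u + 95) + (-60 u^4 - 60 u^3 + 75 u^2 - 10 u + 35) s)/(2 C^2)`,
`γ = ((50 u^6 - 150 u^5 + 375 u^4 + 375 u^2 + 150 u + 50) +
(20 u^6 - 90 u^5 + 75 u^4 - 200 u^3 - 75 u^2 - 90 u - 20) s)/(2 C^3)` and `β'`, `γ'` are the same
with `-s`). -/

namespace Pool.Agent.S5N

open Pool.Agent.S5M NumberField

/-- `(s - 2) (ρ U1 ^ 2) ^ 3` -/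
theorem tri_gp {F : Type*} [Field F] [CharZero F] {s : F} (hs : s ^ 2 = 5) (u : F) :
    (s - 2) * ((3 * s + 5) / 2 * (u - (s - 1) / 2) ^ 2) ^ 3 =
      (50 * u ^ 6 - 150 * u ^ 5 + 375 * u ^ 4 + 375 * u ^ 2 + 150 * u + 50) / 2 +
      s * (20 * u ^ 6 - 90 * u ^ 5 + 75 * u ^ 4 - 200 * u ^ 3 - 75 * u ^ 2 - 90 * u - 20) / 2 := by
  linear_combination ((27 / 8) * s ^ 2 * u ^ 6 - (81 / 8) * s ^ 3 * u ^ 5 + (405 / 32) * s ^ 4 * u ^ 4 - (135 / 16) * s ^ 5 * u ^ 3 + (405 / 128) * s ^ 6 * u ^ 2 - (81 / 128) * s ^ 7 * u + (27 / 512) * s ^ 8 + (81 / 8) * s * u ^ 6 - (81 / 4) * s ^ 2 * u ^ 5 + (405 / 32) * s ^ 3 * u ^ 4 - (405 / 128) * s ^ 5 * u ^ 2 + (81 / 64) * s ^ 6 * u - (81 / 512) * s ^ 7 - (27 / 8) * s * u ^ 5 - (675 / 32) * s ^ 2 * u ^ 4 + (45 / 2) * s ^ 3 * u ^ 3 - (135 / 16) * s ^ 4 * u ^ 2 + (135 / 128) * s ^ 5 * u + (9 / 512) * s ^ 6 + (45 / 4) * u ^ 6 - (285 / 32) * s * u ^ 4 - (65 /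 8) * s ^ 2 * u ^ 3 + (735 / 64) * s ^ 3 * u ^ 2 - (255 / 64) * s ^ 4 * u + (215 / 512) * s ^ 5 + (15 / 4) * u ^ 5 - (745 / 16) * s * u ^ 3 + (1845 / 128) * s ^ 2 * u ^ 2 - (75 / 128) * s ^ 3 * u - (145 / 512) * s ^ 4 + (975 / 16) * u ^ 4 - (2985 / 128) * s * u ^ 2 + (483 / 64) * s ^ 2 * u - (347 / 512) * s ^ 3 + (125 / 8) * u ^ 3 - (1707 / 128) * s * u + (891 / 512) * s ^ 2 + (2775 / 64) * u ^ 2 - (1259 / 512) * s + (1035 / 64) * u + 1305 / 256) * hs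

/-- `(s + 2) (5 / ρ U2 ^ 2) ^ 3` -/
theorem tri_gm {F : Type*} [Field F] [CharZero F] {s : F} (hs : s ^ 2 = 5) (u : F) :
    (s + 2) * ((3 * s - 5) / 2 * (u + (s + 1) / 2) ^ 2) ^ 3 =
      (50 * u ^ 6 - 150 * u ^ 5 + 375 * u ^ 4 + 375 * u ^ 2 + 150 * u + 50) / 2 -
      s * (20 * u ^ 6 - 90 * u ^ 5 + 75 * u ^ 4 - 200 * u ^ 3 - 75 * u ^ 2 - 90 * u - 20) / 2 := by
  linear_combination ((27 / 8) * s ^ 2 * u ^ 6 + (81 / 8) * s ^ 3 * u ^ 5 + (405 / 32) * s ^ 4 * u ^ 4 + (135 / 16) * s ^ 5 * u ^ 3 + (405 / 128) * s ^ 6 * u ^ 2 + (81 / 128) * s ^ 7 * u + (27 / 512) * s ^ 8 - (81 / 8) * s * u ^ 6 - (81 / 4) * s ^ 2 * u ^ 5 - (405 / 32) * s ^ 3 * u ^ 4 + (405 / 128) * s ^ 5 * u ^ 2 + (81 / 64) * s ^ 6 * u + (81 / 512) * s ^ 7 + (27 / 8) * s * u ^ 5 - (675 / 32) * s ^ 2 * u ^ 4 - (45 / 2) * s ^ 3 * u ^ 3 - (135 / 16) * s ^ 4 * u ^ 2 - (135 / 128) * s ^ 5 * u + (9 / 512) * s ^ 6 + (45 / 4) * u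 ^ 6 + (285 / 32) * s * u ^ 4 - (65 / 8) * s ^ 2 * u ^ 3 - (735 / 64) * s ^ 3 * u ^ 2 - (255 / 64) * s ^ 4 * u - (215 / 512) * s ^ 5 + (15 / 4) * u ^ 5 + (745 / 16) * s * u ^ 3 + (1845 / 128) * s ^ 2 * u ^ 2 + (75 / 128) * s ^ 3 * u - (145 / 512) * s ^ 4 + (975 / 16) * u ^ 4 + (2985 / 128) * s * u ^ 2 + (483 / 64) * s ^ 2 * u + (347 / 512) * s ^ 3 + (125 / 8) * u ^ 3 + (1707 / 128) * s * u + (891 / 512) * s ^ 2 + (2775 / 64) * u ^ 2 + (1259 / 512) * s + (1035 / 64) * u + 1305 / 256) * hs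


/-- the case `y = ρ` -/
theorem tri_rho {F : Type*} [Field F] [CharZero F] {s a b g B G y j : F}
    (hs : s ^ 2 = 5) (hB : B = 45 + a ^ 2 / 2) (hG : G = 25 + 15 * a ^ 2 / 2 + a * b)
    (h6 : G ^ 2 - g ^ 2 = 125) (hj : j = 750 + 2 * B * G - 2 * b * g) (hy0 : y ≠ 0)
    (hay : a * y = y ^ 2 + s * y + 5) (hγ : G + g = (s - 2) * y ^ 3)
    (hρ : y = (5 + 3 * s) / 2) : j = 8000 := by
  have hs0 : s ≠ 0 := by
    rintro rfl
    norm_num at hs
  have ha : a = 4 * s := by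
    apply mul_right_cancel₀ hy0
    rw [hay, hρ]
    linear_combination (-9 / 4 : F) * hs
  have h1 : G + g = 25 + 10 * s := by
    rw [hγ, hρ]
    linear_combination ((27 / 8) * s ^ 2 + (81 / 8) * s + 45 / 4) * hs
  have h10 : G + g ≠ 0 := by
    intro h0
    have h : (G + g) * (G - g) = 125 := by linear_combination h6
    rw [h0] at h
    norm_num at h
  have h2 : G - g = 25 - 10 * s := by
    apply mul_left_cancel₀ h10
    have h : (G + g) * (G - g) = 125 := by linear_combination h6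
    rw [h, h1]
    linear_combination 100 * hs
  have h3 : G = 25 := by linear_combination (h1 + h2) / 2
  have h4 : g = 10 * s := by linear_combination (h1 - h2) / 2
  have h5 : b = -30 * s := by
    apply mul_left_cancel₀ hs0
    rw [h3, ha] at hG
    linear_combination (-1 / 4) * hG
  rw [hj, hB, h3, h4, h5, ha]
  linear_combination (1000 : F) * hs

/-- the generic case -/
theorem tri_gen {F : Type*} [Field F] [CharZero F] {s a b g B G y j : F}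
    (hs : s ^ 2 = 5) (ha : a ≠ 0) (hB : B = 45 + a ^ 2 / 2)
    (hG : G = 25 + 15 * a ^ 2 / 2 + a * b)
    (h6 : G ^ 2 - g ^ 2 = 125) (hj : j = 750 + 2 * B * G - 2 * b * g) (hy0 : y ≠ 0)
    (hay : a * y = y ^ 2 + s * y + 5) (hγ : G + g = (s - 2) * y ^ 3)
    (hρ : y ≠ (5 + 3 * s) / 2) : ∃ u : F, u ^ 2 + u - 1 ≠ 0 ∧
      j * (u ^ 2 + u - 1) ^ 5 = (u + 1) * (5 * (2 * u + 1) * (2 * u ^ 2 - 3 * u + 3)) ^ 3 := by
  have hs0 : s ≠ 0 := by
    rintro rfl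
    norm_num at hs
  have hd : 2 * y - 5 - 3 * s ≠ 0 := by
    intro h
    apply hρ
    linear_combination h / 2
  have h35 : (3 * s + 5 : F) ≠ 0 := by
    intro h
    have h' : (3 * s + 5) * (3 * s - 5) = (20 : F) := by linear_combination 9 * hs
    rw [h] at h'
    norm_num at h'
  obtain ⟨u, hu⟩ : ∃ u : F, u * (2 * y - 5 - 3 * s) = -(y * (1 + s) + s + 5) :=
    ⟨-(y * (1 + s) + s + 5) / (2 * y - 5 - 3 * s), div_mul_cancel₀ _ hd⟩
  have hU1 : (u - (s - 1) / 2) * (2 * y - 5 - 3 * s) = -2 * s * y := by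
    linear_combination hu + (3 / 2 : F) * hs
  have hU2 : (u + (s + 1) / 2) * (2 * y - 5 - 3 * s) = -s * (3 * s + 5) := by
    linear_combination hu + (3 / 2 : F) * hs
  have hU10 : u - (s - 1) / 2 ≠ 0 := by
    intro h
    rw [h, zero_mul] at hU1
    have : s * y = 0 := by linear_combination (1 / 2) * hU1
    rcases mul_eq_zero.mp this with h | h
    · exact hs0 h
    · exact hy0 h
  have hU20 : u + (s + 1) / 2 ≠ 0 := by
    intro h
    rw [h, zero_mul] at hU2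
    have : s * (3 * s + 5) = 0 := by linear_combination hU2
    rcases mul_eq_zero.mp this with h | h
    · exact hs0 h
    · exact h35 h
  have hC : u ^ 2 + u - 1 = (u - (s - 1) / 2) * (u + (s + 1) / 2) := by
    linear_combination (1 / 4 : F) * hs
  have hC0 : u ^ 2 + u - 1 ≠ 0 := by
    rw [hC]
    exact mul_ne_zero hU10 hU20
  refine ⟨u, hC0, ?_⟩
  -- `y U2 = ρ U1`
  have hyU : y * (u + (s + 1) / 2) = (3 * s + 5) / 2 * (u - (s - 1) / 2) := by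
    apply mul_right_cancel₀ hd
    linear_combination y * hU2 - (3 * s + 5) / 2 * hU1
  have haU : a * (u ^ 2 + u - 1) = s * (4 * u ^ 2 - u + 1) := by
    have h1 : a * (y * (u + (s + 1) / 2)) * (u + (s + 1) / 2) =
        (y * (u + (s + 1) / 2)) ^ 2 + s * (y * (u + (s + 1) / 2)) * (u + (s + 1) / 2) +
          5 * (u + (s + 1) / 2) ^ 2 := by
      linear_combination (u + (s + 1) / 2) ^ 2 * hay
    rw [hyU] at h1
    apply mul_left_cancel₀ (div_ne_zero h35 (two_ne_zero))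
    rw [hC]
    linear_combination h1 + (-(9 / 4) * s * u + (3 / 16) * s ^ 2 - (9 / 4) * u ^ 2 + (1 / 8) * s - (9 / 4) * u - 9 / 16) * hs
  have hyC : y * (u ^ 2 + u - 1) = (3 * s + 5) / 2 * (u - (s - 1) / 2) ^ 2 := by
    rw [hC]
    linear_combination (u - (s - 1) / 2) * hyU
  have hgp : (G + g) * (u ^ 2 + u - 1) ^ 3 =
      (s - 2) * ((3 * s + 5) / 2 * (u - (s - 1) / 2) ^ 2) ^ 3 := by
    rw [← hyC, hγ]
    ring
  have hgm : (G - g) * (u ^ 2 + u - 1) ^ 3 =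
      (s + 2) * ((3 * s - 5) / 2 * (u + (s + 1) / 2) ^ 2) ^ 3 := by
    have h10 : (G + g) * (u ^ 2 + u - 1) ^ 3 ≠ 0 := by
      refine mul_ne_zero ?_ (pow_ne_zero 3 hC0)
      intro h0
      have h : (G + g) * (G - g) = 125 := by linear_combination h6
      rw [h0] at h
      norm_num at h
    apply mul_left_cancel₀ h10
    have h1 : (G + g) * (u ^ 2 + u - 1) ^ 3 * ((G - g) * (u ^ 2 + u - 1) ^ 3) =
        125 * ((u ^ 2 + u - 1) ^ 3) ^ 2 := by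
      linear_combination ((u ^ 2 + u - 1) ^ 3) ^ 2 * h6
    rw [h1, hgp, hC]
    have h2 : (s - 2) * (s + 2) = (1 : F) := by linear_combination hs
    have h3 : (3 * s + 5) / 2 * ((3 * s - 5) / 2) = (5 : F) := by
      linear_combination (9 / 4 : F) * hs
    calc 125 * (((u - (s - 1) / 2) * (u + (s + 1) / 2)) ^ 3) ^ 2
        = 1 * (5 : F) ^ 3 * (((u - (s - 1) / 2) * (u + (s + 1) / 2)) ^ 3) ^ 2 := by norm_num
      _ = (s - 2) * (s + 2) * ((3 * s + 5) / 2 * ((3 * s - 5) / 2)) ^ 3 *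
            (((u - (s - 1) / 2) * (u + (s + 1) / 2)) ^ 3) ^ 2 := by rw [h2, h3]
      _ = _ := by ring
  rw [tri_gp hs] at hgp
  rw [tri_gm hs] at hgm
  have hGC : G * (u ^ 2 + u - 1) ^ 3 =
      (50 * u ^ 6 - 150 * u ^ 5 + 375 * u ^ 4 + 375 * u ^ 2 + 150 * u + 50) / 2 := by
    linear_combination (hgp + hgm) / 2
  have hgC : g * (u ^ 2 + u - 1) ^ 3 =
      s * (20 * u ^ 6 - 90 * u ^ 5 + 75 * u ^ 4 - 200 * u ^ 3 - 75 * u ^ 2 - 90 * u - 20) / 2 := by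
    linear_combination (hgp - hgm) / 2
  have hBC : B * (u ^ 2 + u - 1) ^ 2 =
      (170 * u ^ 4 + 140 * u ^ 3 - 45 * u ^ 2 - 190 * u + 95) / 2 := by
    have h1 : B * (u ^ 2 + u - 1) ^ 2 = 45 * (u ^ 2 + u - 1) ^ 2 +
        (a * (u ^ 2 + u - 1)) ^ 2 / 2 := by
      rw [hB]
      ring
    rw [h1, haU]
    linear_combination (8 * u ^ 4 - 4 * u ^ 3 + (9 / 2) * u ^ 2 - u + 1 / 2) * hs
  have hbC : b * (u ^ 2 + u - 1) ^ 2 =
      s * (-60 * u ^ 4 - 60 * u ^ 3 + 75 * u ^ 2 - 10 * u + 35) / 2 := by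
    apply mul_left_cancel₀ (mul_ne_zero ha hC0)
    have h1 : a * (u ^ 2 + u - 1) * (b * (u ^ 2 + u - 1) ^ 2) =
        G * (u ^ 2 + u - 1) ^ 3 - 25 * (u ^ 2 + u - 1) ^ 3 -
          15 / 2 * (a * (u ^ 2 + u - 1)) ^ 2 * (u ^ 2 + u - 1) := by
      linear_combination (-(u ^ 2 + u - 1) ^ 3) * hG
    rw [h1, hGC, haU]
    linear_combination (30 * u ^ 5 - (75 / 2) * u ^ 4 - 25 * u ^ 3 - (75 / 2) * u ^ 2 - 10) * hs
  have hjC : j * (u ^ 2 + u - 1) ^ 5 = 750 * (u ^ 2 + u - 1) ^ 5 +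
      2 * (B * (u ^ 2 + u - 1) ^ 2) * (G * (u ^ 2 + u - 1) ^ 3) -
      2 * (b * (u ^ 2 + u - 1) ^ 2) * (g * (u ^ 2 + u - 1) ^ 3) := by
    rw [hj]
    ring
  rw [hjC, hBC, hGC, hbC, hgC]
  linear_combination (600 * u ^ 10 - 2100 * u ^ 9 - 1200 * u ^ 8 - 275 * u ^ 7
    - (23725 / 2) * u ^ 6 + 4500 * u ^ 5 - 2800 * u ^ 4 + 5900 * u ^ 3 + (3225 / 2) * u ^ 2
    + 1475 * u + 350) * hs

/-- one factor vanishes -/
theorem tri_core {F : Type*} [Field F] [CharZero F] {s a b g B G j : F}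
    (hs : s ^ 2 = 5) (h0 : j ≠ 0) (ha : a ≠ 0) (hB : B = 45 + a ^ 2 / 2)
    (hG : G = 25 + 15 * a ^ 2 / 2 + a * b)
    (h6 : G ^ 2 - g ^ 2 = 125) (hj : j = 750 + 2 * B * G - 2 * b * g)
    (hU : 4 * g + 2 * s * G = (a - s) ^ 3 - 15 * (a - s)) : IsNS5 j := by
  have hs0 : s ≠ 0 := by
    rintro rfl
    norm_num at hs
  by_cases hP : (a - s) ^ 2 - 5 = 0
  · exfalso
    have h1 : a * (a - 2 * s) = 0 := by linear_combination hP - hs
    have h2 : a = 2 * s := by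
      rcases mul_eq_zero.mp h1 with h | h
      · exact absurd h ha
      · linear_combination h
    have h3 : 2 * g = -s * (5 + G) := by
      rw [h2] at hU
      linear_combination hU / 2 + s / 2 * hs
    have h4 : (G + 25) ^ 2 = 0 := by
      linear_combination (-4) * h6 - (2 * g - s * (5 + G)) * h3 - (5 + G) ^ 2 * hs
    have h5 : G = -25 := by
      have := pow_eq_zero_iff (two_ne_zero) |>.mp h4
      linear_combination this
    have h7 : g = 10 * s := by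
      rw [h5] at h3
      linear_combination h3 / 2
    have h8 : b = -20 * s := by
      apply mul_left_cancel₀ hs0
      rw [h5, h2] at hG
      linear_combination (-1 / 2) * hG + 5 * hs
    apply h0
    rw [hj, hB, h5, h7, h8, h2]
    linear_combination (300 : F) * hs
  · obtain ⟨x, hx⟩ : ∃ x : F, x = (G + g) * (s + 2) := ⟨_, rfl⟩
    obtain ⟨y, hy⟩ : ∃ y : F, y * ((a - s) ^ 2 - 5) = x + 5 * (a - s) :=
      ⟨(x + 5 * (a - s)) / ((a - s) ^ 2 - 5), by field_simp⟩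
    have hxq : x ^ 2 - ((a - s) ^ 3 - 15 * (a - s)) * x + 125 = 0 := by
      rw [← hU, hx]
      linear_combination (-(G ^ 2 - g ^ 2)) * hs - h6
    have hyq : y ^ 2 - (a - s) * y + 5 = 0 := by
      have h : (y ^ 2 - (a - s) * y + 5) * ((a - s) ^ 2 - 5) ^ 2 = 0 := by
        have e : (y ^ 2 - (a - s) * y + 5) * ((a - s) ^ 2 - 5) ^ 2 =
            (y * ((a - s) ^ 2 - 5)) ^ 2 - (a - s) * (y * ((a - s) ^ 2 - 5)) *
              ((a - s) ^ 2 - 5) + 5 * ((a - s) ^ 2 - 5) ^ 2 := by ring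
        rw [e, hy]
        linear_combination hxq
      rcases mul_eq_zero.mp h with h | h
      · exact h
      · exact absurd (pow_eq_zero_iff (two_ne_zero) |>.mp h) hP
    have hy3 : y ^ 3 = x := by
      linear_combination (y + (a - s)) * hyq + hy
    have hy0 : y ≠ 0 := by
      rintro rfl
      norm_num at hyq
    have hay : a * y = y ^ 2 + s * y + 5 := by linear_combination -hyq
    have hγ : G + g = (s - 2) * y ^ 3 := by
      rw [hy3, hx]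
      linear_combination (-(G + g)) * hs
    by_cases hρ : y = (5 + 3 * s) / 2
    · exact Or.inl (tri_rho hs hB hG h6 hj hy0 hay hγ hρ)
    · exact Or.inr (tri_gen hs ha hB hG h6 hj hy0 hay hγ hρ)

theorem isNS5_of_cubics {F : Type*} [Field F] [NumberField F] [IsTotallyReal F] {s : F}
    (hs : s ^ 2 = 5) {j α β γ α' β' γ' : F} (h0 : j ≠ 0) (k1 : α + α' = -30)
    (k2 : β + β' + α * α' = 315) (k3 : γ + γ' + α * β' + α' * β = -1300)
    (k4 : α * γ' + α' * γ + β * β' = 1575) (k5 : β * γ' + β' * γ = j - 750)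
    (k6 : γ * γ' = 125) : IsNS5 j := by
  obtain ⟨a, ha⟩ : ∃ a : F, a = α + 15 := ⟨_, rfl⟩
  obtain ⟨b, hb⟩ : ∃ b : F, b = (β - β') / 2 := ⟨_, rfl⟩
  obtain ⟨g, hg⟩ : ∃ g : F, g = (γ - γ') / 2 := ⟨_, rfl⟩
  obtain ⟨B, hB'⟩ : ∃ B : F, B = (β + β') / 2 := ⟨_, rfl⟩
  obtain ⟨G, hG'⟩ : ∃ G : F, G = (γ + γ') / 2 := ⟨_, rfl⟩
  obtain rfl : α = a - 15 := by linear_combination -ha
  obtain rfl : α' = -15 - a := by linear_combination k1
  obtain rfl : β = B + b := by linear_combination -hb - hB'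
  obtain rfl : β' = B - b := by linear_combination 2 * hb
  obtain rfl : γ = G + g := by linear_combination -hg - hG'
  obtain rfl : γ' = G - g := by linear_combination 2 * hg
  clear ha hb hg hB' hG'
  have hB : B = 45 + a ^ 2 / 2 := by linear_combination k2 / 2
  have hG : G = 25 + 15 * a ^ 2 / 2 + a * b := by
    linear_combination k3 / 2 + 15 * hB
  have h6 : G ^ 2 - g ^ 2 = 125 := by linear_combination k6
  have hj : j = 750 + 2 * B * G - 2 * b * g := by linear_combination -k5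
  have h4 : B ^ 2 - b ^ 2 - 30 * G - 2 * a * g = 1575 := by linear_combination k4
  have ha : a ≠ 0 := by
    rintro rfl
    have h1 : b ^ 2 = -300 := by
      have hB1 : B = 45 := by linear_combination hB
      have hG1 : G = 25 := by linear_combination hG
      rw [hB1, hG1] at h4
      linear_combination -h4
    obtain ⟨φ, hφ⟩ := exists_emb hs (ε := √5) (Real.sq_sqrt (by norm_num))
    have h2 : (φ b) ^ 2 = -300 := by
      rw [← map_pow, h1, map_neg, map_ofNat]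
    nlinarith [sq_nonneg (φ b)]
  have hM : 2 * a * g = a ^ 4 / 4 + 45 * a ^ 2 - 300 - (b + 15 * a) ^ 2 := by
    rw [hB, hG] at h4
    linear_combination -h4
  have hUV : (a * (4 * g + 2 * s * G - ((a - s) ^ 3 - 15 * (a - s)))) *
      (a * (4 * g + 2 * (-s) * G - ((a - -s) ^ 3 - 15 * (a - -s)))) = 0 := by
    have e1 : a * (4 * g + 2 * s * G - ((a - s) ^ 3 - 15 * (a - s))) =
        2 * (a ^ 4 / 4 + 45 * a ^ 2 - 300 - (b + 15 * a) ^ 2) +
          2 * s * a * (25 + 15 * a ^ 2 / 2 + a * b) - a * ((a - s) ^ 3 - 15 * (a - s)) := by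
      rw [← hG]
      linear_combination 2 * hM
    have e2 : a * (4 * g + 2 * (-s) * G - ((a - -s) ^ 3 - 15 * (a - -s))) =
        2 * (a ^ 4 / 4 + 45 * a ^ 2 - 300 - (b + 15 * a) ^ 2) -
          2 * s * a * (25 + 15 * a ^ 2 / 2 + a * b) - a * ((a + s) ^ 3 - 15 * (a + s)) := by
      rw [← hG]
      linear_combination 2 * hM
    have e3 : 4 * ((a ^ 4 / 4 + 45 * a ^ 2 - 300 - (b + 15 * a) ^ 2) ^ 2 -
        4 * a ^ 2 * ((25 + 15 * a ^ 2 / 2 + a * b) ^ 2 - 125)) = 0 := by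
      rw [← hG, ← hM]
      linear_combination (-16 * a ^ 2) * h6
    rw [e1, e2]
    linear_combination e3 + (-a ^ 2 * s ^ 4 - 4 * a ^ 3 * b * s ^ 2 - 4 * a ^ 4 * b ^ 2 - 27 * a ^ 4 * s ^ 2 - 72 * a ^ 5 * b - 321 * a ^ 6 + 12 * a ^ 2 * b ^ 2 - 75 * a ^ 2 * s ^ 2 + 200 * a ^ 3 * b + 675 * a ^ 4 + 2000 * a ^ 2) * hs
  rcases mul_eq_zero.mp hUV with h | h
  · have hU : 4 * g + 2 * s * G = (a - s) ^ 3 - 15 * (a - s) := by
      rcases mul_eq_zero.mp h with h | h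
      · exact absurd h ha
      · linear_combination h
    exact tri_core hs h0 ha hB hG h6 hj hU
  · have hU : 4 * g + 2 * (-s) * G = (a - -s) ^ 3 - 15 * (a - -s) := by
      rcases mul_eq_zero.mp h with h | h
      · exact absurd h ha
      · linear_combination h
    exact tri_core (s := -s) (by rw [neg_sq, hs]) h0 ha hB hG h6 hj hU

end Pool.Agent.S5N
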