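import Pool.Agent.S5N.FrameDef
import Pool.Agent.S5N.Pair
import Pool.Agent.S5N.Triple
import Pool.Agent.S5N.Six

/-! # From the outcome to points over `F` (helper34)

PROOF. An element of `K` fixed by all `σ` is in the image of `F`
(`InfiniteGalois.mem_range_algebraMap_iff_fixed`). First outcome: `h = algebraMap F K a`,
`Root5 j a` by injectivity: `IsB5 j`. Second: `h + h'`, `h h'` come from `F`: `isS5_of_pair`.
Third: `α, β, γ` come from `F`; with `six_vieta`, `α' = -30 - α`, `β' = 315 - β - α α'`,
`γ' = -1300 - γ - α β' - α' β` come from `F` as well, and the six relations hold in `F`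
(injectivity): `isNS5_of_cubics`. -/

namespace Pool.Agent.S5N

open Pool.Agent.S5M NumberField

theorem covers5 {F K : Type*} [Field F] [NumberField F] [IsTotallyReal F] [Field K] [CharZero K]
    [Algebra F K] [IsGalois F K] {s j : F} (hs : s ^ 2 = 5) (h0 : j ≠ 0) (h1 : j ≠ 1728)
    (h : Outcome F (algebraMap F K j)) : IsB5 j ∨ IsS5 j ∨ IsNS5 j := by
  have hfix : ∀ z : K, (∀ σ : K ≃ₐ[F] K, σ z = z) → ∃ a : F, algebraMap F K a = z := fun z hz =>
    (InfiniteGalois.mem_range_algebraMap_iff_fixed z).mpr hz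
  have hinj : Function.Injective (algebraMap F K) := (algebraMap F K).injective
  rcases h with ⟨x, hx, hσ⟩ | ⟨x, x', hne, hx, hx', hσ⟩ |
    ⟨a, b, c, d, e, f, ha, hb, hc, hd, he, hf, hv, hσ⟩
  · left
    obtain ⟨y, rfl⟩ := hfix x hσ
    obtain ⟨hy0, hy⟩ := hx
    refine ⟨y, ?_, ?_⟩
    · rintro rfl
      exact hy0 (map_zero _)
    · apply hinj
      simpa only [map_add, map_mul, map_pow, map_ofNat] using hy
  · right; left
    obtain ⟨u, hu⟩ := hfix (x + x') (fun σ => by
      rcases hσ σ with ⟨h1, h2⟩ | ⟨h1, h2⟩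
      · rw [map_add, h1, h2]
      · rw [map_add, h1, h2, add_comm])
    obtain ⟨v, hv⟩ := hfix (x * x') (fun σ => by
      rcases hσ σ with ⟨h1, h2⟩ | ⟨h1, h2⟩
      · rw [map_mul, h1, h2]
      · rw [map_mul, h1, h2, mul_comm])
    exact isS5_of_pair h0 h1 hx hx' hne hu hv
  · right; right
    obtain ⟨α, hα⟩ := hfix _ (fun σ => (hσ σ).1)
    obtain ⟨β, hβ⟩ := hfix _ (fun σ => (hσ σ).2.1)
    obtain ⟨γ, hγ⟩ := hfix _ (fun σ => (hσ σ).2.2)
    obtain ⟨e1, e2, e3, e4, e5, e6⟩ := six_vieta ha hb hc hd he hf hv hα hβ hγ rfl rfl rfl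
    have k1 : algebraMap F K (-30 - α) = d + e + f := by
      simp only [map_sub, map_neg, map_ofNat]
      linear_combination -e1
    have k2 : algebraMap F K (315 - β - α * (-30 - α)) = d * e + d * f + e * f := by
      rw [← k1] at e2
      simp only [map_sub, map_mul, map_neg, map_ofNat] at e2 ⊢
      linear_combination -e2
    have k3 : algebraMap F K (-1300 - γ - α * (315 - β - α * (-30 - α)) - (-30 - α) * β) =
        d * e * f := by
      rw [← k1, ← k2] at e3
      simp only [map_sub, map_mul, map_neg, map_ofNat] at e3 ⊢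
      linear_combination -e3
    rw [← k1, ← k2, ← k3] at e4
    rw [← k2, ← k3] at e5
    rw [← k3] at e6
    refine isNS5_of_cubics hs h0 (α := α) (β := β) (γ := γ) (α' := -30 - α)
      (β' := 315 - β - α * (-30 - α))
      (γ' := -1300 - γ - α * (315 - β - α * (-30 - α)) - (-30 - α) * β)
      (by ring) (by ring) (by ring) ?_ ?_ ?_
    · apply hinj
      simpa only [map_add, map_mul, map_ofNat] using e4
    · apply hinj
      simpa only [map_add, map_mul, map_sub, map_ofNat] using e5
    · apply hinj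
      simpa only [map_mul, map_ofNat] using e6

end Pool.Agent.S5N
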