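import Pool.Agent.S5N.FrameDef
import Pool.Agent.S5N.Six

/-! # Elements fixing √5 act on the six points of `X0(5)` by even permutations (helper34)

PROOF of `even5`. Let `h0 = val 1 0`, `h5 = val 0 1`, `hk = val 1 k` (`k = 1, 2, 3, 4`). `σ` maps
`val x y` to `val (b y) (g x)`: `h0 ↦ val 0 g = h5`, `h5 ↦ val b 0 = h0`,
`hk ↦ val (b k) g = val 1 (g / (b k))` (by `smul`). As `b * g = 2` or `3`, `g / b = g b / b ^ 2` is
`2` or `3` (`b ^ 2 = 1, 4`). `g / b = 2`: `h1 ↔ h2`, `h3 ↔ h4`; `g / b = 3`: `h1 ↔ h3`,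
`h2 ↔ h4` (case distinction over the 16 pairs `b g`, by `decide`/`fin_cases`). So `σ` maps the
Vandermonde product `vdm` of the six to its negative. But by `six_disc` it is
`± 25 r j ^ 2 (j - 1728)`, which is fixed by `σ`. So it is 0, contradiction to `ne`.
PROOF of `det5`. `m σ = !![a, b; g, a]` has `a ^ 2 - b g ≠ 0` (units). Suppose `a ^ 2 - b g = 2, 3`.
If `a = 0`: `even5` for `σ`. If `a ≠ 0`: a finite check (`decide`) gives `a ^ 2 + 3 b g = 0` (as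
`b g = 2, 3`, `a ^ 2 = 1, 4`), so `m (σ ^ 3) = (m σ) ^ 3 = !![a (a ^ 2 + 3 b g),
b (3 a ^ 2 + b g); g (3 a ^ 2 + b g), …] = !![0, b'; g', 0]` with `b' g' = 2, 3`: `even5` for
`σ ^ 3`. -/

namespace Pool.Agent.S5N

variable {F K : Type*} [Field F] [Field K] [CharZero K] [Algebra F K]
  {m : (K ≃ₐ[F] K) →* Matrix (Fin 2) (Fin 2) (ZMod 5)} {val : ZMod 5 → ZMod 5 → K} {j s : F}

theorem even5 (hs : s ^ 2 = 5) (H : Frame m val (algebraMap F K j)) (σ : K ≃ₐ[F] K)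
    (h00 : m σ 0 0 = 0) (h11 : m σ 1 1 = 0)
    (hd : m σ 0 1 * m σ 1 0 = 2 ∨ m σ 0 1 * m σ 1 0 = 3) : False := by
  generalize hb : m σ 0 1 = b at hd
  generalize hg : m σ 1 0 = g at hd
  have hb0 : b ≠ 0 := by
    revert hd; clear hb hg; revert b g; decide
  have hg0 : g ≠ 0 := by
    revert hd; clear hb hg; revert b g; decide
  have hgal : ∀ x y : ZMod 5, (x ≠ 0 ∨ y ≠ 0) → σ (val x y) = val (b * y) (g * x) := by
    intro x y hxy
    rw [H.gal σ x y hxy, h00, h11, hb, hg]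
    simp
  have h0 : σ (val 1 0) = val 0 1 := by
    rw [hgal 1 0 (Or.inl (by decide)), ← H.smul g 0 1 hg0]
    simp
  have h5 : σ (val 0 1) = val 1 0 := by
    rw [hgal 0 1 (Or.inr (by decide)), ← H.smul b 1 0 hb0]
    simp
  have hk : ∀ k c : ZMod 5, k ≠ 0 → b * k * c = g → σ (val 1 k) = val 1 c := by
    intro k c hk hc
    have hbk : b * k ≠ 0 := by
      clear hc hgal h0 h5 hd hb hg; revert b k; decide
    rw [hgal 1 k (Or.inl (by decide)), ← H.smul (b * k) 1 c hbk, hc]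
    simp
  have hcase : (σ (val 1 1) = val 1 2 ∧ σ (val 1 2) = val 1 1 ∧ σ (val 1 3) = val 1 4 ∧
      σ (val 1 4) = val 1 3) ∨
      (σ (val 1 1) = val 1 3 ∧ σ (val 1 3) = val 1 1 ∧ σ (val 1 2) = val 1 4 ∧
      σ (val 1 4) = val 1 2) := by
    have key : (b * 1 * 2 = g ∧ b * 2 * 1 = g ∧ b * 3 * 4 = g ∧ b * 4 * 3 = g) ∨
        (b * 1 * 3 = g ∧ b * 3 * 1 = g ∧ b * 2 * 4 = g ∧ b * 4 * 2 = g) := by
      clear hk hgal h0 h5 hb hg hb0 hg0
      revert hd; revert b g; decide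
    rcases key with ⟨k1, k2, k3, k4⟩ | ⟨k1, k2, k3, k4⟩
    · exact Or.inl ⟨hk 1 2 (by decide) k1, hk 2 1 (by decide) k2, hk 3 4 (by decide) k3,
        hk 4 3 (by decide) k4⟩
    · exact Or.inr ⟨hk 1 3 (by decide) k1, hk 3 1 (by decide) k2, hk 2 4 (by decide) k3,
        hk 4 2 (by decide) k4⟩
  have hr : (algebraMap F K s) ^ 2 = 5 := by
    rw [← map_pow, hs]; exact map_ofNat (algebraMap F K) 5
  have r0 := H.root 1 0 (Or.inl (by decide))
  have r5 := H.root 0 1 (Or.inr (by decide))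
  have r1 := H.root 1 1 (Or.inl (by decide))
  have r2 := H.root 1 2 (Or.inl (by decide))
  have r3 := H.root 1 3 (Or.inl (by decide))
  have r4 := H.root 1 4 (Or.inl (by decide))
  have hdisc := six_disc hr r0 r5 r1 r2 r3 r4 H.ne
  have hfix : σ (vdm (val 1 0) (val 0 1) (val 1 1) (val 1 2) (val 1 3) (val 1 4)) =
      vdm (val 1 0) (val 0 1) (val 1 1) (val 1 2) (val 1 3) (val 1 4) := by
    rcases hdisc with h | h <;> rw [h] <;> simp [map_ofNat σ 25, map_ofNat σ 1728]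
  have hneg : σ (vdm (val 1 0) (val 0 1) (val 1 1) (val 1 2) (val 1 3) (val 1 4)) =
      -vdm (val 1 0) (val 0 1) (val 1 1) (val 1 2) (val 1 3) (val 1 4) := by
    unfold vdm
    simp only [map_mul, map_sub, h0, h5]
    rcases hcase with ⟨k1, k2, k3, k4⟩ | ⟨k1, k2, k3, k4⟩ <;> rw [k1, k2, k3, k4] <;> ring
  have h2 := H.ne
  rw [hfix] at hneg
  exact h2 (self_eq_neg.mp hneg)

theorem det5 (hs : s ^ 2 = 5) (H : Frame m val (algebraMap F K j)) (σ : K ≃ₐ[F] K)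
    (h : m σ 0 0 = m σ 1 1) (hd : m σ 0 1 * m σ 1 0 = 2 ∨ m σ 0 1 * m σ 1 0 = 3) :
    m σ 0 0 ^ 2 - m σ 0 1 * m σ 1 0 = 1 ∨ m σ 0 0 ^ 2 - m σ 0 1 * m σ 1 0 = 4 := by
  have hdet : m σ 0 0 ^ 2 - m σ 0 1 * m σ 1 0 ≠ 0 := by
    intro h0
    have h1 : m σ * m σ⁻¹ = 1 := by rw [← map_mul]; simp
    have h2 : (m σ).det * (m σ⁻¹).det = 1 := by rw [← Matrix.det_mul, h1, Matrix.det_one]
    have h3 : (m σ).det = 0 := by
      rw [Matrix.det_fin_two, ← h, ← h0]; ring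
    rw [h3, zero_mul] at h2
    exact absurd h2 (by decide)
  by_contra hcon
  push Not at hcon
  by_cases ha : m σ 0 0 = 0
  · exact even5 hs H σ ha (h ▸ ha) hd
  · have h3 : m (σ ^ 3) = m σ ^ 3 := map_pow m σ 3
    have e00 : m (σ ^ 3) 0 0 = m σ 0 0 * (m σ 0 0 ^ 2 + 3 * (m σ 0 1 * m σ 1 0)) := by
      rw [h3, pow_succ, pow_two]
      simp only [Matrix.mul_apply, Fin.sum_univ_two, ← h]
      ring
    have e11 : m (σ ^ 3) 1 1 = m σ 0 0 * (m σ 0 0 ^ 2 + 3 * (m σ 0 1 * m σ 1 0)) := by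
      rw [h3, pow_succ, pow_two]
      simp only [Matrix.mul_apply, Fin.sum_univ_two, ← h]
      ring
    have e01 : m (σ ^ 3) 0 1 = m σ 0 1 * (3 * m σ 0 0 ^ 2 + m σ 0 1 * m σ 1 0) := by
      rw [h3, pow_succ, pow_two]
      simp only [Matrix.mul_apply, Fin.sum_univ_two, ← h]
      ring
    have e10 : m (σ ^ 3) 1 0 = m σ 1 0 * (3 * m σ 0 0 ^ 2 + m σ 0 1 * m σ 1 0) := by
      rw [h3, pow_succ, pow_two]
      simp only [Matrix.mul_apply, Fin.sum_univ_two, ← h]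
      ring
    clear h3 h
    generalize m σ 0 0 = a at *
    generalize m σ 0 1 = b at *
    generalize m σ 1 0 = g at *
    have k0 : a * (a ^ 2 + 3 * (b * g)) = 0 := by
      clear e00 e11 e01 e10
      revert a b g; decide
    have k1 : b * (3 * a ^ 2 + b * g) * (g * (3 * a ^ 2 + b * g)) = 2 ∨
        b * (3 * a ^ 2 + b * g) * (g * (3 * a ^ 2 + b * g)) = 3 := by
      clear e00 e11 e01 e10 k0
      revert a b g; decide
    refine even5 hs H (σ ^ 3) (by rw [e00, k0]) (by rw [e11, k0]) ?_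
    rw [e01, e10]
    exact k1

end Pool.Agent.S5N
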