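import Pool.Agent.S5N.Six
import Pool.Agent.S5N.Pair

/-! # Complex conjugation moves a point of `X0(5)` (helper34)

PROOF. Take `a b c d e f` from `exists_six`. If all were fixed by `τ` then their images under `φ` are
real numbers `a', …, f'` (`Complex.conj_eq_iff_real`), `Root5` for the real number `j'` with
`φ j = j'`, pairwise distinct. By `pair_real` each of the 15 products of pairs is `< 18`, but their
sum is `β + β' + α α' = 315 > 270` (`six_vieta` over `K` or ℝ). -/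

namespace Pool.Agent.S5N

theorem exists_nonreal {K : Type*} [Field K] [CharZero K] [IsAlgClosed K] (τ : K →+* K)
    (φ : K →+* ℂ) (hφ : ∀ z, φ (τ z) = (starRingEnd ℂ) (φ z)) {j : K} (hj : τ j = j)
    (h0 : j ≠ 0) (h1 : j ≠ 1728) : ∃ h : K, Root5 j h ∧ τ h ≠ h := by
  by_contra hcon
  push Not at hcon
  obtain ⟨a, b, c, d, e, f, ha, hb, hc, hd, he, hf, hv⟩ := exists_six h0 h1
  have real : ∀ z : K, τ z = z → ∃ r : ℝ, φ z = (r : ℂ) := by
    intro z hz
    have h2 := hφ z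
    rw [hz] at h2
    exact Complex.conj_eq_iff_real.mp h2.symm
  obtain ⟨j', hj'⟩ := real j hj
  have hj0 : j' ≠ 0 := by
    rintro rfl
    apply h0
    apply φ.injective
    rw [hj', map_zero]
    simp
  have hj1 : j' ≠ 1728 := by
    rintro rfl
    apply h1
    apply φ.injective
    rw [hj', map_ofNat]
    simp
  have root : ∀ z, Root5 j z → ∃ r : ℝ, φ z = (r : ℂ) ∧ Root5 j' r := by
    intro z hz
    obtain ⟨r, hr⟩ := real z (hcon z hz)
    refine ⟨r, hr, ?_, ?_⟩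
    · rintro rfl
      apply hz.1
      apply φ.injective
      rw [hr, map_zero]
      simp
    · have h2 := congrArg φ hz.2
      simp only [map_mul, map_pow, map_add, map_ofNat, hr, hj'] at h2
      exact_mod_cast h2
  obtain ⟨a', ha1, ha2⟩ := root a ha
  obtain ⟨b', hb1, hb2⟩ := root b hb
  obtain ⟨c', hc1, hc2⟩ := root c hc
  obtain ⟨d', hd1, hd2⟩ := root d hd
  obtain ⟨e', he1, he2⟩ := root e he
  obtain ⟨f', hf1, hf2⟩ := root f hf
  have hv' : vdm a' b' c' d' e' f' ≠ 0 := by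
    intro h
    apply hv
    apply φ.injective
    have h2 : φ (vdm a b c d e f) = ((vdm a' b' c' d' e' f' : ℝ) : ℂ) := by
      simp only [vdm, map_mul, map_sub, ha1, hb1, hc1, hd1, he1, hf1, Complex.ofReal_mul,
        Complex.ofReal_sub]
    rw [h2, h]
    simp
  obtain ⟨-, h315, -⟩ := six_vieta ha2 hb2 hc2 hd2 he2 hf2 hv' rfl rfl rfl rfl rfl rfl
  simp only [vdm, mul_ne_zero_iff, sub_ne_zero] at hv'
  obtain ⟨⟨⟨⟨⟨⟨⟨⟨⟨⟨⟨⟨⟨⟨hab, hac⟩, had⟩, hae⟩, haf⟩, hbc⟩, hbd⟩, hbe⟩, hbf⟩, hcd⟩, hce⟩, hcf⟩,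
    hde⟩, hdf⟩, hef⟩ := hv'
  have k1 := pair_real hj0 hj1 ha2 hb2 hab
  have k2 := pair_real hj0 hj1 ha2 hc2 hac
  have k3 := pair_real hj0 hj1 ha2 hd2 had
  have k4 := pair_real hj0 hj1 ha2 he2 hae
  have k5 := pair_real hj0 hj1 ha2 hf2 haf
  have k6 := pair_real hj0 hj1 hb2 hc2 hbc
  have k7 := pair_real hj0 hj1 hb2 hd2 hbd
  have k8 := pair_real hj0 hj1 hb2 he2 hbe
  have k9 := pair_real hj0 hj1 hb2 hf2 hbf
  have k10 := pair_real hj0 hj1 hc2 hd2 hcd
  have k11 := pair_real hj0 hj1 hc2 he2 hce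
  have k12 := pair_real hj0 hj1 hc2 hf2 hcf
  have k13 := pair_real hj0 hj1 hd2 he2 hde
  have k14 := pair_real hj0 hj1 hd2 hf2 hdf
  have k15 := pair_real hj0 hj1 he2 hf2 hef
  linarith

end Pool.Agent.S5N
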