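import Pool.Agent.S5N.Alg5
import Pool.Agent.H42M.ModAb

/-! # Points of order 5 and points of `X0(5)` (helper34)

`Hof R h`: the point `R ≠ 0` satisfies `5 R = 0` and `h` is the point of `X0(5)` given by the
subgroup generated by `R`. Tools: `H42M.ModPts` (`dup'`, `exists_some`), `H42M.ModTor` (`Xof`,
`Xof.unique`, `Xof.eq_or`, `exists_Xof`, `exists_point`), `H42M.ModMain.sym5` (copy it),
`H42M.ModAb` (`act_Xof`); compare the proof of `H42M.five`.
PROOFS. `exists_Hof`: `X₁`, `X₂` the coordinates of `R`, `R + R`; `X₁ ≠ X₂` (`Xof.eq_or`), `dup'` for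
`R` and for `R + R` (`(R + R) + (R + R) = -R`), `sym5`. `Hof.unique`: `Xof.unique`. `Hof.neg`:
`Xof.neg`. `Hof.double`: the two coordinates are exchanged. `Hof.eq_or`: `rel_inj` gives the same sum
and product of the two coordinates, so the coordinate of `R'` is `X₁` or `X₂`; `Xof.eq_or`.
`Hof.root`: `root_of_rel`. `exists_of_root`: `rel_of_root` gives `s p`; let `d ^ 2 = s ^ 2 - 4 p`,
`X₁ = (s + d)/2`, `X₂ = (s - d)/2`, `X₁ ≠ X₂`; from `Rel5` the two duplication relations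
`4 X₂ (X₁^3 + A X₁ + B) = X₁^4 - 2 A X₁^2 - 8 B X₁ + A^2` and the same with `X₁`, `X₂` exchanged
(converse of `sym5`; linear combinations of the relations). Let `R` have coordinate `X₁`
(`exists_point`). `X₁^3 + A X₁ + B ≠ 0` (else also `X₁^4 - 2 A X₁^2 - 8 B X₁ + A^2 = 0` and the
discriminant vanishes), so `R + R ≠ 0` and by `dup'` its coordinate is `X₂`; in the same way
`(R + R) + (R + R)` has coordinate `X₁`, so it is `R` or `-R`; `R` would give `R + R + R = 0`,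
`R + R = -R`, `X₂ = X₁`. `act_Hof`: `act_Xof` and `σ` fixes the coefficients. -/

namespace Pool.Agent.S5N

open Pool.Agent.S5M Pool.Agent.H42M WeierstrassCurve WeierstrassCurve.Affine

section Points

variable {K : Type*} [Field K] [DecidableEq K] {W : Affine K}

/-- `h` is the point of `X0(5)` given by the point `R` of order 5 -/
def Hof (R : W.Point) (h : K) : Prop :=
  ∃ X₁ X₂ : K, Xof R X₁ ∧ Xof (R + R) X₂ ∧ R + R + (R + R) = -R ∧
    Rel5 (-27 * W.c₄) (-54 * W.c₆) (X₁ + X₂) (X₁ * X₂) ∧ h = hfun (-27 * W.c₄) (X₁ + X₂) (X₁ * X₂)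

/-- symmetric relations from the duplication formula -/
private lemma sym5' {K : Type*} [Field K] {A B x₁ x₂ : K} (hne : x₁ ≠ x₂)
    (h1 : 4 * x₂ * (x₁ ^ 3 + A * x₁ + B) = x₁ ^ 4 - 2 * A * x₁ ^ 2 - 8 * B * x₁ + A ^ 2)
    (h2 : 4 * x₁ * (x₂ ^ 3 + A * x₂ + B) = x₂ ^ 4 - 2 * A * x₂ ^ 2 - 8 * B * x₂ + A ^ 2) :
    4 * B = (x₁ + x₂) ^ 3 - 6 * (x₁ * x₂) * (x₁ + x₂) - 2 * A * (x₁ + x₂) ∧
    2 * (A ^ 2 + 2 * A * (x₁ + x₂) ^ 2 - 2 * A * (x₁ * x₂) - (x₁ + x₂) ^ 4 +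
      5 * (x₁ + x₂) ^ 2 * (x₁ * x₂) + 5 * (x₁ * x₂) ^ 2) = 0 := by
  have he1 : 4 * B = (x₁ + x₂) ^ 3 - 6 * (x₁ * x₂) * (x₁ + x₂) - 2 * A * (x₁ + x₂) := by
    rw [← sub_eq_zero]
    apply (mul_eq_zero.mp _).resolve_left (sub_ne_zero.mpr hne)
    linear_combination h1 - h2
  refine ⟨he1, ?_⟩
  linear_combination -h1 - h2 + 3 * (x₁ + x₂) * he1

private lemma Xof_dup {R : W.Point} {X X' : K} (h : Xof R X) (h' : Xof (R + R) X') :
    4 * X' * (X ^ 3 + (-27 * W.c₄) * X + (-54 * W.c₆)) =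
      X ^ 4 - 2 * (-27 * W.c₄) * X ^ 2 - 8 * (-54 * W.c₆) * X + (-27 * W.c₄) ^ 2 := by
  obtain ⟨x, y, h, rfl, rfl⟩ := h
  obtain ⟨x', y', h', he, rfl⟩ := h'
  exact dup' he

private lemma Xof_add_self_ne [CharZero K] {R : W.Point} {X : K} (h : Xof R X)
    (hf : X ^ 3 + (-27 * W.c₄) * X + (-54 * W.c₆) ≠ 0) : R + R ≠ 0 := by
  obtain ⟨x, y, h, rfl, rfl⟩ := h
  intro h0
  have hy : y = W.negY x y := by
    by_contra hy
    rw [Point.add_self_of_Y_ne hy] at h0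
    exact Point.some_ne_zero _ h0
  apply hf
  have heq := (W.equation_iff x y).mp h.1
  have hy2 : 2 * y + W.a₁ * x + W.a₃ = 0 := by
    rw [negY] at hy
    linear_combination hy
  rw [c₄, c₆, b₂, b₄, b₆]
  linear_combination 11664 * (2 * y + W.a₁ * x + W.a₃) * hy2 - 46656 * heq

theorem exists_Hof [CharZero K] {R : W.Point} (hR : R ≠ 0) (h5 : R + R + (R + R) = -R) :
    ∃ h, Hof R h := by
  have h2 : R + R ≠ 0 := by
    intro h0
    rw [h0, add_zero] at h5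
    exact hR (neg_eq_zero.mp h5.symm)
  obtain ⟨X₁, hX₁⟩ := exists_Xof hR
  obtain ⟨X₂, hX₂⟩ := exists_Xof h2
  have hne : X₁ ≠ X₂ := by
    rintro rfl
    rcases hX₁.eq_or hX₂ with h | h
    · exact hR (left_eq_add.mp h)
    · have h3 : R + R = -R := by rw [h, neg_neg, ← h]
      rw [h3] at h5
      exact hR (neg_eq_zero.mp (add_eq_left.mp h5))
  have hd1 := Xof_dup hX₁ hX₂
  have hX₁' : Xof (R + R + (R + R)) X₁ := by
    rw [h5]
    exact hX₁.neg
  have hd2 := Xof_dup hX₂ hX₁'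
  obtain ⟨e1, e2⟩ := sym5' hne hd1 hd2
  refine ⟨_, X₁, X₂, hX₁, hX₂, h5, ⟨e1, ?_, ?_⟩, rfl⟩
  · exact (mul_eq_zero.mp e2).resolve_left two_ne_zero
  · intro h0
    have h3 : (X₁ - X₂) ^ 2 = 0 := by linear_combination h0
    exact hne (sub_eq_zero.mp (pow_eq_zero_iff (two_ne_zero) |>.mp h3))

theorem Hof.unique {R : W.Point} {h h' : K} (hh : Hof R h) (hh' : Hof R h') : h = h' := by
  obtain ⟨X₁, X₂, a1, a2, -, -, rfl⟩ := hh
  obtain ⟨X₁', X₂', b1, b2, -, -, rfl⟩ := hh'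
  rw [a1.unique b1, a2.unique b2]

theorem Hof.neg {R : W.Point} {h : K} (hh : Hof R h) : Hof (-R) h := by
  obtain ⟨X₁, X₂, a1, a2, a3, a4, rfl⟩ := hh
  refine ⟨X₁, X₂, a1.neg, ?_, ?_, a4, rfl⟩
  · rw [← neg_add]
    exact a2.neg
  · rw [← neg_add, ← neg_add, a3]

theorem Hof.double {R : W.Point} {h : K} (hh : Hof R h) : Hof (R + R) h := by
  obtain ⟨X₁, X₂, a1, a2, a3, a4, rfl⟩ := hh
  refine ⟨X₂, X₁, a2, ?_, ?_, ?_, ?_⟩
  · rw [a3]
    exact a1.neg
  · rw [a3, neg_add]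
  · rw [add_comm X₂ X₁, mul_comm X₂ X₁]
    exact a4
  · rw [add_comm X₂ X₁, mul_comm X₂ X₁]

theorem Hof.root [CharZero K] {j : K} (hj : JRel (-27 * W.c₄) (-54 * W.c₆) j) {R : W.Point} {h : K}
    (hh : Hof R h) : Root5 j h := by
  obtain ⟨X₁, X₂, a1, a2, a3, a4, rfl⟩ := hh
  exact root_of_rel hj a4

theorem Hof.eq_or [CharZero K] {j : K} (hj : JRel (-27 * W.c₄) (-54 * W.c₆) j) (h0 : j ≠ 0)
    (h1 : j ≠ 1728) {R R' : W.Point} {h : K} (hh : Hof R h) (hh' : Hof R' h) :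
    R' = R ∨ R' = -R ∨ R' = R + R ∨ R' = -(R + R) := by
  obtain ⟨X₁, X₂, a1, a2, a3, a4, a5⟩ := hh
  obtain ⟨X₁', X₂', b1, b2, b3, b4, b5⟩ := hh'
  obtain ⟨e1, e2⟩ := rel_inj hj h0 h1 a4 b4 (a5.symm.trans b5)
  have h2 : (X₁' - X₁) * (X₁' - X₂) = 0 := by linear_combination e2 - X₁' * e1
  rcases mul_eq_zero.mp h2 with h3 | h3
  · rw [sub_eq_zero.mp h3] at b1
    rcases b1.eq_or a1 with h | h
    · exact Or.inl h
    · exact Or.inr (Or.inl h)
  · rw [sub_eq_zero.mp h3] at b1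
    rcases b1.eq_or a2 with h | h
    · exact Or.inr (Or.inr (Or.inl h))
    · exact Or.inr (Or.inr (Or.inr h))

theorem exists_of_root [CharZero K] [IsAlgClosed K] [W.IsElliptic] {j : K}
    (hj : JRel (-27 * W.c₄) (-54 * W.c₆) j) (h0 : j ≠ 0) (h1 : j ≠ 1728) {h : K}
    (hr : Root5 j h) : ∃ R : W.Point, Hof R h := by
  obtain ⟨s, p, ⟨r1, r2, r3⟩, hs⟩ := rel_of_root hj h0 h1 hr
  obtain ⟨d, hd⟩ := IsAlgClosed.exists_pow_nat_eq (s ^ 2 - 4 * p) (n := 2) two_pos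
  set A := -27 * W.c₄ with hA
  set B := -54 * W.c₆ with hB
  obtain ⟨X₁, X₂, hX12, hX12'⟩ : ∃ X₁ X₂ : K, X₁ + X₂ = s ∧ X₁ * X₂ = p := by
    refine ⟨(s + d) / 2, (s - d) / 2, by ring, ?_⟩
    linear_combination -hd / 4
  have hne : X₁ ≠ X₂ := by
    rintro rfl
    apply r3
    rw [← hX12, ← hX12']
    ring
  rw [← hX12, ← hX12'] at r1 r2
  have hR1 : 4 * X₂ * (X₁ ^ 3 + A * X₁ + B) =
      X₁ ^ 4 - 2 * A * X₁ ^ 2 - 8 * B * X₁ + A ^ 2 := by
    linear_combination (3 * (X₁ + X₂) + (X₁ - X₂)) / 2 * r1 - r2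
  have hR2 : 4 * X₁ * (X₂ ^ 3 + A * X₂ + B) =
      X₂ ^ 4 - 2 * A * X₂ ^ 2 - 8 * B * X₂ + A ^ 2 := by
    linear_combination (3 * (X₁ + X₂) - (X₁ - X₂)) / 2 * r1 - r2
  have hf1 : X₁ ^ 3 + A * X₁ + B ≠ 0 := by
    intro h2
    apply hj.1
    apply common_root h2
    rw [h2] at hR1
    linear_combination 4 * X₁ * h2 + hR1
  have hf2 : X₂ ^ 3 + A * X₂ + B ≠ 0 := by
    intro h2
    apply hj.1
    apply common_root h2
    rw [h2] at hR2
    linear_combination 4 * X₂ * h2 + hR2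
  have h4 : (4 : K) ≠ 0 := by norm_num
  obtain ⟨R, hR⟩ := exists_point (W := W) X₁
  have hRR := Xof_add_self_ne hR hf1
  obtain ⟨X', hX'⟩ := exists_Xof hRR
  have e1 : X' = X₂ := by
    have h2 := Xof_dup hR hX'
    rw [← hA, ← hB] at h2
    apply mul_left_cancel₀ h4
    apply mul_right_cancel₀ hf1
    rw [h2, hR1]
  rw [e1] at hX'
  have hRRR := Xof_add_self_ne hX' hf2
  obtain ⟨X'', hX''⟩ := exists_Xof hRRR
  have e2 : X'' = X₁ := by
    have h2 := Xof_dup hX' hX''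
    rw [← hA, ← hB] at h2
    apply mul_left_cancel₀ h4
    apply mul_right_cancel₀ hf2
    rw [h2, hR2]
  rw [e2] at hX''
  have h5 : R + R + (R + R) = -R := by
    rcases hX''.eq_or hR with h | h
    · exfalso
      have h6 : R + R = -R := by
        have h7 : R + (R + R) = 0 := by
          have h8 : R + (R + (R + R)) = R + 0 := by
            rw [add_zero, ← add_assoc]
            exact h
          exact add_left_cancel h8
        exact (neg_eq_of_add_eq_zero_right h7).symm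
      rw [h6] at hX'
      exact hne (hR.neg.unique hX')
    · exact h
  refine ⟨R, X₁, X₂, hR, hX', h5, ⟨r1, r2, ?_⟩, ?_⟩
  · rw [hX12, hX12']
    exact r3
  · rw [hX12, hX12']
    exact hs.symm

end Points

section Gal

variable {F K : Type*} [Field F] [Field K] [DecidableEq K] [Algebra F K] {W : WeierstrassCurve F}

theorem act_Hof (σ : K ≃ₐ[F] K) {R : (WeierstrassCurve.Affine.baseChange W K).Point} {h : K}
    (hh : Hof R h) : Hof (act W σ R) (σ h) := by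
  have hc4 : (WeierstrassCurve.Affine.baseChange W K).c₄ = algebraMap F K W.c₄ := W.map_c₄ _
  have hc6 : (WeierstrassCurve.Affine.baseChange W K).c₆ = algebraMap F K W.c₆ := W.map_c₆ _
  obtain ⟨X₁, X₂, a1, a2, a3, ⟨r1, r2, r3⟩, rfl⟩ := hh
  refine ⟨σ X₁, σ X₂, act_Xof σ a1, ?_, ?_, ⟨?_, ?_, ?_⟩, ?_⟩
  · rw [← map_add]
    exact act_Xof σ a2
  · rw [← map_add, ← map_add, a3, map_neg]
  · rw [hc4, hc6] at r1 ⊢
    have := congrArg σ r1
    simpa only [map_add, map_mul, map_sub, map_pow, map_neg, map_ofNat, AlgEquiv.commutes] using this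
  · rw [hc4] at r2 ⊢
    have := congrArg σ r2
    simpa only [map_add, map_mul, map_sub, map_pow, map_neg, map_ofNat, map_zero,
      AlgEquiv.commutes] using this
  · intro h0
    apply r3
    apply σ.injective
    simpa only [map_add, map_mul, map_sub, map_pow, map_neg, map_ofNat, map_zero,
      AlgEquiv.commutes] using h0
  · rw [hc4]
    unfold hfun
    simp only [map_add, map_mul, map_sub, map_pow, map_neg, map_ofNat, map_div₀,
      AlgEquiv.commutes]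

end Gal

end Pool.Agent.S5N
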