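import Pool.Agent.S5N.FrameDef
import Pool.Agent.S5N.Pts5
import Pool.Agent.S5N.NotReal

/-! # A basis of the 5-torsion adapted to complex conjugation (helper34)

Let `K` be the algebraically closed field. PROOF of `basis5`. By `exists_nonreal` (with
`τ = c`) there is `h` with `Root5 j h`, `c h ≠ h`; by `exists_of_root` a point `R` with `Hof R h`.
`P = R + c R`, `Q = R - c R`. `c P = P`, `c Q = -Q`. `P ≠ 0`: otherwise `c R = -R` and `act_Hof`,
`Hof.neg`, `Hof.unique` give `c h = h`; `Q ≠ 0` in the same way. `5 P = 5 Q = 0`. If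
`x P + y Q = 0`, apply `c`: `2 x P = 0`, `2 y Q = 0`, so 5 divides `x` and `y` (a nonzero `P` with
`5 P = 0` has order 5). The last claim: let `5 R = 0`, `R ≠ 0`. The six points
`P, Q, P + Q, P + 2 Q, P + 3 Q, P + 4 Q` are pairwise not proportional, so by `exists_Hof`,
`Hof.eq_or` their points of `X0(5)` are six distinct roots `Root5 j _`; by `six_prod` the root of `R`
is one of them, and `Hof.eq_or` gives `R = ± R'` or `± 2 R'` with `R'` one of the six.
PROOF of `frame5`. Let `P`, `Q` be as in `basis5`. For `σ` write `σ P = a P + g Q`, `σ Q = b P + d Q`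
with `a b g d : ZMod 5` (as coefficients use `ZMod.val`, or integers and casts); they are unique, so
`m σ = !![a, b; g, d]` is multiplicative and `m 1 = 1`. `val x y` := the (unique) `h` with
`Hof (x P + y Q) h` for `(x, y) ≠ 0` (choose any value at `(0, 0)`). `smul`: `Hof (k R) = Hof R` for
`k = 1, 2, 3, 4` by `Hof.neg`, `Hof.double`. `gal`: `act_Hof`. `ne`: the six points are pairwise not
proportional. -/

namespace Pool.Agent.S5N

open Pool.Agent.S5M Pool.Agent.H42M WeierstrassCurve WeierstrassCurve.Affine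

section Abstract

variable {M : Type*} [AddCommGroup M]

private lemma five_iff (P : M) : P + P + (P + P) = -P ↔ (5 : ℤ) • P = 0 := by
  constructor
  · intro h
    have h1 : (5 : ℤ) • P = (P + P + (P + P)) + P := by module
    rw [h1, h, neg_add_cancel]
  · intro h
    have h1 : P + P + (P + P) = (5 : ℤ) • P - P := by module
    rw [h1, h, zero_sub]

private lemma dvd_of_zsmul {P : M} (hP : P ≠ 0) (h5 : (5 : ℤ) • P = 0) {x : ℤ}
    (hx : x • P = 0) : 5 ∣ x := by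
  by_contra hc
  have hp : Prime (5 : ℤ) := by norm_num
  obtain ⟨u, v, huv⟩ := (hp.coprime_iff_not_dvd).mpr hc
  apply hP
  have h1 : P = (u * 5 + v * x) • P := by rw [huv, one_zsmul]
  rw [h1, add_zsmul, mul_zsmul, mul_zsmul, h5, hx, zsmul_zero, zsmul_zero, add_zero]

/-- the homomorphism `x ↦ x P` on `ZMod 5` -/
private noncomputable def g5 (P : M) (h : (5 : ℤ) • P = 0) : ZMod 5 →+ M :=
  ZMod.lift 5 ⟨zmultiplesHom M P, by simpa using h⟩

private lemma g5_coe {P : M} (h : (5 : ℤ) • P = 0) (x : ℤ) : g5 P h (x : ZMod 5) = x • P := by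
  simp [g5]

private lemma g5_one {P : M} (h : (5 : ℤ) • P = 0) : g5 P h 1 = P := by
  have := g5_coe h 1
  simpa using this

/-- the point with coordinates `x`, `y` -/
private noncomputable def pt {P Q : M} (hP : (5 : ℤ) • P = 0) (hQ : (5 : ℤ) • Q = 0)
    (x y : ZMod 5) : M := g5 P hP x + g5 Q hQ y

variable {P Q : M} (hP : (5 : ℤ) • P = 0) (hQ : (5 : ℤ) • Q = 0)

include hP hQ

private lemma pt_coe (x y : ℤ) : pt hP hQ (x : ZMod 5) (y : ZMod 5) = x • P + y • Q := by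
  rw [pt, g5_coe, g5_coe]

private lemma pt_add (x y x' y' : ZMod 5) :
    pt hP hQ (x + x') (y + y') = pt hP hQ x y + pt hP hQ x' y' := by
  simp only [pt, map_add]
  abel

private lemma pt_neg (x y : ZMod 5) : pt hP hQ (-x) (-y) = -pt hP hQ x y := by
  simp only [pt, map_neg]
  abel

private lemma pt_zsmul (n : ℤ) (x y : ZMod 5) :
    pt hP hQ ((n : ZMod 5) * x) ((n : ZMod 5) * y) = n • pt hP hQ x y := by
  simp only [pt, ← zsmul_eq_mul, map_zsmul, zsmul_add]

private lemma pt_eq_zero (hind : ∀ x y : ℤ, x • P + y • Q = 0 → 5 ∣ x ∧ 5 ∣ y) {x y : ZMod 5}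
    (h : pt hP hQ x y = 0) : x = 0 ∧ y = 0 := by
  obtain ⟨a, rfl⟩ := ZMod.intCast_surjective x
  obtain ⟨b, rfl⟩ := ZMod.intCast_surjective y
  rw [pt_coe] at h
  obtain ⟨h1, h2⟩ := hind a b h
  exact ⟨(ZMod.intCast_zmod_eq_zero_iff_dvd a 5).mpr (by exact_mod_cast h1),
    (ZMod.intCast_zmod_eq_zero_iff_dvd b 5).mpr (by exact_mod_cast h2)⟩

private lemma pt_inj (hind : ∀ x y : ℤ, x • P + y • Q = 0 → 5 ∣ x ∧ 5 ∣ y) {x y x' y' : ZMod 5}
    (h : pt hP hQ x y = pt hP hQ x' y') : x = x' ∧ y = y' := by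
  have h1 : pt hP hQ (x + -x') (y + -y') = 0 := by
    rw [pt_add, pt_neg, h, add_neg_cancel]
  obtain ⟨h2, h3⟩ := pt_eq_zero hP hQ hind h1
  exact ⟨eq_of_sub_eq_zero (by rw [sub_eq_add_neg, h2]),
    eq_of_sub_eq_zero (by rw [sub_eq_add_neg, h3])⟩

private lemma pt_tor (x y : ZMod 5) : (5 : ℤ) • pt hP hQ x y = 0 := by
  rw [← pt_zsmul]
  have h5 : ((5 : ℤ) : ZMod 5) = 0 := by decide
  rw [h5, zero_mul, zero_mul]
  simp [pt]

private lemma pt_of_eq_or {R : M} {x y : ZMod 5}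
    (h : R = pt hP hQ x y ∨ R = -pt hP hQ x y ∨ R = pt hP hQ x y + pt hP hQ x y ∨
      R = -(pt hP hQ x y + pt hP hQ x y)) : ∃ k : ZMod 5, R = pt hP hQ (k * x) (k * y) := by
  rcases h with h | h | h | h
  · exact ⟨((1 : ℤ) : ZMod 5), by rw [pt_zsmul, one_zsmul, h]⟩
  · exact ⟨((-1 : ℤ) : ZMod 5), by rw [pt_zsmul, neg_one_zsmul, h]⟩
  · exact ⟨((2 : ℤ) : ZMod 5), by rw [pt_zsmul, two_zsmul, h]⟩
  · exact ⟨((-2 : ℤ) : ZMod 5), by rw [pt_zsmul, neg_zsmul, two_zsmul, h]⟩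

end Abstract

section Points

variable {K : Type*} [Field K] [DecidableEq K] {W : Affine K}

private lemma hof_ne_zero {R : W.Point} {h : K} (hh : Hof R h) : R ≠ 0 := by
  obtain ⟨X₁, X₂, h1, -⟩ := hh
  exact h1.ne_zero

private lemma hof_tor {R : W.Point} {h : K} (hh : Hof R h) : (5 : ℤ) • R = 0 := by
  obtain ⟨X₁, X₂, -, -, h1, -⟩ := hh
  exact (five_iff R).mp h1

variable [CharZero K] {j : K} (hj : JRel (-27 * W.c₄) (-54 * W.c₆) j) (h0 : j ≠ 0)
  (h1 : j ≠ 1728) {P Q : W.Point} (hP : (5 : ℤ) • P = 0) (hQ : (5 : ℤ) • Q = 0)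
  (hind : ∀ x y : ℤ, x • P + y • Q = 0 → 5 ∣ x ∧ 5 ∣ y)

include hj h0 h1 hind

private lemma prop_of_hof {x y x' y' : ZMod 5} {h : K} (hh : Hof (pt hP hQ x y) h)
    (hh' : Hof (pt hP hQ x' y') h) : ∃ k : ZMod 5, x' = k * x ∧ y' = k * y := by
  obtain ⟨k, hk⟩ := pt_of_eq_or hP hQ (hh.eq_or hj h0 h1 hh')
  exact ⟨k, pt_inj hP hQ hind hk⟩

private lemma exists_val :
    ∃ val : ZMod 5 → ZMod 5 → K, (∀ x y, (x ≠ 0 ∨ y ≠ 0) → Hof (pt hP hQ x y) (val x y)) ∧
      vdm (val 1 0) (val 0 1) (val 1 1) (val 1 2) (val 1 3) (val 1 4) ≠ 0 := by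
  have hex : ∀ x y : ZMod 5, ∃ h : K, (x ≠ 0 ∨ y ≠ 0) → Hof (pt hP hQ x y) h := by
    intro x y
    by_cases hxy : x ≠ 0 ∨ y ≠ 0
    · obtain ⟨h, hh⟩ := exists_Hof (R := pt hP hQ x y) (by
        intro hz
        obtain ⟨hx, hy⟩ := pt_eq_zero hP hQ hind hz
        rcases hxy with hxy | hxy
        · exact hxy hx
        · exact hxy hy) ((five_iff _).mpr (pt_tor hP hQ x y))
      exact ⟨h, fun _ => hh⟩
    · exact ⟨0, fun h => absurd h hxy⟩
  choose val hval using hex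
  refine ⟨val, hval, ?_⟩
  have hne : ∀ x y x' y' : ZMod 5, (x ≠ 0 ∨ y ≠ 0) → (x' ≠ 0 ∨ y' ≠ 0) →
      (∀ k : ZMod 5, ¬ (x' = k * x ∧ y' = k * y)) → val x y - val x' y' ≠ 0 := by
    intro x y x' y' hxy hxy' hk he
    rw [sub_eq_zero] at he
    have h2 := hval x' y' hxy'
    rw [← he] at h2
    obtain ⟨k, hk'⟩ := prop_of_hof hj h0 h1 hP hQ hind (hval x y hxy) h2
    exact hk k hk'
  unfold vdm
  refine mul_ne_zero (mul_ne_zero (mul_ne_zero (mul_ne_zero (mul_ne_zero (mul_ne_zero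
    (mul_ne_zero (mul_ne_zero (mul_ne_zero (mul_ne_zero (mul_ne_zero (mul_ne_zero (mul_ne_zero
    (mul_ne_zero ?_ ?_) ?_) ?_) ?_) ?_) ?_) ?_) ?_) ?_) ?_) ?_) ?_) ?_) ?_
  all_goals exact hne _ _ _ _ (by decide) (by decide) (by decide)

private lemma span5 (R : W.Point) (hR : R + R + (R + R) = -R) :
    ∃ x y : ZMod 5, R = pt hP hQ x y := by
  by_cases hR0 : R = 0
  · exact ⟨0, 0, by simp [pt, hR0]⟩
  obtain ⟨h, hh⟩ := exists_Hof hR0 hR
  obtain ⟨val, hval, hv⟩ := exists_val hj h0 h1 hP hQ hind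
  have a1 := hval 1 0 (by decide)
  have a2 := hval 0 1 (by decide)
  have a3 := hval 1 1 (by decide)
  have a4 := hval 1 2 (by decide)
  have a5 := hval 1 3 (by decide)
  have a6 := hval 1 4 (by decide)
  have h3 := six_prod (a1.root hj) (a2.root hj) (a3.root hj) (a4.root hj) (a5.root hj)
    (a6.root hj) hv h
  rw [(hh.root hj).2, sub_self] at h3
  have key : ∀ x y : ZMod 5, Hof (pt hP hQ x y) (val x y) → h - val x y = 0 →
      ∃ x y : ZMod 5, R = pt hP hQ x y := by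
    intro x y hxy he
    rw [sub_eq_zero] at he
    rw [he] at hh
    obtain ⟨k, hk⟩ := pt_of_eq_or hP hQ (hxy.eq_or hj h0 h1 hh)
    exact ⟨_, _, hk⟩
  have h4 := h3.symm
  simp only [mul_eq_zero] at h4
  rcases h4 with ((((h4 | h4) | h4) | h4) | h4) | h4
  · exact key _ _ a1 h4
  · exact key _ _ a2 h4
  · exact key _ _ a3 h4
  · exact key _ _ a4 h4
  · exact key _ _ a5 h4
  · exact key _ _ a6 h4

end Points

variable {F K : Type*} [Field F] [Field K] [CharZero K] [IsAlgClosed K] [DecidableEq K]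
  [Algebra F K] {W : WeierstrassCurve F} [(WeierstrassCurve.Affine.baseChange W K).IsElliptic]

theorem basis5 {j : F} (hj : JRel (-27 * (WeierstrassCurve.Affine.baseChange W K).c₄)
      (-54 * (WeierstrassCurve.Affine.baseChange W K).c₆) (algebraMap F K j))
    (h0 : j ≠ 0) (h1 : j ≠ 1728) (c : K ≃ₐ[F] K) (φ : K →+* ℂ)
    (hφ : ∀ z, φ (c z) = (starRingEnd ℂ) (φ z)) (hcc : ∀ z, c (c z) = z) :
    ∃ P Q : (WeierstrassCurve.Affine.baseChange W K).Point,
      P + P + (P + P) = -P ∧ Q + Q + (Q + Q) = -Q ∧ act W c P = P ∧ act W c Q = -Q ∧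
      (∀ x y : ℤ, x • P + y • Q = 0 → 5 ∣ x ∧ 5 ∣ y) ∧
      ∀ R : (WeierstrassCurve.Affine.baseChange W K).Point, R + R + (R + R) = -R →
        ∃ x y : ℤ, R = x • P + y • Q := by
  have h0K : algebraMap F K j ≠ 0 := fun h => h0 ((map_eq_zero _).mp h)
  have h1K : algebraMap F K j ≠ 1728 := by
    intro h
    apply h1
    apply (algebraMap F K).injective
    rw [h, map_ofNat]
  obtain ⟨h, hr, hch⟩ := exists_nonreal ((c : K →ₐ[F] K) : K →+* K) φ hφ (j := algebraMap F K j)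
    (c.commutes j) h0K h1K
  obtain ⟨R, hR⟩ := exists_of_root hj h0K h1K hr
  have hcR : Hof (act W c R) (c h) := act_Hof c hR
  have hcc' : ∀ R : (WeierstrassCurve.Affine.baseChange W K).Point, act W c (act W c R) = R := by
    intro R
    rw [← act_mul, show c * c = 1 from AlgEquiv.ext hcc, act_one]
  have hR5 := hof_tor hR
  have hcR5 := hof_tor hcR
  obtain ⟨P, hPdef⟩ : ∃ P, P = R + act W c R := ⟨_, rfl⟩
  obtain ⟨Q, hQdef⟩ : ∃ Q, Q = R - act W c R := ⟨_, rfl⟩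
  have hP5 : (5 : ℤ) • P = 0 := by rw [hPdef, zsmul_add, hR5, hcR5, add_zero]
  have hQ5 : (5 : ℤ) • Q = 0 := by rw [hQdef, zsmul_sub, hR5, hcR5, sub_zero]
  have hP0 : P ≠ 0 := by
    intro hz
    have h2 : act W c R = -R := by
      rw [hPdef] at hz
      exact eq_neg_of_add_eq_zero_right hz
    rw [h2] at hcR
    exact hch (hcR.unique hR.neg)
  have hQ0 : Q ≠ 0 := by
    intro hz
    have h2 : act W c R = R := by
      rw [hQdef] at hz
      exact (sub_eq_zero.mp hz).symm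
    rw [h2] at hcR
    exact hch (hcR.unique hR)
  have hcP : act W c P = P := by rw [hPdef, map_add, hcc', add_comm]
  have hcQ : act W c Q = -Q := by rw [hQdef, map_sub, hcc', neg_sub]
  have hind : ∀ x y : ℤ, x • P + y • Q = 0 → 5 ∣ x ∧ 5 ∣ y := by
    intro x y hxy
    have h2 : x • P - y • Q = 0 := by
      have h3 := congrArg (act W c) hxy
      rw [map_add, map_zsmul, map_zsmul, hcP, hcQ, map_zero, zsmul_neg, ← sub_eq_add_neg] at h3
      exact h3
    have h4 : (2 * x) • P = 0 := by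
      have h5 : (2 * x) • P = (x • P + y • Q) + (x • P - y • Q) := by module
      rw [h5, hxy, h2, add_zero]
    have h6 : (2 * y) • Q = 0 := by
      have h5 : (2 * y) • Q = (x • P + y • Q) - (x • P - y • Q) := by module
      rw [h5, hxy, h2, sub_zero]
    have h7 := dvd_of_zsmul hP0 hP5 h4
    have h8 := dvd_of_zsmul hQ0 hQ5 h6
    constructor <;> omega
  refine ⟨P, Q, (five_iff P).mpr hP5, (five_iff Q).mpr hQ5, hcP, hcQ, hind, ?_⟩
  intro R' hR'
  obtain ⟨x, y, hxy⟩ := span5 hj h0K h1K hP5 hQ5 hind R' hR'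
  obtain ⟨a, rfl⟩ := ZMod.intCast_surjective x
  obtain ⟨b, rfl⟩ := ZMod.intCast_surjective y
  exact ⟨a, b, by rw [hxy, pt_coe]⟩

theorem frame5 {j : F} (hj : JRel (-27 * (WeierstrassCurve.Affine.baseChange W K).c₄)
      (-54 * (WeierstrassCurve.Affine.baseChange W K).c₆) (algebraMap F K j))
    (h0 : j ≠ 0) (h1 : j ≠ 1728) (c : K ≃ₐ[F] K) (φ : K →+* ℂ)
    (hφ : ∀ z, φ (c z) = (starRingEnd ℂ) (φ z)) (hcc : ∀ z, c (c z) = z) :
    ∃ (m : (K ≃ₐ[F] K) →* Matrix (Fin 2) (Fin 2) (ZMod 5)) (val : ZMod 5 → ZMod 5 → K),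
      Frame m val (algebraMap F K j) ∧ m c = !![1, 0; 0, -1] ∧
      ∀ σ τ : K ≃ₐ[F] K, (∀ R : (WeierstrassCurve.Affine.baseChange W K).Point,
        R + R + (R + R) = -R → act W σ (act W τ R) = act W τ (act W σ R)) →
          m σ * m τ = m τ * m σ := by
  have h0K : algebraMap F K j ≠ 0 := fun h => h0 ((map_eq_zero _).mp h)
  have h1K : algebraMap F K j ≠ 1728 := by
    intro h
    apply h1
    apply (algebraMap F K).injective
    rw [h, map_ofNat]
  obtain ⟨P, Q, hP, hQ, hcP, hcQ, hind, hspan⟩ := basis5 (W := W) hj h0 h1 c φ hφ hcc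
  have hP5 := (five_iff P).mp hP
  have hQ5 := (five_iff Q).mp hQ
  have hsp : ∀ R : (WeierstrassCurve.Affine.baseChange W K).Point, R + R + (R + R) = -R →
      ∃ x y : ZMod 5, R = pt hP5 hQ5 x y := by
    intro R hR
    obtain ⟨x, y, hxy⟩ := hspan R hR
    exact ⟨x, y, by rw [pt_coe, hxy]⟩
  have hinj := fun {x y x' y' : ZMod 5} (h : pt hP5 hQ5 x y = pt hP5 hQ5 x' y') =>
    pt_inj hP5 hQ5 hind h
  have hp10 : pt hP5 hQ5 1 0 = P := by
    have := pt_coe hP5 hQ5 1 0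
    simpa using this
  have hp01 : pt hP5 hQ5 0 1 = Q := by
    have := pt_coe hP5 hQ5 0 1
    simpa using this
  have hp0m : pt hP5 hQ5 0 (-1) = -Q := by
    have := pt_neg hP5 hQ5 0 1
    rw [neg_zero, hp01] at this
    exact this
  have htor : ∀ (σ : K ≃ₐ[F] K) {R : (WeierstrassCurve.Affine.baseChange W K).Point},
      R + R + (R + R) = -R → act W σ R + act W σ R + (act W σ R + act W σ R) = -act W σ R := by
    intro σ R h
    rw [← map_add, ← map_add, h, map_neg]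
  have hm : ∀ σ : K ≃ₐ[F] K, ∃ A : Matrix (Fin 2) (Fin 2) (ZMod 5),
      act W σ P = pt hP5 hQ5 (A 0 0) (A 1 0) ∧ act W σ Q = pt hP5 hQ5 (A 0 1) (A 1 1) := by
    intro σ
    obtain ⟨a, g, h2⟩ := hsp _ (htor σ hP)
    obtain ⟨b, d, h3⟩ := hsp _ (htor σ hQ)
    exact ⟨!![a, b; g, d], h2, h3⟩
  choose m hmP hmQ using hm
  have hact : ∀ (σ : K ≃ₐ[F] K) (x y : ZMod 5), act W σ (pt hP5 hQ5 x y) =
      pt hP5 hQ5 (m σ 0 0 * x + m σ 0 1 * y) (m σ 1 0 * x + m σ 1 1 * y) := by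
    intro σ x y
    obtain ⟨a, rfl⟩ := ZMod.intCast_surjective x
    obtain ⟨b, rfl⟩ := ZMod.intCast_surjective y
    rw [pt_coe, map_add, map_zsmul, map_zsmul, hmP, hmQ, ← pt_zsmul, ← pt_zsmul, ← pt_add]
    congr 1 <;> ring
  have heq : ∀ A B : Matrix (Fin 2) (Fin 2) (ZMod 5),
      pt hP5 hQ5 (A 0 0) (A 1 0) = pt hP5 hQ5 (B 0 0) (B 1 0) →
      pt hP5 hQ5 (A 0 1) (A 1 1) = pt hP5 hQ5 (B 0 1) (B 1 1) → A = B := by
    intro A B h2 h3
    obtain ⟨e1, e2⟩ := hinj h2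
    obtain ⟨e3, e4⟩ := hinj h3
    ext i k
    fin_cases i <;> fin_cases k
    · exact e1
    · exact e3
    · exact e2
    · exact e4
  have hmul : ∀ σ τ, pt hP5 hQ5 ((m σ * m τ) 0 0) ((m σ * m τ) 1 0) = act W σ (act W τ P) ∧
      pt hP5 hQ5 ((m σ * m τ) 0 1) ((m σ * m τ) 1 1) = act W σ (act W τ Q) := by
    intro σ τ
    rw [hmP τ, hmQ τ, hact, hact]
    constructor <;> simp only [Matrix.mul_apply, Fin.sum_univ_two]
  have hone : m 1 = 1 := by
    apply heq
    · rw [← hmP, act_one]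
      simpa using hp10.symm
    · rw [← hmQ, act_one]
      simpa using hp01.symm
  have hmm : ∀ σ τ, m (σ * τ) = m σ * m τ := by
    intro σ τ
    apply heq
    · rw [← hmP, act_mul, (hmul σ τ).1]
    · rw [← hmQ, act_mul, (hmul σ τ).2]
  obtain ⟨val, hval, hv⟩ := exists_val hj h0K h1K hP5 hQ5 hind
  -- a common value for the whole line
  refine ⟨⟨⟨m, hone⟩, hmm⟩, val, ⟨?_, ?_, ?_, hv⟩, ?_, ?_⟩
  · intro k x y hk
    by_cases hxy : x ≠ 0 ∨ y ≠ 0
    · have hxy' : k * x ≠ 0 ∨ k * y ≠ 0 := by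
        revert k x y; decide
      have h2 := hval _ _ hxy'
      have h3 := hval _ _ hxy
      have hk4 : ∀ k : ZMod 5, k ≠ 0 → k = ((1 : ℤ) : ZMod 5) ∨ k = ((-1 : ℤ) : ZMod 5) ∨
          k = ((2 : ℤ) : ZMod 5) ∨ k = ((-2 : ℤ) : ZMod 5) := by decide
      rcases hk4 k hk with rfl | rfl | rfl | rfl
      · rw [pt_zsmul, one_zsmul] at h2
        exact h2.unique h3
      · rw [pt_zsmul, neg_one_zsmul] at h2
        exact h2.unique h3.neg
      · rw [pt_zsmul, two_zsmul] at h2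
        exact h2.unique h3.double
      · rw [pt_zsmul, neg_zsmul, two_zsmul] at h2
        exact h2.unique h3.double.neg
    · push Not at hxy
      rw [hxy.1, hxy.2, mul_zero]
  · intro x y hxy
    exact (hval x y hxy).root hj
  · intro σ x y hxy
    have h2 := act_Hof σ (hval x y hxy)
    rw [hact] at h2
    refine h2.unique (hval _ _ ?_)
    by_contra hcon
    push Not at hcon
    have h3 := hof_ne_zero h2
    rw [hcon.1, hcon.2] at h3
    exact h3 (by simp [pt])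
  · change m c = _
    apply heq
    · rw [← hmP, hcP]
      simpa using hp10.symm
    · rw [← hmQ, hcQ]
      simpa using hp0m.symm
  · intro σ τ hst
    change m σ * m τ = m τ * m σ
    apply heq
    · rw [(hmul σ τ).1, (hmul τ σ).1, hst P hP]
    · rw [(hmul σ τ).2, (hmul τ σ).2, hst Q hQ]

end Pool.Agent.S5N
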