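import Pool.Agent.S5N.Even5

/-! # Commuting matrices over `ZMod 5` (helper34)

Let `G0` be the set of `σ` with `Z σ`. For `σ` in `G0` write `m σ = !![a, b; g, d]`; then
`m (c σ c) = !![a, -b; -g, d]` and `c σ c` is in `G0`, so the two matrices commute:
`b (a - d) = 0`, `g (a - d) = 0`. To see that an element `h` (a pair, a triple) is stable under all
`σ`, it suffices (by `hor`) to know it for `σ` in `G0` and for `c` (`σ = c (c σ)`, `c c = 1`).
CASE 1: `b = g = 0` for all `σ` in `G0`: `val 1 0` is fixed by `G0` (`σ (val 1 0) = val a 0`) and by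
`c`. First outcome.
CASE 2: some `σ0` in `G0` has `(b0, g0) ≠ (0, 0)`, so `a0 = d0`. Every `τ` in `G0` commutes with `σ0`:
`m τ = !![a, b; g, a]`, `b0 g = b g0`.
(i) `g0 = 0`: `g = 0` for all `τ`, `val 1 0` is fixed by `G0` and `c`. `b0 = 0`: `b = 0` for all `τ`,
`val 0 1` is fixed by `G0` and `c`.
(ii) `b0 g0 = 1` or `4`: choose `k` with `k ^ 2 * b0 = g0` (`k ≠ 0`; decide). Then `k ^ 2 * b = g` for
all `τ`, `τ (val 1 k) = val (a + k b) (g + k a) = val (a + k b) (k (a + k b)) = val 1 k`, and the same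
for `-k`. `c` exchanges `val 1 k`, `val 1 (-k)`. Second outcome (they are distinct by `ne`).
(iii) `b0 g0 = 2` or `3`: choose `k` with `k ^ 2 * b0 = 2 * g0` (`k ≠ 0`; decide). Then
`k ^ 2 * b = 2 * g` for all `τ` in `G0`, and `a ^ 2 - b g = 1, 4`: by `det5` if `b ≠ 0`
(`b g = 3 k^2 b^2 = 2, 3`), and if `b = 0` then `g = 0` and `a ≠ 0` (`m τ` is invertible; then the
three points below are all fixed). The three points
`val 1 0`, `val 1 k`, `val 1 (-k)` are permuted by `τ`: `τ (val 1 0) = val a g`,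
`τ (val 1 k) = val (a + k b) (g + k a)`, `τ (val 1 (-k)) = val (a - k b) (g - k a)`; finite check
over `a b g k` by `decide`: one of the six permutations holds in the form
`y x' = y' x` (lines) and use `smul`. `c` fixes the first and exchanges the other two. Third
outcome with `(a, b, c) = (val 1 0, val 1 k, val 1 (-k))` and
`(d, e, f) = (val 0 1, val 1 (2 k), val 1 (-2 k))`. -/

namespace Pool.Agent.S5N

variable {F K : Type*} [Field F] [Field K] [CharZero K] [Algebra F K]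
  {m : (K ≃ₐ[F] K) →* Matrix (Fin 2) (Fin 2) (ZMod 5)} {val : ZMod 5 → ZMod 5 → K} {j s : F}

theorem Mat5.cancel : ∀ {a b c : ZMod 5}, a ≠ 0 → a * b = a * c → b = c := by decide

theorem Mat5.zero : ∀ {a b : ZMod 5}, a * b = 0 → a = 0 ∨ b = 0 := by decide

theorem vdm_ne {L : Type*} [Field L] {a b c d e f : L} : vdm a b c d e f ≠ 0 ↔
    (a ≠ b ∧ a ≠ c ∧ a ≠ d ∧ a ≠ e ∧ a ≠ f) ∧ (b ≠ c ∧ b ≠ d ∧ b ≠ e ∧ b ≠ f) ∧
    (c ≠ d ∧ c ≠ e ∧ c ≠ f) ∧ (d ≠ e ∧ d ≠ f) ∧ e ≠ f := by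
  unfold vdm
  simp only [mul_ne_zero_iff, sub_ne_zero]
  tauto

theorem outcome_of_commute (hs : s ^ 2 = 5) (H : Frame m val (algebraMap F K j))
    (c : K ≃ₐ[F] K) (hcc : c * c = 1) (hmc : m c = !![1, 0; 0, -1])
    (Z : (K ≃ₐ[F] K) → Prop) (hZ : ∀ σ, Z σ → Z (c * σ * c)) (hor : ∀ σ, Z σ ∨ Z (c * σ))
    (hab : ∀ σ τ, Z σ → Z τ → m σ * m τ = m τ * m σ) : Outcome F (algebraMap F K j) := by
  have hdet : ∀ σ : K ≃ₐ[F] K, m σ 0 0 * m σ 1 1 - m σ 0 1 * m σ 1 0 ≠ 0 := by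
    intro σ h0
    have h1 : m σ * m σ⁻¹ = 1 := by rw [← map_mul]; simp
    have h2 : (m σ).det * (m σ⁻¹).det = 1 := by rw [← Matrix.det_mul, h1, Matrix.det_one]
    have h3 : (m σ).det = 0 := by rw [Matrix.det_fin_two, h0]
    rw [h3, zero_mul] at h2
    exact absurd h2 (by decide)
  have hc : ∀ x y : ZMod 5, (x ≠ 0 ∨ y ≠ 0) → c (val x y) = val x (-y) := by
    intro x y hxy
    rw [H.gal c x y hxy, hmc]
    simp
  have hdec : ∀ σ : K ≃ₐ[F] K, Z σ ∨ ∃ τ, Z τ ∧ σ = c * τ := by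
    intro σ
    rcases hor σ with h | h
    · exact Or.inl h
    · refine Or.inr ⟨c * σ, h, ?_⟩
      rw [← mul_assoc, hcc, one_mul]
  have hfix : ∀ h : K, c h = h → (∀ τ, Z τ → τ h = h) → ∀ σ : K ≃ₐ[F] K, σ h = h := by
    intro h h1 h2 σ
    rcases hdec σ with h3 | ⟨τ, h3, rfl⟩
    · exact h2 σ h3
    · rw [AlgEquiv.mul_apply, h2 τ h3, h1]
  have hbg : ∀ σ, Z σ → m σ 0 1 * (m σ 0 0 - m σ 1 1) = 0 ∧
      m σ 1 0 * (m σ 0 0 - m σ 1 1) = 0 := by
    intro σ hσ
    have h1 := hab σ (c * σ * c) hσ (hZ σ hσ)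
    rw [map_mul, map_mul, hmc] at h1
    have h01 := congrFun (congrFun h1 0) 1
    have h10 := congrFun (congrFun h1 1) 0
    simp only [Matrix.mul_apply, Fin.sum_univ_two, Matrix.of_apply, Matrix.cons_val', Matrix.cons_val_zero,
      Matrix.cons_val_one, Matrix.cons_val_fin_one] at h01 h10
    generalize m σ 0 0 = a at *
    generalize m σ 0 1 = b at *
    generalize m σ 1 0 = g at *
    generalize m σ 1 1 = d at *
    clear h1
    constructor
    · revert h01; clear h10; revert a b g d; decide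
    · revert h10; clear h01; revert a b g d; decide
  have hdist := vdm_ne.mp H.ne
  have m10 : ∀ x : ZMod 5, x ≠ 0 → val x 0 = val 1 0 := by
    intro x hx
    have := H.smul x 1 0 hx
    simpa using this
  have m01 : ∀ y : ZMod 5, y ≠ 0 → val 0 y = val 0 1 := by
    intro y hy
    have := H.smul y 0 1 hy
    simpa using this
  have m1k : ∀ x y k : ZMod 5, x ≠ 0 → y = k * x → val x y = val 1 k := by
    intro x y k hx hy
    have := H.smul x 1 k hx
    rw [hy, ← this]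
    simp [mul_comm]
  by_cases hall : ∀ σ, Z σ → m σ 0 1 = 0 ∧ m σ 1 0 = 0
  · refine Or.inl ⟨val 1 0, H.root 1 0 (Or.inl (by decide)), hfix _ ?_ ?_⟩
    · rw [hc 1 0 (Or.inl (by decide)), neg_zero]
    · intro τ hτ
      obtain ⟨h1, h2⟩ := hall τ hτ
      have h3 := hdet τ
      rw [h1, zero_mul, sub_zero] at h3
      rw [H.gal τ 1 0 (Or.inl (by decide)), h1, h2]
      simp only [mul_one, mul_zero, add_zero]
      exact m10 _ (left_ne_zero_of_mul h3)
  push Not at hall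
  obtain ⟨σ₀, hσ₀, hne⟩ := hall
  obtain ⟨q1, q2⟩ := hbg σ₀ hσ₀
  have hne' : m σ₀ 0 1 ≠ 0 ∨ m σ₀ 1 0 ≠ 0 := by
    by_cases h : m σ₀ 0 1 = 0
    · exact Or.inr (hne h)
    · exact Or.inl h
  have had : ∀ τ, Z τ → m τ 0 0 = m τ 1 1 ∧ m τ 0 1 * m σ₀ 1 0 = m σ₀ 0 1 * m τ 1 0 := by
    intro τ hτ
    have h1 := hab τ σ₀ hτ hσ₀
    have h00 := congrFun (congrFun h1 0) 0
    have h01 := congrFun (congrFun h1 0) 1
    have h10 := congrFun (congrFun h1 1) 0
    simp only [Matrix.mul_apply, Fin.sum_univ_two] at h00 h01 h10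
    have ha0 : m σ₀ 0 0 = m σ₀ 1 1 := by
      rcases hne' with h | h
      · exact sub_eq_zero.mp ((Mat5.zero q1).resolve_left h)
      · exact sub_eq_zero.mp ((Mat5.zero q2).resolve_left h)
    rw [← ha0] at h01 h10
    constructor
    · rcases hne' with h | h
      · apply Mat5.cancel h
        linear_combination h01
      · apply Mat5.cancel h
        linear_combination -h10
    · linear_combination h00
  generalize hb0 : m σ₀ 0 1 = b₀ at *
  generalize hg0 : m σ₀ 1 0 = g₀ at *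
  by_cases hg : g₀ = 0
  · have hb : b₀ ≠ 0 := by
      rcases hne' with h | h
      · exact h
      · exact absurd hg h
    refine Or.inl ⟨val 1 0, H.root 1 0 (Or.inl (by decide)), hfix _ ?_ ?_⟩
    · rw [hc 1 0 (Or.inl (by decide)), neg_zero]
    · intro τ hτ
      obtain ⟨h1, h2⟩ := had τ hτ
      rw [hg, mul_zero] at h2
      have h4 : m τ 1 0 = 0 := (Mat5.zero h2.symm).resolve_left hb
      have h3 := hdet τ
      rw [h4, mul_zero, sub_zero] at h3
      rw [H.gal τ 1 0 (Or.inl (by decide)), h4]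
      simp only [mul_one, mul_zero, add_zero]
      exact m10 _ (left_ne_zero_of_mul h3)
  by_cases hb : b₀ = 0
  · refine Or.inl ⟨val 0 1, H.root 0 1 (Or.inr (by decide)), hfix _ ?_ ?_⟩
    · rw [hc 0 1 (Or.inr (by decide))]
      exact m01 _ (by decide)
    · intro τ hτ
      obtain ⟨h1, h2⟩ := had τ hτ
      rw [hb, zero_mul] at h2
      have h4 : m τ 0 1 = 0 := (Mat5.zero h2).resolve_right hg
      have h3 := hdet τ
      rw [h4, zero_mul, sub_zero] at h3
      rw [H.gal τ 0 1 (Or.inr (by decide)), h4]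
      simp only [mul_one, mul_zero, zero_add]
      exact m01 _ (right_ne_zero_of_mul h3)
  have hcase : (∃ k : ZMod 5, k ≠ 0 ∧ k ^ 2 * b₀ = g₀) ∨
      (∃ k : ZMod 5, k ≠ 0 ∧ k ^ 2 * b₀ = 2 * g₀) := by
    clear had hb0 hg0 q1 q2 hne hne'
    revert b₀ g₀; decide
  rcases hcase with ⟨k, hk, hkb⟩ | ⟨k, hk, hkb⟩
  · have hc1 : c (val 1 k) = val 1 (-k) := hc 1 k (Or.inl (by decide))
    have hc2 : c (val 1 (-k)) = val 1 k := by
      rw [hc 1 (-k) (Or.inl (by decide)), neg_neg]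
    have hτ : ∀ τ, Z τ → τ (val 1 k) = val 1 k ∧ τ (val 1 (-k)) = val 1 (-k) := by
      intro τ hτ
      obtain ⟨h1, h2⟩ := had τ hτ
      have h3 := hdet τ
      have h4 : m τ 1 0 = k ^ 2 * m τ 0 1 := by
        apply Mat5.cancel hb
        linear_combination -h2 - m τ 0 1 * hkb
      have h5 : (m τ 0 0 + m τ 0 1 * k) * (m τ 0 0 + m τ 0 1 * -k) ≠ 0 := by
        intro h6
        apply h3
        rw [← h1, h4]
        linear_combination h6
      constructor
      · rw [H.gal τ 1 k (Or.inl (by decide))]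
        refine m1k _ _ _ ?_ ?_
        · rw [mul_one]; exact left_ne_zero_of_mul h5
        · rw [← h1, h4]; ring
      · rw [H.gal τ 1 (-k) (Or.inl (by decide))]
        refine m1k _ _ _ ?_ ?_
        · rw [mul_one]; exact right_ne_zero_of_mul h5
        · rw [← h1, h4]; ring
    refine Or.inr (Or.inl ⟨val 1 k, val 1 (-k), ?_, H.root 1 k (Or.inl (by decide)),
      H.root 1 (-k) (Or.inl (by decide)), ?_⟩)
    · have hk' : k = 1 ∨ k = 2 ∨ k = 3 ∨ k = 4 := by
        clear hkb hc1 hc2 hτ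
        revert k; decide
      obtain ⟨-, -, ⟨-, -, d14⟩, ⟨d23, -⟩, -⟩ := hdist
      rcases hk' with rfl | rfl | rfl | rfl
      · exact d14
      · exact d23
      · exact d23.symm
      · exact d14.symm
    · intro σ
      rcases hdec σ with h | ⟨τ, h, rfl⟩
      · exact Or.inl (hτ σ h)
      · obtain ⟨h1, h2⟩ := hτ τ h
        refine Or.inr ⟨?_, ?_⟩
        · rw [AlgEquiv.mul_apply, h1, hc1]
        · rw [AlgEquiv.mul_apply, h2, hc2]
  · have hc0 : c (val 1 0) = val 1 0 := by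
      rw [hc 1 0 (Or.inl (by decide)), neg_zero]
    have hc1 : c (val 1 k) = val 1 (-k) := hc 1 k (Or.inl (by decide))
    have hc2 : c (val 1 (-k)) = val 1 k := by
      rw [hc 1 (-k) (Or.inl (by decide)), neg_neg]
    have hsym : ∀ τ, Z τ → τ (val 1 0 + val 1 k + val 1 (-k)) = val 1 0 + val 1 k + val 1 (-k) ∧
        τ (val 1 0 * val 1 k + val 1 0 * val 1 (-k) + val 1 k * val 1 (-k)) =
          val 1 0 * val 1 k + val 1 0 * val 1 (-k) + val 1 k * val 1 (-k) ∧
        τ (val 1 0 * val 1 k * val 1 (-k)) = val 1 0 * val 1 k * val 1 (-k) := by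
      intro τ hτ
      obtain ⟨h1, h2⟩ := had τ hτ
      have h4 : 2 * m τ 1 0 = k ^ 2 * m τ 0 1 := by
        apply Mat5.cancel hb
        linear_combination -2 * h2 - m τ 0 1 * hkb
      have h3 : m τ 0 0 ^ 2 - m τ 0 1 * m τ 1 0 = 1 ∨ m τ 0 0 ^ 2 - m τ 0 1 * m τ 1 0 = 4 := by
        by_cases h5 : m τ 0 1 = 0
        · have h6 := hdet τ
          rw [h5, zero_mul, sub_zero, ← h1] at h6
          rw [h5, zero_mul, sub_zero]
          generalize m τ 0 0 = a at *
          clear h1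
          revert a; decide
        · refine det5 hs H τ h1 ?_
          clear h1 h2
          generalize m τ 0 1 = b at *
          generalize m τ 1 0 = g at *
          clear hkb hc1 hc2
          revert k b g; decide
      have g0 := H.gal τ 1 0 (Or.inl (by decide))
      have g1 := H.gal τ 1 k (Or.inl (by decide))
      have g2 := H.gal τ 1 (-k) (Or.inl (by decide))
      rw [← h1] at g0 g1 g2
      simp only [mul_one, mul_zero, add_zero] at g0 g1 g2
      clear h1 h2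
      generalize m τ 0 0 = a at *
      generalize m τ 0 1 = b at *
      generalize m τ 1 0 = g at *
      have key : a ≠ 0 ∧ a + b * k ≠ 0 ∧ a + b * -k ≠ 0 ∧
        ((g = 0 * a ∧ ((g + a * k = k * (a + b * k) ∧ g + a * -k = -k * (a + b * -k)) ∨
          (g + a * k = -k * (a + b * k) ∧ g + a * -k = k * (a + b * -k)))) ∨
        (g = k * a ∧ ((g + a * k = 0 * (a + b * k) ∧ g + a * -k = -k * (a + b * -k)) ∨
          (g + a * k = -k * (a + b * k) ∧ g + a * -k = 0 * (a + b * -k)))) ∨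
        (g = -k * a ∧ ((g + a * k = 0 * (a + b * k) ∧ g + a * -k = k * (a + b * -k)) ∨
          (g + a * k = k * (a + b * k) ∧ g + a * -k = 0 * (a + b * -k))))) := by
        clear hkb hc1 hc2 g0 g1 g2
        revert k a b g; decide
      obtain ⟨n0, n1, n2, hh⟩ := key
      rcases hh with ⟨e0, ⟨e1, e2⟩ | ⟨e1, e2⟩⟩ | ⟨e0, ⟨e1, e2⟩ | ⟨e1, e2⟩⟩ |
        ⟨e0, ⟨e1, e2⟩ | ⟨e1, e2⟩⟩
      all_goals
        rw [m1k _ _ _ n0 e0] at g0
        rw [m1k _ _ _ n1 e1] at g1
        rw [m1k _ _ _ n2 e2] at g2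
        refine ⟨?_, ?_, ?_⟩ <;> simp only [map_add, map_mul, g0, g1, g2] <;> ring
    refine Or.inr (Or.inr ⟨val 1 0, val 1 k, val 1 (-k), val 0 1, val 1 (2 * k),
      val 1 (-(2 * k)), H.root _ _ (Or.inl (by decide)), H.root _ _ (Or.inl (by decide)),
      H.root _ _ (Or.inl (by decide)), H.root _ _ (Or.inr (by decide)),
      H.root _ _ (Or.inl (by decide)), H.root _ _ (Or.inl (by decide)), ?_, ?_⟩)
    · have hk' : k = 1 ∨ k = 2 ∨ k = 3 ∨ k = 4 := by
        clear hkb hc1 hc2 hsym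
        revert k; decide
      rw [vdm_ne]
      obtain ⟨⟨h05, h01, h02, h03, h04⟩, ⟨h51, h52, h53, h54⟩, ⟨h12, h13, h14⟩, ⟨h23, h24⟩, h34⟩ :=
        hdist
      rcases hk' with rfl | rfl | rfl | rfl
      · rw [show (-(2 * 1) : ZMod 5) = 3 by decide, show (-1 : ZMod 5) = 4 by decide,
          show (2 * 1 : ZMod 5) = 2 by decide]
        exact ⟨⟨h01, h04, h05, h02, h03⟩, ⟨h14, h51.symm, h12, h13⟩, ⟨h54.symm, h24.symm, h34.symm⟩, ⟨h52, h53⟩, h23⟩
      · rw [show (-(2 * 2) : ZMod 5) = 1 by decide, show (2 * 2 : ZMod 5) = 4 by decide,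
          show (-2 : ZMod 5) = 3 by decide]
        exact ⟨⟨h02, h03, h05, h04, h01⟩, ⟨h23, h52.symm, h24, h12.symm⟩, ⟨h53.symm, h34, h13.symm⟩, ⟨h54, h51⟩, h14.symm⟩
      · rw [show (-(2 * 3) : ZMod 5) = 4 by decide, show (2 * 3 : ZMod 5) = 1 by decide,
          show (-3 : ZMod 5) = 2 by decide]
        exact ⟨⟨h03, h02, h05, h01, h04⟩, ⟨h23.symm, h53.symm, h13.symm, h34⟩, ⟨h52.symm, h12.symm, h24⟩, ⟨h51, h54⟩, h14⟩
      · rw [show (-(2 * 4) : ZMod 5) = 2 by decide, show (2 * 4 : ZMod 5) = 3 by decide,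
          show (-4 : ZMod 5) = 1 by decide]
        exact ⟨⟨h04, h01, h05, h03, h02⟩, ⟨h14.symm, h54.symm, h34.symm, h24.symm⟩, ⟨h51.symm, h13, h12⟩, ⟨h53, h52⟩, h23.symm⟩
    · intro σ
      rcases hdec σ with h | ⟨τ, h, rfl⟩
      · exact hsym σ h
      · obtain ⟨h1, h2, h3⟩ := hsym τ h
        simp only [AlgEquiv.mul_apply]
        rw [h1, h2, h3]
        simp only [map_add, map_mul, hc0, hc1, hc2]
        exact ⟨by ring, by ring, by ring⟩

end Pool.Agent.S5N
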