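import Pool.Agent.S5N.FrameDef
import Pool.Agent.S5N.Pts5

/-! # A subgroup of order 5 stable under the elements fixing the fifth roots of unity (helper34)

PROOF. Let `R ≠ 0` in `C` (`H42M.exists_ne_zero`), `5 R = 0` (`H42M.exists_zsmul`), `Hof R h`
(`exists_Hof`). For `Z σ`, `σ R` is in `C`, so `σ R = ± R, ± 2 R` (`H42M.mem_cases5`) and `σ h = h`
(`act_Hof`, `Hof.neg`, `Hof.double`, `Hof.unique`). Let `h' = c h`; for `Z σ`:
`σ h' = c (c σ c) h = c h = h'`. If `h' = h`: first outcome (`σ = c (c σ)` by `hor`). If `h' ≠ h`: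
second outcome: `Z σ`: both fixed; `Z (c σ)`: `σ h = c (c σ h) = c h = h'`,
`σ h' = c (c σ h') = c h' = h`. -/

namespace Pool.Agent.S5N

open Pool.Agent.S5M Pool.Agent.H42M WeierstrassCurve WeierstrassCurve.Affine

variable {F K : Type*} [Field F] [Field K] [CharZero K] [DecidableEq K]
  [Algebra F K] {W : WeierstrassCurve F}

theorem outcome_of_stable {j : F}
    (hj : JRel (-27 * (WeierstrassCurve.Affine.baseChange W K).c₄)
      (-54 * (WeierstrassCurve.Affine.baseChange W K).c₆) (algebraMap F K j))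
    (c : K ≃ₐ[F] K) (hcc : ∀ z, c (c z) = z)
    (Z : (K ≃ₐ[F] K) → Prop) (hZ : ∀ σ, Z σ → Z (c * σ * c)) (hor : ∀ σ, Z σ ∨ Z (c * σ))
    (C : AddSubgroup (WeierstrassCurve.Affine.baseChange W K).Point) (hC : Nat.card C = 5)
    (hst : ∀ σ, Z σ → C.map (act W σ) = C) : Outcome F (algebraMap F K j) := by
  obtain ⟨R, hRC, hR0⟩ := exists_ne_zero (by norm_num) hC
  have h5 : R + R + (R + R) = -R := by
    obtain ⟨r, -, -, -, h5⟩ := exists_zsmul (by norm_num) hC hRC hR0 hRC
    rw [eq_neg_iff_add_eq_zero, ← h5]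
    push_cast
    abel
  obtain ⟨h, hh⟩ := exists_Hof hR0 h5
  have hfix : ∀ σ : K ≃ₐ[F] K, Z σ → σ h = h := by
    intro σ hσ
    have hmem : act W σ R ∈ C := by
      have h1 : act W σ R ∈ C.map (act W σ) := AddSubgroup.mem_map_of_mem _ hRC
      rwa [hst σ hσ] at h1
    have ha := act_Hof σ hh
    rcases mem_cases5 hC hRC hR0 hmem with h0 | h0 | h0 | h0 | h0
    · exact absurd ((map_eq_zero_iff _ (act_injective σ)).mp h0) hR0
    · rw [h0] at ha
      exact Hof.unique ha hh
    · rw [h0] at ha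
      exact Hof.unique ha hh.neg
    · rw [h0] at ha
      exact Hof.unique ha hh.double
    · rw [h0] at ha
      exact Hof.unique ha hh.double.neg
  have hfix' : ∀ σ : K ≃ₐ[F] K, Z σ → σ (c h) = c h := by
    intro σ hσ
    have h1 : c (σ (c h)) = h := hfix _ (hZ σ hσ)
    rw [← hcc (σ (c h)), h1]
  have hr : Root5 (algebraMap F K j) h := Hof.root hj hh
  have hr' : Root5 (algebraMap F K j) (c h) := Hof.root hj (act_Hof c hh)
  by_cases he : h = c h
  · left
    refine ⟨h, hr, fun σ => ?_⟩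
    rcases hor σ with hσ | hσ
    · exact hfix σ hσ
    · have h1 : c (σ h) = h := hfix _ hσ
      rw [← hcc (σ h), h1]
      exact he.symm
  · right; left
    refine ⟨h, c h, he, hr, hr', fun σ => ?_⟩
    rcases hor σ with hσ | hσ
    · exact Or.inl ⟨hfix σ hσ, hfix' σ hσ⟩
    · right
      have h1 : c (σ h) = h := hfix _ hσ
      have h2 : c (σ (c h)) = c h := hfix' _ hσ
      exact ⟨by rw [← hcc (σ h), h1], c.injective h2⟩

end Pool.Agent.S5N
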