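import Pool.Agent.S5M.Main
import Pool.Agent.S5N.Frame5
import Pool.Agent.S5N.Mat5
import Pool.Agent.S5N.Stab5
import Pool.Agent.S5N.Covers5
import Pool.Agent.S5N.Cov3
import Pool.Agent.S5N.Conj5

/-! # The moduli form over fields containing the square root of 5 (helper34) -/

namespace Pool.Agent.S5N

open Pool.Agent.S5M Pool.Agent.H42M WeierstrassCurve WeierstrassCurve.Affine NumberField

theorem jrel {F : Type*} [Field F] [CharZero F] (W : WeierstrassCurve F) [W.IsElliptic] :
    JRel (-27 * W.c₄) (-54 * W.c₆) W.j := by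
  refine ⟨disc_ne_zero W, ?_⟩
  have hrel := W.c_relation
  have h1 : W.j * W.Δ = W.c₄ ^ 3 := by
    rw [WeierstrassCurve.j, ← W.coe_Δ', mul_assoc, mul_comm (W.c₄ ^ 3), ← mul_assoc,
      Units.inv_mul, one_mul]
  linear_combination (-136048896 : F) * h1 + 78732 * W.j * hrel

theorem final {F : Type*} [Field F] [NumberField F] [IsTotallyReal F] {s : 𝓞 F} (H : HypS F s)
    {K : Type*} [Field K] [Algebra F K] [IsGalois F K] [IsAlgClosed K] [DecidableEq K]
    (W : WeierstrassCurve F) [W.IsElliptic]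
    (h3 : ∀ σ τ : K ≃ₐ[F] K, (∀ z : K, z ^ 2 = -3 → σ z = z ∧ τ z = z) →
      ∀ R : (WeierstrassCurve.Affine.baseChange W K).Point, 3 • R = 0 →
        act W σ (act W τ R) = act W τ (act W σ R))
    (h5 : (∃ C : AddSubgroup (WeierstrassCurve.Affine.baseChange W K).Point, Nat.card C = 5 ∧
        ∀ σ : K ≃ₐ[F] K, (∀ z : K, z ^ 5 = 1 → σ z = z) → C.map (act W σ) = C) ∨
      ∀ σ τ : K ≃ₐ[F] K, (∀ z : K, z ^ 5 = 1 → σ z = z ∧ τ z = z) →
        ∀ R : (WeierstrassCurve.Affine.baseChange W K).Point, 5 • R = 0 →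
          act W σ (act W τ R) = act W τ (act W σ R)) : Known (s : F) W.j := by
  have hch : CharZero K := charZero_of_injective_algebraMap (algebraMap F K).injective
  by_cases h0 : W.j = 0
  · exact Or.inl h0
  by_cases h1 : W.j = 1728
  · exact Or.inr (Or.inl h1)
  have hEll : (WeierstrassCurve.Affine.baseChange W K).IsElliptic := by
    rw [WeierstrassCurve.isElliptic_iff]
    have h1 : (WeierstrassCurve.Affine.baseChange W K).Δ = algebraMap F K W.Δ := W.map_Δ _
    rw [h1]
    exact W.isUnit_Δ.map _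
  have hc4 : (WeierstrassCurve.Affine.baseChange W K).c₄ = algebraMap F K W.c₄ := W.map_c₄ _
  have hc6 : (WeierstrassCurve.Affine.baseChange W K).c₆ = algebraMap F K W.c₆ := W.map_c₆ _
  have hj := jrel W
  have hjK : JRel (-27 * (WeierstrassCurve.Affine.baseChange W K).c₄)
      (-54 * (WeierstrassCurve.Affine.baseChange W K).c₆) (algebraMap F K W.j) := by
    rw [hc4, hc6]
    constructor
    · intro h
      apply hj.1
      apply (algebraMap F K).injective
      simpa only [map_add, map_mul, map_pow, map_neg, map_ofNat, map_zero] using h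
    · have h := congrArg (algebraMap F K) hj.2
      simpa only [map_add, map_mul, map_pow, map_neg, map_ofNat, map_zero] using h
  obtain ⟨φ₀, -⟩ := exists_emb (F := F) H.sqF (ε := Real.sqrt 5) (Real.sq_sqrt (by norm_num))
  obtain ⟨c, φ, hφ, hcc, hc3, hc5⟩ := exists_conj5 (K := K) φ₀
  have hcc' : c * c = 1 := AlgEquiv.ext hcc
  let Z : (K ≃ₐ[F] K) → Prop := fun σ => ∀ z : K, z ^ 5 = 1 → σ z = z
  have hZ : ∀ σ, Z σ → Z (c * σ * c) := by
    intro σ hσ z hz
    have hz' : (c z) ^ 5 = 1 := by rw [← map_pow, hz, map_one]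
    rw [AlgEquiv.mul_apply, AlgEquiv.mul_apply, hσ _ hz', hcc]
  have hor : ∀ σ, Z σ ∨ Z (c * σ) := fun σ => conj_or H.sqF c hc5 σ
  have hthree : IsB3 W.j ∨ IsS3 W.j := by
    refine (cov3 c hcc hc3 W hj fun σ τ h R hR => h3 σ τ h R ?_).resolve_left h0
    rw [show (3 : ℕ) • R = R + R + R by abel, hR, neg_add_cancel]
  refine main H W.j hthree (covers5 (K := K) H.sqF h0 h1 ?_)
  rcases h5 with ⟨C, hC, hst⟩ | hab
  · exact outcome_of_stable hjK c hcc Z hZ hor C hC hst
  · obtain ⟨m, val, hF, hmc, hcomm⟩ := frame5 hjK h0 h1 c φ hφ hcc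
    refine outcome_of_commute H.sqF hF c hcc' hmc Z hZ hor fun σ τ hσ hτ => hcomm σ τ fun R hR => ?_
    refine hab σ τ (fun z hz => ⟨hσ z hz, hτ z hz⟩) R ?_
    rw [show (5 : ℕ) • R = R + R + (R + R) + R by abel, hR, neg_add_cancel]

end Pool.Agent.S5N
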