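import Pool.Agent.S5N.Basic

/-! # The Galois action on the six points of `X0(5)`, through matrices over `ZMod 5` (helper34) -/

namespace Pool.Agent.S5N

/-- `val x y` is the point of `X0(5)` given by the subgroup generated by `x P + y Q`, where `P`, `Q`
is a basis of the 5-torsion, and `m σ` is the matrix of `σ`. -/
structure Frame {F K : Type*} [Field F] [Field K] [Algebra F K]
    (m : (K ≃ₐ[F] K) →* Matrix (Fin 2) (Fin 2) (ZMod 5)) (val : ZMod 5 → ZMod 5 → K) (j : K) :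
    Prop where
  smul : ∀ k x y : ZMod 5, k ≠ 0 → val (k * x) (k * y) = val x y
  root : ∀ x y : ZMod 5, (x ≠ 0 ∨ y ≠ 0) → Root5 j (val x y)
  gal : ∀ (σ : K ≃ₐ[F] K) (x y : ZMod 5), (x ≠ 0 ∨ y ≠ 0) →
    σ (val x y) = val (m σ 0 0 * x + m σ 0 1 * y) (m σ 1 0 * x + m σ 1 1 * y)
  ne : vdm (val 1 0) (val 0 1) (val 1 1) (val 1 2) (val 1 3) (val 1 4) ≠ 0

/-- the three possible outcomes -/
def Outcome (F : Type*) {K : Type*} [Field F] [Field K] [Algebra F K] (j : K) : Prop :=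
  (∃ h : K, Root5 j h ∧ ∀ σ : K ≃ₐ[F] K, σ h = h) ∨
  (∃ h h' : K, h ≠ h' ∧ Root5 j h ∧ Root5 j h' ∧
    ∀ σ : K ≃ₐ[F] K, (σ h = h ∧ σ h' = h') ∨ (σ h = h' ∧ σ h' = h)) ∨
  (∃ a b c d e f : K, Root5 j a ∧ Root5 j b ∧ Root5 j c ∧ Root5 j d ∧ Root5 j e ∧ Root5 j f ∧
    vdm a b c d e f ≠ 0 ∧ ∀ σ : K ≃ₐ[F] K, σ (a + b + c) = a + b + c ∧
      σ (a * b + a * c + b * c) = a * b + a * c + b * c ∧ σ (a * b * c) = a * b * c)

end Pool.Agent.S5N
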