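import Pool.Agent.S5M.Emb
import Pool.Agent.S5M.Basic
import Pool.Agent.H42M.Prim
import Pool.Agent.H42M.Glob

/-! # Unique primes above 3 and 5 (helper34)

In a totally real field of odd narrow class number the exponents `k` in `(3) = P ^ k` and
`(√5) = P ^ k` are automatically odd. -/

namespace Pool.Agent.S5N

open NumberField IsDedekindDomain WithZero Pool.Agent.S5M

variable {F : Type*} [Field F] [NumberField F]

/-- an element contained in exactly one prime ideal generates a power of it -/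
theorem span_eq_pow {a : 𝓞 F} (ha : a ≠ 0) {P : Ideal (𝓞 F)}
    (hu : ∀ Q : Ideal (𝓞 F), Q.IsPrime → a ∈ Q → Q = P) :
    ∃ k : ℕ, Ideal.span {a} = P ^ k := by
  classical
  have h0 : (Ideal.span {a} : Ideal (𝓞 F)) ≠ ⊥ := by
    rwa [Ne, Ideal.span_singleton_eq_bot]
  refine ⟨Multiset.card (UniqueFactorizationMonoid.normalizedFactors (Ideal.span {a})), ?_⟩
  have h1 := UniqueFactorizationMonoid.prod_normalizedFactors_eq (a := Ideal.span {a})
    (by simpa using h0)
  have h2 : UniqueFactorizationMonoid.normalizedFactors (Ideal.span {a}) =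
      Multiset.replicate (Multiset.card (UniqueFactorizationMonoid.normalizedFactors
        (Ideal.span {a}))) P := by
    rw [Multiset.eq_replicate_card]
    intro Q hQ
    have hQp := UniqueFactorizationMonoid.prime_of_normalized_factor Q hQ
    apply hu Q (Ideal.isPrime_of_prime hQp)
    have := Ideal.dvd_iff_le.mp (UniqueFactorizationMonoid.dvd_of_mem_normalizedFactors hQ)
    exact this (Ideal.mem_span_singleton_self a)
  have h1' : (UniqueFactorizationMonoid.normalizedFactors (Ideal.span {a})).prod =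
      Ideal.span {a} := by
    rw [normalize_eq] at h1
    exact h1
  calc Ideal.span {a} = (UniqueFactorizationMonoid.normalizedFactors (Ideal.span {a})).prod :=
        h1'.symm
    _ = (Multiset.replicate (Multiset.card (UniqueFactorizationMonoid.normalizedFactors
        (Ideal.span {a}))) P).prod := congrArg Multiset.prod h2
    _ = _ := Multiset.prod_replicate _ _

/-- valuations of a generator of a square of an ideal -/
theorem even_of_span {a : 𝓞 F} {J : Ideal (𝓞 F)} (h : Ideal.span {a} = J ^ 2) (ha : a ≠ 0)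
    (v : HeightOneSpectrum (𝓞 F)) : IsSquare (v.valuation F (a : F)) := by
  have hJ : J ≠ 0 := by
    rintro rfl
    rw [zero_pow two_ne_zero, Ideal.zero_eq_bot, Ideal.span_singleton_eq_bot] at h
    exact ha h
  have h1 : v.valuation F (a : F) = v.intValuation a := v.valuation_of_algebraMap (K := F) _
  rw [h1, v.intValuation_if_neg ha, h, Associates.mk_pow,
    Associates.count_pow (Associates.mk_ne_zero.mpr hJ) v.associates_irreducible]
  refine ⟨exp (-((Associates.mk v.asIdeal).count (Associates.mk J).factors : ℤ)), ?_⟩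
  rw [← exp_add]
  congr 1
  push_cast
  ring

variable [IsTotallyReal F]

theorem no_neg_one (hodd : Odd (classNumber F))
    (hpos : ∀ u : (𝓞 F)ˣ, (∀ φ : F →+* ℝ, 0 < φ ((u : 𝓞 F) : F)) → IsSquare u)
    (φ : F →+* ℝ) (a b : 𝓞 F) (h : a ^ 2 + 1 = 4 * b) : False := by
  obtain ⟨w, hw⟩ := H42M.isSquare_of_primary hodd hpos (-1) ⟨a, ⟨-b, by
    rw [Units.val_neg, Units.val_one]
    linear_combination -h⟩⟩
  have h1 : ((w : 𝓞 F) : F) * ((w : 𝓞 F) : F) = -1 := by
    have h2 := congrArg (fun u : (𝓞 F)ˣ => ((u : 𝓞 F) : F)) hw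
    simp only [Units.val_neg, Units.val_one, Units.val_mul, map_neg, map_one, map_mul] at h2
    exact h2.symm
  have h3 := congrArg φ h1
  rw [map_mul, map_neg, map_one] at h3
  nlinarith [mul_self_nonneg (φ ((w : 𝓞 F) : F))]

omit [IsTotallyReal F] in
/-- a totally positive integer which generates the square of an ideal is a square of an integer -/
theorem exists_sqrt (hodd : Odd (classNumber F))
    (hpos : ∀ u : (𝓞 F)ˣ, (∀ φ : F →+* ℝ, 0 < φ ((u : 𝓞 F) : F)) → IsSquare u)
    {a : 𝓞 F} {J : Ideal (𝓞 F)} (h : Ideal.span {a} = J ^ 2) (ha : a ≠ 0)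
    (hp : ∀ φ : F →+* ℝ, 0 < φ (a : F)) : ∃ x : 𝓞 F, x ^ 2 = a := by
  have ha' : (a : F) ≠ 0 := by
    intro h0
    apply ha
    exact RingOfIntegers.coe_injective (h0.trans (map_zero _).symm)
  obtain ⟨y, hy⟩ := H42M.isSquare_of_pos hodd hpos ha' (even_of_span h ha) hp
  have hint : IsIntegral ℤ y := by
    refine IsIntegral.of_pow (n := 2) two_pos ?_
    rw [pow_two, ← hy]
    exact a.2
  obtain ⟨x, hx⟩ : ∃ x : 𝓞 F, algebraMap (𝓞 F) F x = y := ⟨⟨y, hint⟩, rfl⟩
  refine ⟨x, RingOfIntegers.coe_injective ?_⟩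
  rw [map_pow, pow_two, hx]
  exact hy.symm

theorem hypS_of_unique {s : 𝓞 F} (hs : s ^ 2 = 5) (hodd : Odd (classNumber F))
    (hpos : ∀ u : (𝓞 F)ˣ, (∀ φ : F →+* ℝ, 0 < φ ((u : 𝓞 F) : F)) → IsSquare u)
    (h3 : ∃! P : Ideal (𝓞 F), P.IsPrime ∧ (3 : 𝓞 F) ∈ P)
    (h5 : ∃! P : Ideal (𝓞 F), P.IsPrime ∧ (5 : 𝓞 F) ∈ P) : HypS F s := by
  have hsF : (s : F) ^ 2 = 5 := by
    have h := congrArg (algebraMap (𝓞 F) F) hs
    rw [map_pow, map_ofNat] at h
    exact h
  have hrs : ∀ φ : F →+* ℝ, φ (s : F) ^ 2 = 5 := fun φ => by rw [← map_pow, hsF, map_ofNat]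
  obtain ⟨φ, -⟩ := exists_emb (F := F) hsF (ε := Real.sqrt 5) (Real.sq_sqrt (by norm_num))
  have hs0 : s ≠ 0 := by
    rintro rfl
    norm_num at hs
  refine ⟨hs, hodd, hpos, ?_, ?_⟩
  · obtain ⟨P, ⟨hP, hP3⟩, hu⟩ := h3
    obtain ⟨k, hk⟩ := span_eq_pow (a := (3 : 𝓞 F)) (by norm_num) fun Q hQ hQ3 => hu Q ⟨hQ, hQ3⟩
    refine ⟨P, hP, k, ?_, hk⟩
    rw [← Nat.not_even_iff_odd]
    rintro ⟨m, hm⟩
    have hk' : Ideal.span {(3 : 𝓞 F)} = (P ^ m) ^ 2 := by rw [hk, hm, ← pow_mul]; ring_nf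
    obtain ⟨x, hx⟩ := exists_sqrt hodd hpos hk' (by norm_num) fun φ => by
      change 0 < φ (algebraMap (𝓞 F) F 3)
      rw [map_ofNat, map_ofNat]; norm_num
    exact no_neg_one hodd hpos φ x 1 (by rw [hx]; norm_num)
  · obtain ⟨P, ⟨hP, hP5⟩, hu⟩ := h5
    obtain ⟨k, hk⟩ := span_eq_pow (a := s) hs0 fun Q hQ hQs => hu Q ⟨hQ, by
      rw [← hs]
      exact Q.pow_mem_of_mem hQs 2 two_pos⟩
    refine ⟨P, hP, k, ?_, hk⟩
    rw [← Nat.not_even_iff_odd]
    rintro ⟨m, hm⟩
    -- the unit `g = (1 + s) / 2`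
    obtain ⟨g, hg⟩ : ∃ g : 𝓞 F, 2 * g = 1 + s := by
      have hint : IsIntegral ℤ ((1 + (s : F)) / 2) := by
        refine ⟨Polynomial.X ^ 2 - Polynomial.X - 1, ?_, ?_⟩
        · monicity!
        · simp only [Polynomial.eval₂_sub, Polynomial.eval₂_X_pow, Polynomial.eval₂_X,
            Polynomial.eval₂_one]
          linear_combination hsF / 4
      obtain ⟨g, hg⟩ : ∃ g : 𝓞 F, algebraMap (𝓞 F) F g = (1 + (s : F)) / 2 := ⟨⟨_, hint⟩, rfl⟩
      refine ⟨g, RingOfIntegers.coe_injective ?_⟩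
      rw [map_mul, map_add, map_one, map_ofNat, hg]
      change 2 * ((1 + (s : F)) / 2) = 1 + s
      ring
    have hg2 : g ^ 2 = g + 1 := by
      have h4 : (4 : 𝓞 F) * (g ^ 2 - (g + 1)) = 0 := by
        linear_combination (2 * g - 1 + s) * hg + hs
      have := (mul_eq_zero.mp h4).resolve_left (by norm_num)
      linear_combination this
    have hspan : Ideal.span {2 + g} = (P ^ m) ^ 2 := by
      have h1 : Ideal.span {2 + g} = Ideal.span {s} := by
        rw [Ideal.span_singleton_eq_span_singleton]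
        refine (Associated.symm ⟨⟨g, g - 1, by linear_combination hg2, by linear_combination hg2⟩, ?_⟩)
        change s * g = 2 + g
        linear_combination -g * hg + 2 * hg2
      rw [h1, hk, hm, ← pow_mul]
      ring_nf
    have hτ : (2 : 𝓞 F) + g ≠ 0 := by
      intro h0
      have h1 : g = -2 := by linear_combination h0
      rw [h1] at hg2
      norm_num at hg2
    obtain ⟨x, hx⟩ := exists_sqrt hodd hpos hspan hτ fun φ => by
      have h1 : φ ((2 + g : 𝓞 F) : F) = (5 + φ (s : F)) / 2 := by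
        have h2 := congrArg (fun z : 𝓞 F => φ (z : F)) hg
        simp only [map_mul, map_add, map_one, map_ofNat] at h2
        change φ (algebraMap (𝓞 F) F (2 + g)) = _
        rw [map_add, map_add, map_ofNat, map_ofNat]
        linarith
      rw [h1]
      nlinarith [hrs φ]
    refine no_neg_one hodd hpos φ ((1 + g) * x * (3 - g)) (4 + 5 * g) ?_
    have h6 : ((1 + g) * x * (3 - g)) ^ 2 = (1 + g) ^ 2 * (3 - g) ^ 2 * (2 + g) := by
      rw [← hx]; ring
    rw [h6]
    linear_combination (g ^ 3 - g ^ 2 - 10 * g - 3) * hg2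

end Pool.Agent.S5N
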